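import Pool.Agent.Helper83.Tri.Local

set_option autoImplicit false

namespace TriLat

lemma zmod6_cases : ∀ d : ZMod 6, d = 0 ∨ d = 1 ∨ d = 2 ∨ d = 3 ∨ d = 4 ∨ d = 5 := by decide

/-- Local configuration of a region around a vertex. -/
structure Cfg (σ χ : ZMod 6 → Prop) : Prop where
  L1 : ∀ s, σ s → ¬ σ (s + 1)
  L2 : ∀ s, χ s → ¬ σ s
  L3 : ∀ s, χ s → ¬ σ (s + 1) → χ (s + 1)
  L4 : ∀ s, χ (s + 1) → ¬ σ s → χ s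

def COut (σ χ : ZMod 6 → Prop) (t : ZMod 6) : Prop := σ t ∧ χ (t + 1) ∧ ¬ χ (t - 1)
def CIn (σ χ : ZMod 6 → Prop) (s : ZMod 6) : Prop := σ s ∧ χ (s - 1) ∧ ¬ χ (s + 1)

lemma Cfg.rot {σ χ : ZMod 6 → Prop} (h : Cfg σ χ) (r : ZMod 6) :
    Cfg (fun i => σ (r + i)) (fun i => χ (r + i)) where
  L1 s := by simpa [add_assoc] using h.L1 (r + s)
  L2 s := by simpa [add_assoc] using h.L2 (r + s)
  L3 s := by simpa [add_assoc] using h.L3 (r + s)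
  L4 s := by simpa [add_assoc] using h.L4 (r + s)

lemma COut.rot {σ χ : ZMod 6 → Prop} {r t : ZMod 6} :
    COut (fun i => σ (r + i)) (fun i => χ (r + i)) t ↔ COut σ χ (r + t) := by
  simp [COut, add_assoc, add_sub_assoc]

lemma CIn.rot {σ χ : ZMod 6 → Prop} {r t : ZMod 6} :
    CIn (fun i => σ (r + i)) (fun i => χ (r + i)) t ↔ CIn σ χ (r + t) := by
  simp [CIn, add_assoc, add_sub_assoc]

lemma Cfg.facts {σ χ : ZMod 6 → Prop} (h : Cfg σ χ) :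
    (σ 0 → ¬ σ 1) ∧ (σ 1 → ¬ σ 2) ∧ (σ 2 → ¬ σ 3) ∧ (σ 3 → ¬ σ 4) ∧ (σ 4 → ¬ σ 5) ∧
    (σ 5 → ¬ σ 0) ∧
    (χ 0 → ¬ σ 0) ∧ (χ 1 → ¬ σ 1) ∧ (χ 2 → ¬ σ 2) ∧ (χ 3 → ¬ σ 3) ∧ (χ 4 → ¬ σ 4) ∧
    (χ 5 → ¬ σ 5) ∧
    (χ 0 → ¬ σ 1 → χ 1) ∧ (χ 1 → ¬ σ 2 → χ 2) ∧ (χ 2 → ¬ σ 3 → χ 3) ∧ (χ 3 → ¬ σ 4 → χ 4) ∧
    (χ 4 → ¬ σ 5 → χ 5) ∧ (χ 5 → ¬ σ 0 → χ 0) ∧
    (χ 1 → ¬ σ 0 → χ 0) ∧ (χ 2 → ¬ σ 1 → χ 1) ∧ (χ 3 → ¬ σ 2 → χ 2) ∧ (χ 4 → ¬ σ 3 → χ 3) ∧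
    (χ 5 → ¬ σ 4 → χ 4) ∧ (χ 0 → ¬ σ 5 → χ 5) :=
  ⟨h.L1 0, h.L1 1, h.L1 2, h.L1 3, h.L1 4, h.L1 5,
   h.L2 0, h.L2 1, h.L2 2, h.L2 3, h.L2 4, h.L2 5,
   h.L3 0, h.L3 1, h.L3 2, h.L3 3, h.L3 4, h.L3 5,
   h.L4 0, h.L4 1, h.L4 2, h.L4 3, h.L4 4, h.L4 5⟩

lemma COut.facts {σ χ : ZMod 6 → Prop} :
    (COut σ χ 0 ↔ σ 0 ∧ χ 1 ∧ ¬ χ 5) ∧ (COut σ χ 1 ↔ σ 1 ∧ χ 2 ∧ ¬ χ 0) ∧
    (COut σ χ 2 ↔ σ 2 ∧ χ 3 ∧ ¬ χ 1) ∧ (COut σ χ 3 ↔ σ 3 ∧ χ 4 ∧ ¬ χ 2) ∧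
    (COut σ χ 4 ↔ σ 4 ∧ χ 5 ∧ ¬ χ 3) ∧ (COut σ χ 5 ↔ σ 5 ∧ χ 0 ∧ ¬ χ 4) :=
  ⟨Iff.rfl, Iff.rfl, Iff.rfl, Iff.rfl, Iff.rfl, Iff.rfl⟩

lemma CIn.facts {σ χ : ZMod 6 → Prop} :
    (CIn σ χ 0 ↔ σ 0 ∧ χ 5 ∧ ¬ χ 1) ∧ (CIn σ χ 1 ↔ σ 1 ∧ χ 0 ∧ ¬ χ 2) ∧
    (CIn σ χ 2 ↔ σ 2 ∧ χ 1 ∧ ¬ χ 3) ∧ (CIn σ χ 3 ↔ σ 3 ∧ χ 2 ∧ ¬ χ 4) ∧
    (CIn σ χ 4 ↔ σ 4 ∧ χ 3 ∧ ¬ χ 5) ∧ (CIn σ χ 5 ↔ σ 5 ∧ χ 4 ∧ ¬ χ 0) :=
  ⟨Iff.rfl, Iff.rfl, Iff.rfl, Iff.rfl, Iff.rfl, Iff.rfl⟩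

lemma Cfg.out_cases0 {σ χ : ZMod 6 → Prop} (h : Cfg σ χ) (ht : COut σ χ 0) :
    CIn σ χ 2 ∨ CIn σ χ 3 ∨ CIn σ χ 4 := by
  have f := h.facts
  have g := @COut.facts σ χ
  have g' := @CIn.facts σ χ
  grind

lemma Cfg.in_cases0 {σ χ : ZMod 6 → Prop} (h : Cfg σ χ) (ht : CIn σ χ 0) :
    COut σ χ 4 ∨ COut σ χ 3 ∨ COut σ χ 2 := by
  have f := h.facts
  have g := @COut.facts σ χ
  have g' := @CIn.facts σ χ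
  grind

lemma Cfg.out_unique0 {σ χ : ZMod 6 → Prop} (h : Cfg σ χ) (ht : COut σ χ 0) :
    ¬ COut σ χ 1 ∧ ¬ COut σ χ 2 ∧ ¬ COut σ χ 3 ∧ ¬ COut σ χ 4 ∧ ¬ COut σ χ 5 := by
  have f := h.facts
  have g := @COut.facts σ χ
  grind

lemma Cfg.in_unique0 {σ χ : ZMod 6 → Prop} (h : Cfg σ χ) (ht : CIn σ χ 0) :
    ¬ CIn σ χ 1 ∧ ¬ CIn σ χ 2 ∧ ¬ CIn σ χ 3 ∧ ¬ CIn σ χ 4 ∧ ¬ CIn σ χ 5 := by
  have f := h.facts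
  have g := @CIn.facts σ χ
  grind


lemma Cfg.pairR0 {σ χ χ' : ZMod 6 → Prop} (h : Cfg σ χ) (h' : Cfg σ χ')
    (hd : ∀ s, χ s → ¬ χ' s) (h1 : CIn σ χ 0) (h2 : COut σ χ 2)
    (h3 : COut σ χ' 0 ∨ CIn σ χ' 2) : COut σ χ' 0 ∧ CIn σ χ' 2 := by
  have f := h.facts
  have f' := h'.facts
  have g := @COut.facts σ χ
  have g' := @COut.facts σ χ'
  have k := @CIn.facts σ χ
  have k' := @CIn.facts σ χ'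
  have d1 := hd 1
  have d3 := hd 3
  have d5 := hd 5
  grind

lemma Cfg.pairS0 {σ χ χ' : ZMod 6 → Prop} (h : Cfg σ χ) (h' : Cfg σ χ')
    (h1 : CIn σ χ 3) (h2 : COut σ χ 0)
    (h3 : COut σ χ' 3 ∨ CIn σ χ' 0) : COut σ χ' 3 ∧ CIn σ χ' 0 := by
  have f := h.facts
  have f' := h'.facts
  have g := @COut.facts σ χ
  have g' := @COut.facts σ χ'
  have k := @CIn.facts σ χ
  have k' := @CIn.facts σ χ'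
  grind

lemma Cfg.out_cases {σ χ : ZMod 6 → Prop} (h : Cfg σ χ) {t : ZMod 6} (ht : COut σ χ t) :
    CIn σ χ (t + 2) ∨ CIn σ χ (t + 3) ∨ CIn σ χ (t + 4) := by
  have := (h.rot t).out_cases0 (by rw [COut.rot, add_zero]; exact ht)
  simpa [CIn.rot] using this

lemma Cfg.in_cases {σ χ : ZMod 6 → Prop} (h : Cfg σ χ) {t : ZMod 6} (ht : CIn σ χ t) :
    COut σ χ (t + 4) ∨ COut σ χ (t + 3) ∨ COut σ χ (t + 2) := by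
  have := (h.rot t).in_cases0 (by rw [CIn.rot, add_zero]; exact ht)
  simpa [COut.rot] using this

lemma Cfg.out_unique {σ χ : ZMod 6 → Prop} (h : Cfg σ χ) {t t' : ZMod 6} (ht : COut σ χ t)
    (ht' : COut σ χ t') : t = t' := by
  have := (h.rot t).out_unique0 (by rw [COut.rot, add_zero]; exact ht)
  simp only [COut.rot] at this
  obtain ⟨d, rfl⟩ : ∃ d, t' = t + d := ⟨t' - t, by ring⟩
  have hd := zmod6_cases d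
  rcases hd with rfl | rfl | rfl | rfl | rfl | rfl
  · rw [add_zero]
  all_goals tauto

lemma Cfg.in_unique {σ χ : ZMod 6 → Prop} (h : Cfg σ χ) {t t' : ZMod 6} (ht : CIn σ χ t)
    (ht' : CIn σ χ t') : t = t' := by
  have := (h.rot t).in_unique0 (by rw [CIn.rot, add_zero]; exact ht)
  simp only [CIn.rot] at this
  obtain ⟨d, rfl⟩ : ∃ d, t' = t + d := ⟨t' - t, by ring⟩
  have hd := zmod6_cases d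
  rcases hd with rfl | rfl | rfl | rfl | rfl | rfl
  · rw [add_zero]
  all_goals tauto

lemma Cfg.pairR {σ χ χ' : ZMod 6 → Prop} (h : Cfg σ χ) (h' : Cfg σ χ') {s : ZMod 6}
    (hd : ∀ s, χ s → ¬ χ' s) (h1 : CIn σ χ s) (h2 : COut σ χ (s + 2))
    (h3 : COut σ χ' s ∨ CIn σ χ' (s + 2)) : COut σ χ' s ∧ CIn σ χ' (s + 2) := by
  have := (h.rot s).pairR0 (h'.rot s) (fun i => hd (s + i)) (by rw [CIn.rot, add_zero]; exact h1)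
    (by rw [COut.rot]; exact h2) (by rw [COut.rot, CIn.rot, add_zero]; exact h3)
  rwa [COut.rot, CIn.rot, add_zero] at this

lemma Cfg.pairS {σ χ χ' : ZMod 6 → Prop} (h : Cfg σ χ) (h' : Cfg σ χ') {t : ZMod 6}
    (h1 : CIn σ χ (t + 3)) (h2 : COut σ χ t)
    (h3 : COut σ χ' (t + 3) ∨ CIn σ χ' t) : COut σ χ' (t + 3) ∧ CIn σ χ' t := by
  have := (h.rot t).pairS0 (h'.rot t) (by rw [CIn.rot]; exact h1)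
    (by rw [COut.rot, add_zero]; exact h2) (by rw [COut.rot, CIn.rot, add_zero]; exact h3)
  rwa [COut.rot, CIn.rot, add_zero] at this

/-- The configuration of a region at a vertex of `S`. -/
lemma IsRegion.cfg {S : Finset Pt} {R : Set Pt} (hS : TFree S) (hR : IsRegion S R) {v : Pt}
    (hv : v ∈ S) : Cfg (fun s => v + e s ∈ S) (fun s => v + e s ∈ R) where
  L1 s h := hS v hv s h
  L2 s h := hR.out _ h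
  L3 s h h' := hR.next h h'
  L4 s h h' := by
    have := hR.prev (s := s + 1) h (by simpa using h')
    simpa using this

lemma bd_out_iff' {S : Finset Pt} {R : Set Pt} {v : Pt} (hv : v ∈ S) {t : ZMod 6} :
    Bd S R v t ↔ COut (fun s => v + e s ∈ S) (fun s => v + e s ∈ R) t := by
  rw [bd_out_iff]; unfold COut; tauto

lemma bd_in_iff' {S : Finset Pt} {R : Set Pt} {v : Pt} (hv : v ∈ S) {s : ZMod 6} :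
    Bd S R (v + e s) (s + 3) ↔ CIn (fun s => v + e s ∈ S) (fun s => v + e s ∈ R) s := by
  rw [bd_in_iff]; unfold CIn; tauto

end TriLat
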