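import Mathlib

/-!
# Triangular lattice: basic definitions for MP_40ab69_co (S08339)
Directions are indexed by `ZMod 6`, `e t` for `t = 0,…,5` counterclockwise.
-/

set_option autoImplicit false

namespace TriLat

/-- Lattice points. -/
abbrev Pt := ℤ × ℤ

/-- The six unit vectors of the triangular lattice, in counterclockwise order. -/
def e : ZMod 6 → Pt :=
  (![(1, 0), (0, 1), (-1, 1), (-1, 0), (0, -1), (1, -1)] : Fin 6 → Pt)

/-- `Tfree S` : no triangle of the lattice inside `S`. -/
def TFree (S : Finset Pt) : Prop :=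
  ∀ v ∈ S, ∀ t : ZMod 6, v + e t ∈ S → v + e (t + 1) ∉ S

/-- `(v,t)` is an arc of the induced graph on `S`. -/
def IsArc (S : Finset Pt) (v : Pt) (t : ZMod 6) : Prop := v ∈ S ∧ v + e t ∈ S

/-- A region: a set of points outside `S`, closed under lattice adjacency in the complement. -/
structure IsRegion (S : Finset Pt) (R : Set Pt) : Prop where
  out : ∀ x ∈ R, x ∉ S
  closed : ∀ x ∈ R, ∀ t : ZMod 6, x + e t ∉ S → x + e t ∈ R

/-- `(v,t)` is a boundary arc of `R` (with `R` on its left). -/
def Bd (S : Finset Pt) (R : Set Pt) (v : Pt) (t : ZMod 6) : Prop :=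
  IsArc S v t ∧ v + e (t + 1) ∈ R ∧ v + e (t - 1) ∉ R

end TriLat
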