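import Pool.Agent.Helper83.Tri.Pack

set_option autoImplicit false
set_option linter.unusedSectionVars false

namespace TPack

open Finset

variable {V E : Type} [Fintype V] [DecidableEq V] [Fintype E] [DecidableEq E]
variable {src tgt : E → V} {T0 : V → ZMod 2} {W : Finset E}

/-- inner and outer ends of a cut edge -/
def inn (src tgt : E → V) (K : Finset V) (e : E) : V := if src e ∈ K then src e else tgt e
def out (src tgt : E → V) (K : Finset V) (e : E) : V := if src e ∈ K then tgt e else src e

lemma inn_out (K : Finset V) (e : E) :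
    dl (src e) + dl (tgt e) = dl (inn src tgt K e) + dl (out src tgt K e) := by
  unfold inn out
  split_ifs
  · rfl
  · rw [add_comm]

lemma Cut.inn_mem {K : Finset V} {e : E} (h : Cut src tgt K e) : inn src tgt K e ∈ K := by
  unfold inn
  rcases h with h | h
  · rw [if_pos h.1]; exact h.1
  · rw [if_neg h.1]; exact h.2

lemma Cut.out_not_mem {K : Finset V} {e : E} (h : Cut src tgt K e) : out src tgt K e ∉ K := by
  unfold out
  rcases h with h | h
  · rw [if_pos h.1]; exact h.2
  · rw [if_neg h.1]; exact h.1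

lemma Cut.ends {K : Finset V} {e : E} (h : Cut src tgt K e) :
    (inn src tgt K e = src e ∧ out src tgt K e = tgt e) ∨
    (inn src tgt K e = tgt e ∧ out src tgt K e = src e) := by
  unfold inn out
  rcases h with h | h
  · left; rw [if_pos h.1, if_pos h.1]; exact ⟨rfl, rfl⟩
  · right; rw [if_neg h.1, if_neg h.1]; exact ⟨rfl, rfl⟩

section min
variable (hc : ∀ x, ∃ F, IsJoin src tgt T0 F x) {c : V → ZMod 2}
  (hb : ∀ e, c (src e) + c (tgt e) = if e ∈ W then 1 else 0) {m : ℕ} {K : Finset V}
  (hm : ∀ x, m ≤ rho src tgt T0 W x) (hK : IsComp src tgt (rho src tgt T0 W) m K)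
include hc hb hm hK

lemma rho_K {x : V} (hx : x ∈ K) : rho src tgt T0 W x = m :=
  le_antisymm (hK.clo.le x hx) (hm x)

lemma inside_not_mem {e : E} (h1 : src e ∈ K) (h2 : tgt e ∈ K) : e ∉ W := by
  intro h
  have := rho_ne_of_mem hc hb h
  rw [rho_K hc hb hm hK h1, rho_K hc hb hm hK h2] at this
  omega

lemma cut_mem {e : E} (h : Cut src tgt K e) : e ∈ W := by
  by_contra hW
  have h1 := rho_eq_of_not_mem (W := W) hc hW
  rcases h with h | h
  · apply h.2
    apply hK.clo.st e h.1
    rw [← h1]; exact hK.clo.le _ h.1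
  · apply h.1
    apply hK.clo.ts e h.2
    rw [h1]; exact hK.clo.le _ h.2

lemma cut_out_rho {e : E} (h : Cut src tgt K e) :
    rho src tgt T0 W (out src tgt K e) = m + 1 := by
  have hW := cut_mem hc hb hm hK h
  have h1 := rho_ne_of_mem hc hb hW
  have h2 := rho_K hc hb hm hK h.inn_mem
  have h3 := hm (out src tgt K e)
  rcases h.ends with ⟨a, b⟩ | ⟨a, b⟩
  · rw [a] at h2; rw [b] at h3 ⊢; omega
  · rw [a] at h2; rw [b] at h3 ⊢; omega

lemma zero_path {b u : V} (hbK : b ∈ K) (hu : u ∈ K) :
    ∃ Z : E → ZMod 2, bdry src tgt Z = dl b + dl u ∧ ∀ e, Z e ≠ 0 → src e ∈ K ∧ tgt e ∈ K := by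
  classical
  let K' : Finset V := K.filter (fun y => ∃ Z : E → ZMod 2, bdry src tgt Z = dl b + dl y ∧
    ∀ e, Z e ≠ 0 → src e ∈ K ∧ tgt e ∈ K)
  have hstep : ∀ (y z : V) (e : E), y ∈ K' → z ∈ K → src e ∈ K → tgt e ∈ K →
      dl (src e) + dl (tgt e) = dl y + dl z → z ∈ K' := by
    intro y z e hy hz hs ht he
    obtain ⟨hyK, Z, hZ, hZ'⟩ := Finset.mem_filter.mp hy
    refine Finset.mem_filter.mpr ⟨hz, Z + sg e, ?_, ?_⟩
    · rw [bdry_add, hZ, bdry_sg, he]
      have : dl b + dl y + (dl y + dl z) = dl b + (dl y + dl y) + dl z := by ring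
      rw [this, fadd, add_zero]
    · intro e' he'
      by_cases h : e' = e
      · subst h; exact ⟨hs, ht⟩
      · apply hZ'
        rwa [Pi.add_apply, sg, if_neg h, add_zero] at he'
  have hK' : K' = K := by
    apply hK.min K' (Finset.filter_subset _ _)
    · refine ⟨b, Finset.mem_filter.mpr ⟨hbK, 0, ?_, ?_⟩⟩
      · rw [fadd]; funext v; simp [bdry]
      · intro e he; exact absurd rfl he
    · refine ⟨fun x hx => hK.clo.le x (Finset.filter_subset _ _ hx), ?_, ?_⟩
      · intro e he h
        have h1 := Finset.filter_subset _ _ he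
        exact hstep _ _ e he (hK.clo.st e h1 h) h1 (hK.clo.st e h1 h) rfl
      · intro e he h
        have h1 := Finset.filter_subset _ _ he
        exact hstep _ _ e he (hK.clo.ts e h1 h) (hK.clo.ts e h1 h) h1 (add_comm _ _)
  have : u ∈ K' := by rw [hK']; exact hu
  exact (Finset.mem_filter.mp this).2

lemma wt_add_zero_path {Z : E → ZMod 2} (hZ : ∀ e, Z e ≠ 0 → src e ∈ K ∧ tgt e ∈ K)
    (F : E → ZMod 2) : wt W (F + Z) = wt W F := by
  apply wt_add_of_disjoint
  intro e he
  by_contra h
  have := hZ e h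
  exact inside_not_mem hc hb hm hK this.1 this.2 he

/-- a minimum join at a bottom vertex avoids the cut -/
lemma min_join_avoids {b : V} (hbK : b ∈ K) {F : E → ZMod 2} (hF : IsJoin src tgt T0 F b)
    (hw : wt W F = m) {e : E} (he : Cut src tgt K e) : F e = 0 := by
  by_contra h
  obtain ⟨Z, hZ, hZ'⟩ := zero_path hc hb hm hK hbK he.inn_mem
  have h1 : IsJoin src tgt T0 (F + sg e + Z) (out src tgt K e) := by
    rw [add_assoc]
    apply join_move hF
    rw [bdry_add, bdry_sg, inn_out K e, hZ]
    have : dl (inn src tgt K e) + dl (out src tgt K e) + (dl b + dl (inn src tgt K e)) =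
      dl b + dl (out src tgt K e) + (dl (inn src tgt K e) + dl (inn src tgt K e)) := by ring
    rw [this, fadd, add_zero]
  have h2 := rho_le (W := W) h1
  rw [wt_add_zero_path hc hb hm hK hZ', cut_out_rho hc hb hm hK he] at h2
  have h3 := wt_sg_of_mem (cut_mem hc hb hm hK he) h
  omega

end min

/-- path extraction -/
lemma extract {K : Finset V} {C : E → ZMod 2} {b x : V} (hbK : b ∈ K)
    (hC : bdry src tgt C = dl b + dl x) (h2 : 2 ≤ cut src tgt K C) :
    ∃ e1 e2, e1 ≠ e2 ∧ C e1 ≠ 0 ∧ C e2 ≠ 0 ∧ Cut src tgt K e1 ∧ Cut src tgt K e2 ∧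
      ∃ P : E → ZMod 2, (∀ e, P e ≠ 0 → C e ≠ 0 ∧ src e ∉ K ∧ tgt e ∉ K) ∧
        bdry src tgt P = dl (out src tgt K e1) + dl (out src tgt K e2) := by
  classical
  -- the class of a vertex
  let A : V → Finset V := fun v => Finset.univ.filter (fun y => y ∉ K ∧ ∃ P : E → ZMod 2,
    (∀ e, P e ≠ 0 → C e ≠ 0 ∧ src e ∉ K ∧ tgt e ∉ K) ∧ bdry src tgt P = dl v + dl y)
  have hself : ∀ v, v ∉ K → v ∈ A v := by
    intro v hv
    refine Finset.mem_filter.mpr ⟨Finset.mem_univ _, hv, 0, ?_, ?_⟩
    · intro e he; exact absurd rfl he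
    · rw [fadd]; funext v; simp [bdry]
  have hstep : ∀ v y z e, y ∈ A v → z ∉ K → C e ≠ 0 → src e ∉ K → tgt e ∉ K →
      dl (src e) + dl (tgt e) = dl y + dl z → z ∈ A v := by
    intro v y z e hy hz hCe hs ht he
    obtain ⟨_, _, P, hP, hP'⟩ := Finset.mem_filter.mp hy
    refine Finset.mem_filter.mpr ⟨Finset.mem_univ _, hz, P + sg e, ?_, ?_⟩
    · intro e' he'
      by_cases h : e' = e
      · subst h; exact ⟨hCe, hs, ht⟩
      · apply hP
        rwa [Pi.add_apply, sg, if_neg h, add_zero] at he'
    · rw [bdry_add, hP', bdry_sg, he]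
      have : dl v + dl y + (dl y + dl z) = dl v + (dl y + dl y) + dl z := by ring
      rw [this, fadd, add_zero]
  have hAK : ∀ v y, y ∈ A v → y ∉ K := fun v y hy => (Finset.mem_filter.mp hy).2.1
  have hcutA : ∀ v e, C e ≠ 0 → Cut src tgt (A v) e →
      Cut src tgt K e ∧ out src tgt K e ∈ A v := by
    intro v e hCe hcut
    rcases hcut with ⟨h1, h2⟩ | ⟨h1, h2⟩
    · have h3 := hAK _ _ h1
      have h4 : tgt e ∈ K := by
        by_contra h4
        exact h2 (hstep v _ _ e h1 h4 hCe h3 h4 rfl)
      refine ⟨Or.inr ⟨h3, h4⟩, ?_⟩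
      unfold out; rw [if_neg h3]; exact h1
    · have h3 := hAK _ _ h2
      have h4 : src e ∈ K := by
        by_contra h4
        exact h1 (hstep v _ _ e h2 h4 hCe h4 h3 (add_comm _ _))
      refine ⟨Or.inl ⟨h4, h3⟩, ?_⟩
      unfold out; rw [if_pos h4]; exact h2
  -- if `x ∉ A (out e1)` there is a second edge
  have hsecond : ∀ e1, C e1 ≠ 0 → Cut src tgt K e1 → x ∉ A (out src tgt K e1) →
      ∃ e2, e1 ≠ e2 ∧ C e2 ≠ 0 ∧ Cut src tgt K e2 ∧ out src tgt K e2 ∈ A (out src tgt K e1) := by
    intro e1 hC1 hcut1 hx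
    have hpar := cut_parity (src := src) (tgt := tgt) (A (out src tgt K e1)) C
    have hz : ∑ v ∈ A (out src tgt K e1), bdry src tgt C v = 0 := by
      rw [hC]
      apply Finset.sum_eq_zero
      intro v hv
      have h1 : v ≠ b := by rintro rfl; exact hAK _ _ hv hbK
      have h2 : v ≠ x := by rintro rfl; exact hx hv
      simp [dl, h1, h2]
    rw [hz] at hpar
    have heven : Even (cut src tgt (A (out src tgt K e1)) C) := by
      rwa [← ZMod.natCast_eq_zero_iff_even]
    have hmem : e1 ∈ Finset.univ.filter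
        (fun e => C e ≠ 0 ∧ Cut src tgt (A (out src tgt K e1)) e) := by
      refine Finset.mem_filter.mpr ⟨Finset.mem_univ _, hC1, ?_⟩
      have h1 := hself _ hcut1.out_not_mem
      have h2 : inn src tgt K e1 ∉ A (out src tgt K e1) := fun h => hAK _ _ h hcut1.inn_mem
      rcases hcut1.ends with ⟨a, b⟩ | ⟨a, b⟩
      · right; rw [← a, ← b]; exact ⟨h2, h1⟩
      · left; rw [← a, ← b]; exact ⟨h1, h2⟩
    have hcard : 1 < (Finset.univ.filter
        (fun e => C e ≠ 0 ∧ Cut src tgt (A (out src tgt K e1)) e)).card := by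
      have hpos : 0 < (Finset.univ.filter
        (fun e => C e ≠ 0 ∧ Cut src tgt (A (out src tgt K e1)) e)).card :=
        Finset.card_pos.mpr ⟨e1, hmem⟩
      obtain ⟨k, hk⟩ := heven
      unfold cut at hk
      omega
    obtain ⟨e2, he2, hne⟩ := Finset.exists_mem_ne hcard e1
    have h3 := (Finset.mem_filter.mp he2).2
    have h4 := hcutA _ e2 h3.1 h3.2
    exact ⟨e2, hne.symm, h3.1, h4.1, h4.2⟩
  unfold cut at h2
  obtain ⟨e1, he1, e2, he2, hne⟩ := Finset.one_lt_card.mp (show 1 < _ from h2)
  obtain ⟨hC1, hcut1⟩ := (Finset.mem_filter.mp he1).2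
  obtain ⟨hC2, hcut2⟩ := (Finset.mem_filter.mp he2).2
  by_cases hx1 : x ∈ A (out src tgt K e1)
  · by_cases hx2 : x ∈ A (out src tgt K e2)
    · obtain ⟨_, _, P1, hP1, hP1'⟩ := Finset.mem_filter.mp hx1
      obtain ⟨_, _, P2, hP2, hP2'⟩ := Finset.mem_filter.mp hx2
      refine ⟨e1, e2, hne, hC1, hC2, hcut1, hcut2, P1 + P2, ?_, ?_⟩
      · intro e he
        by_cases h : P1 e = 0
        · apply hP2
          rwa [Pi.add_apply, h, zero_add] at he
        · exact hP1 e h
      · rw [bdry_add, hP1', hP2']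
        have : dl (out src tgt K e1) + dl x + (dl (out src tgt K e2) + dl x) =
          dl (out src tgt K e1) + dl (out src tgt K e2) + (dl x + dl x) := by ring
        rw [this, fadd, add_zero]
    · obtain ⟨e3, h3, hC3, hcut3, hmem⟩ := hsecond e2 hC2 hcut2 hx2
      obtain ⟨_, _, P, hP, hP'⟩ := Finset.mem_filter.mp hmem
      exact ⟨e2, e3, h3, hC2, hC3, hcut2, hcut3, P, hP, hP'⟩
  · obtain ⟨e3, h3, hC3, hcut3, hmem⟩ := hsecond e1 hC1 hcut1 hx1
    obtain ⟨_, _, P, hP, hP'⟩ := Finset.mem_filter.mp hmem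
    exact ⟨e1, e3, h3, hC1, hC3, hcut1, hcut3, P, hP, hP'⟩

/-- exchanging weights -/
lemma wt_swap (F G X : E → ZMod 2) (h : ∀ e, X e ≠ 0 → F e + G e ≠ 0) :
    wt W F + wt W G = wt W (F + X) + wt W (G + X) := by
  have key : ∀ f g x : ZMod 2, (x ≠ 0 → f + g ≠ 0) →
      (if f ≠ 0 then 1 else 0) + (if g ≠ 0 then 1 else 0) =
      (if f + x ≠ 0 then 1 else 0) + (if g + x ≠ 0 then 1 else 0 : ℕ) := by decide
  unfold wt
  simp only [Finset.card_filter, ← Finset.sum_add_distrib]
  exact Finset.sum_congr rfl (fun e _ => key _ _ _ (h e))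

section min2
variable (hc : ∀ x, ∃ F, IsJoin src tgt T0 F x) {c : V → ZMod 2}
  (hb : ∀ e, c (src e) + c (tgt e) = if e ∈ W then 1 else 0) {m : ℕ} {K : Finset V}
  (hm : ∀ x, m ≤ rho src tgt T0 W x) (hK : IsComp src tgt (rho src tgt T0 W) m K)
include hc hb hm hK

lemma parity_K : ∑ v ∈ K, T0 v = 1 := by
  obtain ⟨b, hbK⟩ := hK.ne
  obtain ⟨F, hF, hw⟩ := rho_exists (W := W) hc b
  rw [rho_K hc hb hm hK hbK] at hw
  have h1 : cut src tgt K F = 0 := by
    unfold cut
    rw [Finset.card_eq_zero]
    apply Finset.filter_eq_empty_iff.mpr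
    intro e _ h
    exact h.1 (min_join_avoids hc hb hm hK hbK hF hw h.2)
  have h2 := cut_parity (src := src) (tgt := tgt) K F
  rw [h1, hF] at h2
  simp only [Pi.add_apply, Finset.sum_add_distrib] at h2
  have h3 : ∑ v ∈ K, dl b v = 1 := by simp [dl, hbK]
  rw [h3] at h2
  have hz : ∀ z : ZMod 2, ((0 : ℕ) : ZMod 2) = z + 1 → z = 1 := by decide
  exact hz _ h2

lemma cut_parity' {x : V} {F : E → ZMod 2} (hF : IsJoin src tgt T0 F x) :
    ((cut src tgt K F : ℕ) : ZMod 2) = if x ∈ K then 0 else 1 := by
  rw [cut_parity, hF]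
  simp only [Pi.add_apply, Finset.sum_add_distrib]
  rw [parity_K hc hb hm hK]
  have h3 : ∑ v ∈ K, dl x v = if x ∈ K then 1 else 0 := by simp [dl]
  rw [h3]
  split_ifs
  · exact zadd 1
  · simp

/-- main inequality -/
lemma claim1 : ∀ n : ℕ, ∀ (x : V) (F : E → ZMod 2), IsJoin src tgt T0 F x →
    cut src tgt K F = n → n + rho src tgt T0 W x ≤ wt W F + (if x ∈ K then 0 else 1) := by
  intro n
  induction n using Nat.strong_induction_on with
  | _ n ih =>
  intro x F hF hn
  have hle := rho_le (W := W) hF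
  by_cases hn2 : n < 2
  · have hpar := cut_parity' hc hb hm hK hF
    rw [hn] at hpar
    interval_cases n
    · omega
    · split_ifs at hpar ⊢ with hx
      · exact absurd hpar (by decide)
      · omega
  · push Not at hn2
    obtain ⟨b, hbK⟩ := hK.ne
    obtain ⟨Fb, hFb, hwb⟩ := rho_exists (W := W) hc b
    rw [rho_K hc hb hm hK hbK] at hwb
    have hav : ∀ e, Cut src tgt K e → Fb e = 0 := fun e he =>
      min_join_avoids hc hb hm hK hbK hFb hwb he
    have hC : bdry src tgt (F + Fb) = dl b + dl x := by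
      rw [bdry_add, hF, hFb]
      have : T0 + dl x + (T0 + dl b) = (T0 + T0) + (dl b + dl x) := by ring
      rw [this, fadd, zero_add]
    have hcutC : cut src tgt K (F + Fb) = n := by
      rw [← hn]
      unfold cut
      congr 1
      apply Finset.filter_congr
      intro e _
      constructor
      · rintro ⟨h1, h2⟩
        rw [Pi.add_apply, hav e h2, add_zero] at h1
        exact ⟨h1, h2⟩
      · rintro ⟨h1, h2⟩
        rw [Pi.add_apply, hav e h2, add_zero]
        exact ⟨h1, h2⟩
    obtain ⟨e1, e2, hne, hC1, hC2, hcut1, hcut2, P, hP, hP'⟩ :=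
      extract (src := src) (tgt := tgt) hbK hC (by omega)
    obtain ⟨Z, hZ, hZ'⟩ := zero_path hc hb hm hK hcut1.inn_mem hcut2.inn_mem
    obtain ⟨Z1, hZ1, hZ1'⟩ := zero_path hc hb hm hK hbK hcut1.inn_mem
    have hPcut : ∀ e, Cut src tgt K e → P e = 0 := by
      intro e he
      by_contra h
      have := (hP e h).2
      rcases he with h1 | h1
      · exact this.1 h1.1
      · exact this.2 h1.2
    have hZcut : ∀ e, Cut src tgt K e → Z e = 0 := by
      intro e he
      by_contra h
      have := hZ' e h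
      rcases he with h1 | h1
      · exact h1.2 this.2
      · exact h1.1 this.1
    set X : E → ZMod 2 := sg e1 + P + sg e2 with hX
    have hF1 : F e1 ≠ 0 := by
      intro h; apply hC1; rw [Pi.add_apply, h, hav e1 hcut1, add_zero]
    have hF2 : F e2 ≠ 0 := by
      intro h; apply hC2; rw [Pi.add_apply, h, hav e2 hcut2, add_zero]
    -- weight of `Fb + X`
    have hjoin : IsJoin src tgt T0 (Fb + (sg e1 + P + Z1)) (out src tgt K e2) := by
      apply join_move hFb
      rw [bdry_add, bdry_add, bdry_sg, inn_out K e1, hP', hZ1]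
      have : dl (inn src tgt K e1) + dl (out src tgt K e1) +
          (dl (out src tgt K e1) + dl (out src tgt K e2)) + (dl b + dl (inn src tgt K e1)) =
          (dl (inn src tgt K e1) + dl (inn src tgt K e1)) +
          (dl (out src tgt K e1) + dl (out src tgt K e1)) + (dl b + dl (out src tgt K e2)) := by
        ring
      rw [this, fadd, fadd, zero_add, zero_add]
    have h1 := rho_le (W := W) hjoin
    rw [cut_out_rho hc hb hm hK hcut2,
      show Fb + (sg e1 + P + Z1) = Fb + (sg e1 + P) + Z1 by ring,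
      wt_add_zero_path hc hb hm hK hZ1'] at h1
    have h2 : wt W (Fb + X) = wt W (Fb + (sg e1 + P)) + 1 := by
      have hval : (Fb + X) e2 ≠ 0 := by
        have : (Fb + X) e2 = 1 := by
          rw [hX]
          simp only [Pi.add_apply]
          rw [hav e2 hcut2, hPcut e2 hcut2]
          unfold sg
          rw [if_neg (Ne.symm hne), if_pos rfl]
          ring
        rw [this]; exact one_ne_zero
      have h3 := wt_sg_of_mem (cut_mem hc hb hm hK hcut2) hval
      have h4 : Fb + X + sg e2 = Fb + (sg e1 + P) := by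
        rw [hX]
        have : Fb + (sg e1 + P + sg e2) + sg e2 = Fb + (sg e1 + P) + (sg e2 + sg e2) := by ring
        rw [this, fadd, add_zero]
      rw [h4] at h3
      exact h3.symm
    have h3 : wt W F + wt W Fb = wt W (F + X) + wt W (Fb + X) := by
      apply wt_swap
      intro e he
      by_cases he1 : e = e1
      · rw [he1]; exact hC1
      by_cases he2 : e = e2
      · rw [he2]; exact hC2
      rw [hX] at he
      simp only [Pi.add_apply] at he
      unfold sg at he
      rw [if_neg he1, if_neg he2, zero_add, add_zero] at he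
      exact (hP e he).1
    -- the new join
    have hF' : IsJoin src tgt T0 (F + (X + Z)) x := by
      apply join_move hF
      rw [fadd, hX, bdry_add, bdry_add, bdry_add, bdry_sg, bdry_sg, inn_out K e1, inn_out K e2,
        hP', hZ]
      have : dl (inn src tgt K e1) + dl (out src tgt K e1) +
          (dl (out src tgt K e1) + dl (out src tgt K e2)) +
          (dl (inn src tgt K e2) + dl (out src tgt K e2)) +
          (dl (inn src tgt K e1) + dl (inn src tgt K e2)) =
          (dl (inn src tgt K e1) + dl (inn src tgt K e1)) +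
          (dl (out src tgt K e1) + dl (out src tgt K e1)) +
          ((dl (inn src tgt K e2) + dl (inn src tgt K e2)) +
          (dl (out src tgt K e2) + dl (out src tgt K e2))) := by ring
      rw [this]
      simp only [fadd, add_zero]
    have hcut' : cut src tgt K (F + (X + Z)) + 2 = n := by
      have hset : Finset.univ.filter (fun e => F e ≠ 0 ∧ Cut src tgt K e) =
          insert e1 (insert e2 (Finset.univ.filter
            (fun e => (F + (X + Z)) e ≠ 0 ∧ Cut src tgt K e))) := by
        ext e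
        rw [Finset.mem_insert, Finset.mem_insert, Finset.mem_filter, Finset.mem_filter]
        by_cases he1 : e = e1
        · subst he1
          simp only [true_or, iff_true]
          exact ⟨Finset.mem_univ _, hF1, hcut1⟩
        · by_cases he2 : e = e2
          · subst he2
            simp only [true_or, or_true, iff_true]
            exact ⟨Finset.mem_univ _, hF2, hcut2⟩
          · simp only [he1, he2, false_or, Finset.mem_univ, true_and]
            constructor
            · rintro ⟨h5, h6⟩
              refine ⟨?_, h6⟩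
              rw [Pi.add_apply, Pi.add_apply, hX, hZcut e h6]
              simp only [Pi.add_apply]
              unfold sg
              rw [hPcut e h6, if_neg he1, if_neg he2]
              simpa using h5
            · rintro ⟨h5, h6⟩
              refine ⟨?_, h6⟩
              rw [Pi.add_apply, Pi.add_apply, hX, hZcut e h6] at h5
              simp only [Pi.add_apply] at h5
              unfold sg at h5
              rw [hPcut e h6, if_neg he1, if_neg he2] at h5
              simpa using h5
      have hv1 : (F + (X + Z)) e1 = 0 := by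
        rw [Pi.add_apply, Pi.add_apply, hX, hZcut e1 hcut1]
        simp only [Pi.add_apply]
        unfold sg
        rw [hPcut e1 hcut1, if_pos rfl, if_neg hne]
        have hz : ∀ z : ZMod 2, z ≠ 0 → z + (1 + 0 + 0 + 0) = 0 := by decide
        exact hz _ hF1
      have hv2 : (F + (X + Z)) e2 = 0 := by
        rw [Pi.add_apply, Pi.add_apply, hX, hZcut e2 hcut2]
        simp only [Pi.add_apply]
        unfold sg
        rw [hPcut e2 hcut2, if_pos rfl, if_neg (Ne.symm hne)]
        have hz : ∀ z : ZMod 2, z ≠ 0 → z + (0 + 0 + 1 + 0) = 0 := by decide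
        exact hz _ hF2
      rw [← hn]
      unfold cut
      rw [hset, Finset.card_insert_of_notMem, Finset.card_insert_of_notMem]
      · intro h
        exact (Finset.mem_filter.mp h).2.1 hv2
      · intro h
        rw [Finset.mem_insert] at h
        rcases h with h | h
        · exact hne h
        · exact (Finset.mem_filter.mp h).2.1 hv1
    have h5 := ih (n - 2) (by omega) x _ hF' (by omega)
    have h6 : wt W (F + (X + Z)) = wt W (F + X) := by
      rw [show F + (X + Z) = F + X + Z by ring, wt_add_zero_path hc hb hm hK hZ']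
    rw [h6] at h5
    omega

lemma claim_cut {x : V} {F : E → ZMod 2} (hF : IsJoin src tgt T0 F x)
    (hw : wt W F = rho src tgt T0 W x) : cut src tgt K F = if x ∈ K then 0 else 1 := by
  have h1 := claim1 hc hb hm hK _ x F hF rfl
  have h2 := cut_parity' hc hb hm hK hF
  rw [hw] at h1
  split_ifs at h1 h2 ⊢ with hx
  · omega
  · have h3 : cut src tgt K F ≤ 1 := by omega
    interval_cases h4 : cut src tgt K F
    · exact absurd h2 (by decide)
    · rfl

lemma wt_split (F : E → ZMod 2) :
    wt W F = wt (W.filter (fun e => ¬ Cut src tgt K e)) F + cut src tgt K F := by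
  unfold wt cut
  rw [Finset.filter_filter]
  have h1 : Finset.univ.filter (fun e => F e ≠ 0 ∧ Cut src tgt K e) =
      W.filter (fun e => F e ≠ 0 ∧ Cut src tgt K e) := by
    ext e
    rw [Finset.mem_filter, Finset.mem_filter]
    constructor
    · rintro ⟨_, h2, h3⟩
      exact ⟨cut_mem hc hb hm hK h3, h2, h3⟩
    · rintro ⟨_, h2, h3⟩
      exact ⟨Finset.mem_univ _, h2, h3⟩
  rw [h1, ← Finset.card_union_of_disjoint]
  · congr 1
    ext e
    by_cases hcut : Cut src tgt K e <;> simp [hcut]
  · rw [Finset.disjoint_filter]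
    intro e _ h2 h3
    exact h2.1 h3.2

lemma rho_new (x : V) :
    rho src tgt T0 (W.filter (fun e => ¬ Cut src tgt K e)) x + (if x ∈ K then 0 else 1) =
      rho src tgt T0 W x := by
  apply le_antisymm
  · obtain ⟨F, hF, hw⟩ := rho_exists (W := W) hc x
    have h1 := claim_cut hc hb hm hK hF hw
    have h2 := wt_split hc hb hm hK F
    have h3 := rho_le (W := W.filter (fun e => ¬ Cut src tgt K e)) hF
    rw [h1] at h2
    omega
  · obtain ⟨F, hF, hw⟩ := rho_exists (W := W.filter (fun e => ¬ Cut src tgt K e)) hc x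
    have h1 := claim1 hc hb hm hK _ x F hF rfl
    have h2 := wt_split hc hb hm hK F
    rw [hw] at h2
    omega

lemma bip_new (e : E) :
    (c (src e) + (if src e ∈ K then 1 else 0)) + (c (tgt e) + (if tgt e ∈ K then 1 else 0)) =
      if e ∈ W.filter (fun e => ¬ Cut src tgt K e) then 1 else 0 := by
  have h1 := hb e
  have h2 : c (src e) + (if src e ∈ K then 1 else 0) + (c (tgt e) + (if tgt e ∈ K then 1 else 0)) =
      (c (src e) + c (tgt e)) + ((if src e ∈ K then 1 else 0) + (if tgt e ∈ K then 1 else 0)) := by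
    ring
  rw [h2, h1]
  by_cases hcut : Cut src tgt K e
  · have h3 : e ∉ W.filter (fun e => ¬ Cut src tgt K e) := fun h => (Finset.mem_filter.mp h).2 hcut
    rw [if_neg h3, if_pos (cut_mem hc hb hm hK hcut)]
    rcases hcut with h | h
    · rw [if_pos h.1, if_neg h.2, add_zero]; exact zadd 1
    · rw [if_neg h.1, if_pos h.2, zero_add]; exact zadd 1
  · have h3 : e ∈ W.filter (fun e => ¬ Cut src tgt K e) ↔ e ∈ W := by
      rw [Finset.mem_filter]; exact ⟨fun h => h.1, fun h => ⟨h, hcut⟩⟩
    have h4 : (if src e ∈ K then (1 : ZMod 2) else 0) + (if tgt e ∈ K then 1 else 0) = 0 := by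
      unfold Cut at hcut
      by_cases a : src e ∈ K <;> by_cases b : tgt e ∈ K
      · rw [if_pos a, if_pos b]; exact zadd 1
      · exact absurd (Or.inl ⟨a, b⟩) hcut
      · exact absurd (Or.inr ⟨a, b⟩) hcut
      · rw [if_neg a, if_neg b]; rfl
    rw [h4, add_zero]
    by_cases h5 : e ∈ W
    · rw [if_pos h5, if_pos (h3.mpr h5)]
    · rw [if_neg h5, if_neg (fun h => h5 (h3.mp h))]

end min2

/-- **Sebő's theorem** (0/1-weights). -/
theorem sebo (hc : ∀ x, ∃ F, IsJoin src tgt T0 F x) : ∀ (n : ℕ) (W : Finset E), W.card = n →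
    ∀ c : V → ZMod 2, (∀ e, c (src e) + c (tgt e) = if e ∈ W then 1 else 0) →
    ∀ (i : ℕ) (D : Finset V), IsComp src tgt (rho src tgt T0 W) i D →
    ∀ (x : V) (F : E → ZMod 2), IsJoin src tgt T0 F x → wt W F = rho src tgt T0 W x →
      cut src tgt D F = if x ∈ D then 0 else 1 := by
  intro n
  induction n using Nat.strong_induction_on with
  | _ n ih =>
  intro W hn c hb i D hD x F hF hw
  obtain ⟨b, _, hbmin⟩ := Finset.exists_min_image Finset.univ (rho src tgt T0 W)
    ⟨x, Finset.mem_univ x⟩
  have hm : ∀ y, rho src tgt T0 W b ≤ rho src tgt T0 W y := fun y => hbmin y (Finset.mem_univ y)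
  obtain ⟨K, hK, hbK⟩ := exists_comp src tgt (rho src tgt T0 W) _ b le_rfl
  by_cases hDK : D = K
  · subst hDK
    exact claim_cut hc hb hm hK hF hw
  obtain ⟨y, hy⟩ := hD.ne
  have hmi : rho src tgt T0 W b ≤ i := (hm y).trans (hD.clo.le y hy)
  by_cases hcut : ∃ e, Cut src tgt K e
  · obtain ⟨e, he⟩ := hcut
    have heW := cut_mem hc hb hm hK he
    have hlt : (W.filter (fun e => ¬ Cut src tgt K e)).card < n := by
      rw [← hn]
      apply Finset.card_lt_card
      rw [Finset.ssubset_iff_of_subset (Finset.filter_subset _ _)]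
      exact ⟨e, heW, fun h => (Finset.mem_filter.mp h).2 he⟩
    have hnew := rho_new hc hb hm hK
    have hi1 : (D ∩ K).Nonempty → rho src tgt T0 W b + 1 ≤ i := by
      intro hne
      by_contra h
      have hi : i = rho src tgt T0 W b := by omega
      subst hi
      exact hDK (hD.eq hK hne)
    have hle : ∀ z ∈ D, rho src tgt T0 (W.filter (fun e => ¬ Cut src tgt K e)) z ≤ i - 1 := by
      intro z hz
      have h1 := hnew z
      have h2 := hD.clo.le z hz
      by_cases hzK : z ∈ K
      · have h3 := hi1 ⟨z, Finset.mem_inter.mpr ⟨hz, hzK⟩⟩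
        have h4 := rho_K hc hb hm hK hzK
        rw [if_pos hzK] at h1
        omega
      · rw [if_neg hzK] at h1
        omega
    have hi : 1 ≤ i := by
      by_cases hyK : y ∈ K
      · have := hi1 ⟨y, Finset.mem_inter.mpr ⟨hy, hyK⟩⟩
        omega
      · have h1 := hnew y
        have h2 := hD.clo.le y hy
        rw [if_neg hyK] at h1
        omega
    have hback : ∀ z, rho src tgt T0 (W.filter (fun e => ¬ Cut src tgt K e)) z ≤ i - 1 →
        rho src tgt T0 W z ≤ i := by
      intro z hz
      have h1 := hnew z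
      split_ifs at h1 <;> omega
    have hD' : IsComp src tgt (rho src tgt T0 (W.filter (fun e => ¬ Cut src tgt K e))) (i - 1) D := by
      refine ⟨hD.ne, ⟨hle, ?_, ?_⟩, ?_⟩
      · intro e he h; exact hD.clo.st e he (hback _ h)
      · intro e he h; exact hD.clo.ts e he (hback _ h)
      · intro D' hsub hne hclo
        apply hD.min D' hsub hne
        refine ⟨fun z hz => hD.clo.le z (hsub hz), ?_, ?_⟩
        · intro e he h
          exact hclo.st e he (hle _ (hD.clo.st e (hsub he) h))
        · intro e he h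
          exact hclo.ts e he (hle _ (hD.clo.ts e (hsub he) h))
    refine ih _ hlt (W.filter (fun e => ¬ Cut src tgt K e)) rfl
      (fun v => c v + (if v ∈ K then 1 else 0)) (bip_new hc hb hm hK) (i - 1) D hD' x F hF ?_
    have h1 := claim_cut hc hb hm hK hF hw
    have h2 := wt_split hc hb hm hK F
    have h3 := hnew x
    rw [h1] at h2
    omega
  · exfalso
    apply hDK
    have hall : ∀ z, z ∈ K := by
      intro z
      obtain ⟨G, hG⟩ := hc z
      have h1 := cut_parity' hc hb hm hK hG
      have h2 : cut src tgt K G = 0 := by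
        unfold cut
        rw [Finset.card_eq_zero]
        apply Finset.filter_eq_empty_iff.mpr
        intro e _ h
        exact hcut ⟨e, h.2⟩
      rw [h2] at h1
      by_contra hz
      rw [if_neg hz] at h1
      exact absurd h1 (by decide)
    have hsub : K ⊆ D := hD.subset hK hmi ⟨y, Finset.mem_inter.mpr ⟨hy, hall y⟩⟩
    exact Finset.Subset.antisymm (fun z _ => hall z) hsub

end TPack
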