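import Pool.Agent.Helper83.Tri.ThmA
import Pool.Agent.Helper83.Tri.Pack2

set_option autoImplicit false

/-!
# The dual graph of a triangle-free induced subgraph of the triangular lattice
-/

noncomputable section

namespace TriLat

open Finset TPack

def Box (M : ℤ) : Finset Pt := Finset.Icc (-M) M ×ˢ Finset.Icc (-M) M

/-- points of the box outside `S` -/
def NB (S : Finset Pt) (M : ℤ) : Finset Pt := Box M \ S
/-- arcs -/
def ARC (S : Finset Pt) : Finset (Pt × ZMod 6) :=
  (S ×ˢ (Finset.univ : Finset (ZMod 6))).filter (fun a => a.1 + e a.2 ∈ S)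
/-- zero edges -/
def ZED (S : Finset Pt) (M : ℤ) : Finset (Pt × ZMod 6) :=
  (NB S M ×ˢ (Finset.univ : Finset (ZMod 6))).filter (fun a => a.1 + e a.2 ∉ S)
def MID (S : Finset Pt) : Finset Pt := (ARC S).image (fun a => a.1 + (a.1 + e a.2))

abbrev VV (S : Finset Pt) (M : ℤ) : Type := Option {x // x ∈ NB S M} ⊕ {m // m ∈ MID S}
abbrev EE (S : Finset Pt) (M : ℤ) : Type := {a // a ∈ ARC S} ⊕ {a // a ∈ ZED S M}

/-- the face node of a point outside `S` -/
def ph (S : Finset Pt) (M : ℤ) (x : Pt) : VV S M :=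
  if h : x ∈ NB S M then Sum.inl (some ⟨x, h⟩) else Sum.inl none

/-- the node of the midpoint of an arc -/
def mi {S : Finset Pt} (M : ℤ) (a : {a // a ∈ ARC S}) : VV S M :=
  Sum.inr ⟨a.1.1 + (a.1.1 + e a.1.2), Finset.mem_image_of_mem _ a.2⟩

def sr {S : Finset Pt} {M : ℤ} : EE S M → VV S M
  | Sum.inl a => ph S M (a.1.1 + e (a.1.2 + 1))
  | Sum.inr a => ph S M a.1.1

def tg {S : Finset Pt} {M : ℤ} : EE S M → VV S M
  | Sum.inl a => mi M a
  | Sum.inr a => ph S M (a.1.1 + e a.1.2)

/-- weight one edges -/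
def WW (S : Finset Pt) (M : ℤ) : Finset (EE S M) := Finset.univ.filter (fun e => e.isLeft = true)

def cc {S : Finset Pt} {M : ℤ} : VV S M → ZMod 2
  | Sum.inl _ => 0
  | Sum.inr _ => 1

def root (S : Finset Pt) (M : ℤ) : VV S M := Sum.inl none

/-- all the half edges -/
def Fall {S : Finset Pt} {M : ℤ} : EE S M → ZMod 2
  | Sum.inl _ => 1
  | Sum.inr _ => 0

def TT0 (S : Finset Pt) (M : ℤ) : VV S M → ZMod 2 := bdry sr tg Fall + dl (root S M)

variable {S : Finset Pt} {M : ℤ}

lemma mem_ARC {a : Pt × ZMod 6} : a ∈ ARC S ↔ a.1 ∈ S ∧ a.1 + e a.2 ∈ S := by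
  unfold ARC
  rw [Finset.mem_filter, Finset.mem_product]
  simp

lemma mem_ZED {a : Pt × ZMod 6} : a ∈ ZED S M ↔ a.1 ∈ NB S M ∧ a.1 + e a.2 ∉ S := by
  unfold ZED
  rw [Finset.mem_filter, Finset.mem_product]
  simp

lemma mem_NB {x : Pt} : x ∈ NB S M ↔ x ∈ Box M ∧ x ∉ S := Finset.mem_sdiff

/-- the reversed arc -/
def rev (a : {a // a ∈ ARC S}) : {a // a ∈ ARC S} :=
  ⟨(a.1.1 + e a.1.2, a.1.2 + 3), by
    have := mem_ARC.mp a.2
    rw [mem_ARC]
    exact ⟨this.2, by rw [add_e_add_e3]; exact this.1⟩⟩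

lemma six0 : (6 : ZMod 6) = 0 := by decide

lemma rev_rev (a : {a // a ∈ ARC S}) : rev (rev a) = a := by
  apply Subtype.ext
  unfold rev
  simp only
  rw [add_e_add_e3, show a.1.2 + 3 + 3 = a.1.2 by linear_combination six0]

lemma rev_ne (a : {a // a ∈ ARC S}) : rev a ≠ a := by
  intro h
  have h1 : (rev a).1.2 = a.1.2 := by rw [h]
  have h2 : a.1.2 + 3 = a.1.2 := h1
  have : (3 : ZMod 6) = 0 := by linear_combination h2
  exact absurd this (by decide)

lemma mi_rev (a : {a // a ∈ ARC S}) : mi M (rev a) = mi M a := by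
  unfold mi
  congr 1
  apply Subtype.ext
  show (a.1.1 + e a.1.2) + ((a.1.1 + e a.1.2) + e (a.1.2 + 3)) = a.1.1 + (a.1.1 + e a.1.2)
  rw [add_e_add_e3, add_comm]

/-- right face of an arc is the left face of the reversed arc -/
lemma left_rev (a : {a // a ∈ ARC S}) :
    (rev a).1.1 + e ((rev a).1.2 + 1) = a.1.1 + e (a.1.2 - 1) := by
  show a.1.1 + e a.1.2 + e (a.1.2 + 3 + 1) = _
  rw [add_assoc, show a.1.2 + 3 + 1 = a.1.2 + 4 by ring, e_add_e4]

lemma left_not_mem (hS : TFree S) (a : {a // a ∈ ARC S}) : a.1.1 + e (a.1.2 + 1) ∉ S :=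
  hS _ (mem_ARC.mp a.2).1 _ (mem_ARC.mp a.2).2

lemma right_not_mem (hS : TFree S) (a : {a // a ∈ ARC S}) : a.1.1 + e (a.1.2 - 1) ∉ S := by
  rw [← left_rev]; exact left_not_mem hS _

lemma mid_inj (v p : Pt) : ∀ t s : ZMod 6, v + (v + e t) = p + (p + e s) →
    (p = v ∧ s = t) ∨ (p = v + e t ∧ s = t + 3) := by
  obtain ⟨a, b⟩ := v
  obtain ⟨x, y⟩ := p
  have e0 : e 0 = (1, 0) := rfl
  have e1 : e 1 = (0, 1) := rfl
  have e2 : e 2 = (-1, 1) := rfl
  have e3 : e 3 = (-1, 0) := rfl
  have e4 : e 4 = (0, -1) := rfl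
  have e5 : e 5 = (1, -1) := rfl
  intro t s h
  rcases zmod6_cases t with rfl | rfl | rfl | rfl | rfl | rfl <;>
  rcases zmod6_cases s with rfl | rfl | rfl | rfl | rfl | rfl <;>
  simp only [e0, e1, e2, e3, e4, e5, Prod.mk_add_mk, Prod.mk.injEq] at h <;>
  first
  | (exfalso; omega)
  | (left; refine ⟨Prod.ext (by show x = a; omega) (by show y = b; omega), rfl⟩)
  | (right; refine ⟨?_, by decide⟩; simp only [e0, e1, e2, e3, e4, e5, Prod.mk_add_mk, Prod.mk.injEq]; omega)

lemma mi_eq_iff (a b : {a // a ∈ ARC S}) : mi M b = mi M a ↔ b = a ∨ b = rev a := by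
  constructor
  · intro h
    unfold mi at h
    have h1 := Sum.inr.inj h
    have h2 : b.1.1 + (b.1.1 + e b.1.2) = a.1.1 + (a.1.1 + e a.1.2) := congrArg Subtype.val h1
    rcases mid_inj _ _ _ _ h2.symm with ⟨h3, h4⟩ | ⟨h3, h4⟩
    · left; apply Subtype.ext; exact Prod.ext h3 h4
    · right; apply Subtype.ext; exact Prod.ext h3 h4
  · rintro (rfl | rfl)
    · rfl
    · exact mi_rev a

/-! ### bipartiteness of the weights -/

lemma cc_edge (x : EE S M) : cc (sr x) + cc (tg x) = if x ∈ WW S M then 1 else 0 := by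
  have hph : ∀ y, cc (ph S M y) = 0 := by
    intro y; unfold ph; split_ifs <;> rfl
  rcases x with a | a
  · have h1 : (Sum.inl a : EE S M) ∈ WW S M := by unfold WW; simp
    rw [if_pos h1]
    show cc (ph S M _) + cc (mi M a) = 1
    rw [hph]; rfl
  · have h1 : (Sum.inr a : EE S M) ∉ WW S M := by unfold WW; simp
    rw [if_neg h1]
    show cc (ph S M _) + cc (ph S M _) = 0
    rw [hph, hph]; rfl

/-! ### connectivity -/

/-- reachable from the root -/
def Rch (y : VV S M) : Prop := ∃ P : EE S M → ZMod 2, bdry sr tg P = dl (root S M) + dl y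

lemma Rch.edge {y z : VV S M} (x : EE S M) (h : dl (sr x) + dl (tg x) = dl y + dl z)
    (hy : Rch y) : Rch z := by
  obtain ⟨P, hP⟩ := hy
  refine ⟨P + sg x, ?_⟩
  rw [bdry_add, hP, bdry_sg, h]
  have : dl (root S M) + dl y + (dl y + dl z) = dl (root S M) + (dl y + dl y) + dl z := by ring
  rw [this, fadd, add_zero]

lemma Rch.root : Rch (root S M) := ⟨0, by rw [fadd]; funext v; simp [bdry]⟩

/-- adjacent points outside `S` -/
lemma Rch.adj {x : Pt} {t : ZMod 6} (hx : x ∉ S) (hx' : x + e t ∉ S)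
    (h : Rch (ph S M (x + e t))) : Rch (ph S M x) := by
  by_cases h1 : x ∈ NB S M
  · have h2 : ((x, t) : Pt × ZMod 6) ∈ ZED S M := mem_ZED.mpr ⟨h1, hx'⟩
    exact Rch.edge (Sum.inr ⟨(x, t), h2⟩) (by
      show dl (ph S M x) + dl (ph S M (x + e t)) = _
      rw [add_comm]) h
  · by_cases h2 : x + e t ∈ NB S M
    · have h3 : ((x + e t, t + 3) : Pt × ZMod 6) ∈ ZED S M :=
        mem_ZED.mpr ⟨h2, by rw [add_e_add_e3]; exact hx⟩
      exact Rch.edge (Sum.inr ⟨(x + e t, t + 3), h3⟩) (by
        show dl (ph S M (x + e t)) + dl (ph S M (x + e t + e (t + 3))) = _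
        rw [add_e_add_e3]) h
    · have h4 : ph S M x = ph S M (x + e t) := by
        unfold ph; rw [dif_neg h1, dif_neg h2]
      rw [h4]; exact h

lemma Rch.across {v : Pt} {s : ZMod 6} (hv : v ∈ S) (hv' : v + e (s + 1) ∈ S)
    (h : Rch (ph S M (v + e s))) : Rch (ph S M (v + e (s + 2))) := by
  have ha : ((v, s + 1) : Pt × ZMod 6) ∈ ARC S := mem_ARC.mpr ⟨hv, hv'⟩
  set a : {a // a ∈ ARC S} := ⟨(v, s + 1), ha⟩ with ha'
  have h1 : Rch (mi M a) := by
    refine Rch.edge (Sum.inl (rev a)) ?_ h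
    show dl (ph S M ((rev a).1.1 + e ((rev a).1.2 + 1))) + dl (mi M (rev a)) = _
    rw [left_rev, mi_rev]
    show dl (ph S M (v + e (s + 1 - 1))) + _ = _
    rw [add_sub_cancel_right]
  refine Rch.edge (Sum.inl a) ?_ h1
  show dl (ph S M (v + e (s + 1 + 1))) + dl (mi M a) = _
  rw [add_comm, show s + 1 + 1 = s + 2 by ring]

lemma rch_point (hS : TFree S) : ∀ (n : ℕ) (x : Pt), x ∉ S → 3 * M - (2 * x.1 + x.2) ≤ n →
    Rch (ph S M x) := by
  intro n
  induction n using Nat.strong_induction_on with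
  | _ n ih =>
  intro x hx hn
  by_cases hxB : x ∈ NB S M
  swap
  · unfold ph; rw [dif_neg hxB]; exact Rch.root
  have hxb := (mem_NB.mp hxB).1
  unfold Box at hxb
  rw [Finset.mem_product, Finset.mem_Icc, Finset.mem_Icc] at hxb
  have e0 : e 0 = (1, 0) := rfl
  have e1 : e 1 = (0, 1) := rfl
  have e3 : e 3 = (-1, 0) := rfl
  by_cases hn0 : n = 0
  · -- then we are at the corner and the next point is outside the box
    subst hn0
    have h1 : x + e 0 ∉ NB S M := by
      rw [mem_NB]; unfold Box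
      rw [Finset.mem_product, Finset.mem_Icc, Finset.mem_Icc, e0]
      simp only [Prod.fst_add, Prod.snd_add]
      omega
    by_cases h2 : x + e 0 ∈ S
    · -- use direction 1 : also outside; go around `v = x + e 0`
      have hh : x + e 0 + e 3 = x := add_e_add_e3 x 0
      by_cases h3 : x + e 0 + e 1 ∈ S
      · have h4 : x + e 0 + e 2 ∉ S := hS _ h2 1 h3
        have h0 : x + e 0 + e 0 ∉ S := fun h => hS _ h2 0 h (by simpa using h3)
        have h5 : Rch (ph S M (x + e 0 + e 0)) := by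
          have : x + e 0 + e 0 ∉ NB S M := by
            rw [mem_NB]; unfold Box
            rw [Finset.mem_product, Finset.mem_Icc, Finset.mem_Icc, e0]
            simp only [Prod.fst_add, Prod.snd_add]
            omega
          unfold ph; rw [dif_neg this]; exact Rch.root
        have h6 : Rch (ph S M (x + e 0 + e 2)) := Rch.across (s := 0) h2 (by simpa using h3) h5
        have h7 : x + e 0 + e 2 + e 4 = x + e 0 + e 3 := by rw [add_assoc]; rfl
        have h8 := Rch.adj (S := S) (M := M) (x := x) (t := 1) hx (by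
          have : x + e 1 = x + e 0 + e 2 := by rw [add_assoc]; rfl
          rw [this]; exact h4) (by
          have : x + e 1 = x + e 0 + e 2 := by rw [add_assoc]; rfl
          rw [this]; exact h6)
        exact h8
      · have h5 : Rch (ph S M (x + e 0 + e 1)) := by
          have : x + e 0 + e 1 ∉ NB S M := by
            rw [mem_NB]; unfold Box
            rw [Finset.mem_product, Finset.mem_Icc, Finset.mem_Icc, e0, e1]
            simp only [Prod.fst_add, Prod.snd_add]
            omega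
          unfold ph; rw [dif_neg this]; exact Rch.root
        by_cases h4 : x + e 0 + e 2 ∈ S
        · have h6 := Rch.across (S := S) (M := M) (s := 1) h2 h4 h5
          rw [← hh]; exact h6
        · have q : x + e 1 = x + e 0 + e 2 := by rw [add_assoc]; rfl
          have q2 : x + e 0 + e 2 + e 0 = x + e 0 + e 1 := by
            rw [add_assoc (x + e 0)]; rfl
          have h6 : Rch (ph S M (x + e 0 + e 2)) :=
            Rch.adj (t := 0) h4 (by rw [q2]; exact h3) (by rw [q2]; exact h5)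
          exact Rch.adj (t := 1) hx (by rw [q]; exact h4) (by rw [q]; exact h6)
    · refine Rch.adj hx h2 ?_
      unfold ph; rw [dif_neg h1]; exact Rch.root
  · -- generic step
    have key : ∀ y : Pt, y ∉ S → 2 * x.1 + x.2 + 1 ≤ 2 * y.1 + y.2 → Rch (ph S M y) := by
      intro y hy hy'
      refine ih (n - 1) (by omega) y hy ?_
      have : ((n - 1 : ℕ) : ℤ) = n - 1 := by omega
      rw [this]; omega
    by_cases h2 : x + e 0 ∈ S
    · have hh : x + e 0 + e 3 = x := add_e_add_e3 x 0
      by_cases h3 : x + e 0 + e 1 ∈ S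
      · have h4 : x + e 0 + e 2 ∉ S := hS _ h2 1 h3
        have h0 : x + e 0 + e 0 ∉ S := fun h => hS _ h2 0 h (by simpa using h3)
        have h5 : Rch (ph S M (x + e 0 + e 0)) := by
          apply key _ h0
          rw [e0]
          simp only [Prod.fst_add, Prod.snd_add]
          omega
        have h6 : Rch (ph S M (x + e 0 + e 2)) := Rch.across (s := 0) h2 (by simpa using h3) h5
        have q : x + e 1 = x + e 0 + e 2 := by rw [add_assoc]; rfl
        exact Rch.adj (t := 1) hx (by rw [q]; exact h4) (by rw [q]; exact h6)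
      · have h5 : Rch (ph S M (x + e 0 + e 1)) := by
          apply key _ h3
          rw [e0, e1]
          simp only [Prod.fst_add, Prod.snd_add]
          omega
        by_cases h4 : x + e 0 + e 2 ∈ S
        · have h6 := Rch.across (S := S) (M := M) (s := 1) h2 h4 h5
          rw [← hh]; exact h6
        · have q : x + e 1 = x + e 0 + e 2 := by rw [add_assoc]; rfl
          have q2 : x + e 0 + e 2 + e 0 = x + e 0 + e 1 := by
            rw [add_assoc (x + e 0)]; rfl
          have h6 : Rch (ph S M (x + e 0 + e 2)) :=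
            Rch.adj (t := 0) h4 (by rw [q2]; exact h3) (by rw [q2]; exact h5)
          exact Rch.adj (t := 1) hx (by rw [q]; exact h4) (by rw [q]; exact h6)
    · refine Rch.adj hx h2 (key _ h2 ?_)
      rw [e0]
      simp only [Prod.fst_add, Prod.snd_add]
      omega

lemma rch_point' (hS : TFree S) {x : Pt} (hx : x ∉ S) : Rch (ph S M x) :=
  rch_point hS (3 * M - (2 * x.1 + x.2)).toNat x hx (Int.self_le_toNat _)

lemma rch_all (hS : TFree S) (y : VV S M) : Rch y := by
  rcases y with (_ | x) | m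
  · exact Rch.root
  · have h1 : ph S M x.1 = Sum.inl (some x) := by
      unfold ph; rw [dif_pos x.2]
    rw [← h1]
    exact rch_point' hS (mem_NB.mp x.2).2
  · obtain ⟨m, hm⟩ := m
    obtain ⟨a, ha, rfl⟩ := Finset.mem_image.mp hm
    exact Rch.edge (Sum.inl ⟨a, ha⟩) rfl (rch_point' hS (left_not_mem hS ⟨a, ha⟩))

lemma join_exists (hS : TFree S) (y : VV S M) :
    ∃ F, IsJoin sr tg (TT0 S M) F y := by
  obtain ⟨P, hP⟩ := rch_all hS y
  refine ⟨Fall + P, ?_⟩
  unfold IsJoin TT0
  rw [bdry_add, hP, add_assoc]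

end TriLat

end
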