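import Pool.Agent.Helper83.Tri.Glue

set_option autoImplicit false

noncomputable section

namespace TriLat

open Finset TPack

variable {S : Finset Pt} {M : ℤ}

/-! ### functions constant outside a box -/

lemma const_int {α : Type} (f : ℤ → α) (h : ∀ b, f b = f (b + 1)) (b b' : ℤ) : f b = f b' := by
  have key : ∀ b, f b = f 0 := by
    intro b
    induction b using Int.induction_on with
    | zero => rfl
    | succ n ih => rw [← ih]; exact (h _).symm
    | pred n ih =>
      rw [← ih]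
      have := h (-(n : ℤ) - 1)
      rw [this]; congr 1; ring
  rw [key b, key b']

lemma outside_const (hSB : S ⊆ Box M) (π : Pt → ZMod 2)
    (hπ : ∀ x t, x ∉ S → x + e t ∉ S → π x = π (x + e t)) (x : Pt) (hx : x ∉ Box M) :
    π x = π (0, M + 1) := by
  have hout : ∀ a b : ℤ, (a < -M ∨ M < a ∨ b < -M ∨ M < b) → ((a, b) : Pt) ∉ S := by
    intro a b h hS
    have := hSB hS
    unfold Box at this
    rw [Finset.mem_product, Finset.mem_Icc, Finset.mem_Icc] at this
    simp only at this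
    omega
  have e0 : e 0 = (1, 0) := rfl
  have e1 : e 1 = (0, 1) := rfl
  have hh : ∀ a b : ℤ, ((a, b) : Pt) ∉ S → ((a + 1, b) : Pt) ∉ S → π (a, b) = π (a + 1, b) := by
    intro a b h1 h2
    have := hπ (a, b) 0 h1
    rw [e0] at this
    simp only [Prod.mk_add_mk, add_zero] at this
    exact this h2
  have hv : ∀ a b : ℤ, ((a, b) : Pt) ∉ S → ((a, b + 1) : Pt) ∉ S → π (a, b) = π (a, b + 1) := by
    intro a b h1 h2
    have := hπ (a, b) 1 h1
    rw [e1] at this
    simp only [Prod.mk_add_mk, add_zero] at this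
    exact this h2
  -- top rows
  have top0 : ∀ n : ℕ, π (0, M + 1 + n) = π (0, M + 1) := by
    intro n
    induction n with
    | zero => simp
    | succ n ih =>
      rw [← ih]
      have := hv 0 (M + 1 + n) (hout _ _ (by omega)) (hout _ _ (by omega))
      rw [this]; congr 2; push_cast; ring
  have top : ∀ a b : ℤ, M < b → π (a, b) = π (0, M + 1) := by
    intro a b hb
    have h1 : π (a, b) = π (0, b) :=
      const_int (fun a => π (a, b)) (fun a => hh a b (hout _ _ (by omega)) (hout _ _ (by omega))) a 0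
    rw [h1]
    obtain ⟨n, hn⟩ : ∃ n : ℕ, b = M + 1 + n := ⟨(b - (M + 1)).toNat, by omega⟩
    rw [hn]; exact top0 n
  have right : ∀ a b : ℤ, M < a → π (a, b) = π (0, M + 1) := by
    intro a b ha
    have h1 : π (a, b) = π (a, M + 1) :=
      const_int (fun b => π (a, b)) (fun b => hv a b (hout _ _ (by omega)) (hout _ _ (by omega)))
        b (M + 1)
    rw [h1]; exact top a (M + 1) (by omega)
  have left : ∀ a b : ℤ, a < -M → π (a, b) = π (0, M + 1) := by
    intro a b ha
    have h1 : π (a, b) = π (a, M + 1) :=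
      const_int (fun b => π (a, b)) (fun b => hv a b (hout _ _ (by omega)) (hout _ _ (by omega)))
        b (M + 1)
    rw [h1]; exact top a (M + 1) (by omega)
  have bot : ∀ a b : ℤ, b < -M → π (a, b) = π (0, M + 1) := by
    intro a b hb
    have h1 : π (a, b) = π (M + 1, b) :=
      const_int (fun a => π (a, b)) (fun a => hh a b (hout _ _ (by omega)) (hout _ _ (by omega)))
        a (M + 1)
    rw [h1]; exact right (M + 1) b (by omega)
  obtain ⟨a, b⟩ := x
  unfold Box at hx
  rw [Finset.mem_product, Finset.mem_Icc, Finset.mem_Icc] at hx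
  simp only at hx
  by_cases h1 : a < -M
  · exact left a b h1
  by_cases h2 : M < a
  · exact right a b h2
  by_cases h3 : b < -M
  · exact bot a b h3
  · exact top a b (by omega)

/-! ### the join as a set of arcs -/

/-- arcs of the join -/
def Jar (hS : TFree S) (M : ℤ) (v : Pt) (t : ZMod 6) : Prop :=
  ∃ h : (v, t) ∈ ARC S, JJ hS M (Sum.inl ⟨(v, t), h⟩) ≠ 0

/-- complement of the join -/
def KK (hS : TFree S) (M : ℤ) : EE S M → ZMod 2 := JJ hS M + Fall

lemma bdry_zero (hS : TFree S) : bdry sr tg (KK hS M) = 0 := by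
  unfold KK
  rw [bdry_add, JJ_bdry, fadd]

/-- the orthogonality relation -/
lemma ortho (hS : TFree S) (g : VV S M → ZMod 2) :
    ∑ x : EE S M, KK hS M x * (g (sr x) + g (tg x)) = 0 := by
  rw [← sum_bdry, bdry_zero]
  simp

lemma JJ_rev (hS : TFree S) (a : {a // a ∈ ARC S}) :
    JJ hS M (Sum.inl (rev a)) = JJ hS M (Sum.inl a) := by
  classical
  have h1 := ortho (M := M) hS (fun v => if v = mi M a then 1 else 0)
  rw [sum_EE] at h1
  have h2 : ∑ x : {a // a ∈ ZED S M}, KK hS M (Sum.inr x) *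
      ((if sr (Sum.inr x : EE S M) = mi M a then (1 : ZMod 2) else 0) +
      (if tg (Sum.inr x : EE S M) = mi M a then 1 else 0)) = 0 := by
    apply Finset.sum_eq_zero
    intro x _
    rw [sr_inr, tg_inr]
    have h3 : ∀ y, ph S M y ≠ mi M a := by
      intro y; unfold ph mi; split_ifs <;> simp
    rw [if_neg (h3 _), if_neg (h3 _)]
    simp
  rw [h2, add_zero] at h1
  have h4 : ∀ x : {a // a ∈ ARC S}, KK hS M (Sum.inl x) *
      ((if sr (Sum.inl x : EE S M) = mi M a then (1 : ZMod 2) else 0) +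
      (if tg (Sum.inl x : EE S M) = mi M a then 1 else 0)) =
      (if x = a ∨ x = rev a then KK hS M (Sum.inl x) else 0) := by
    intro x
    rw [sr_inl, tg_inl]
    have h3 : ∀ y, ph S M y ≠ mi M a := by
      intro y; unfold ph mi; split_ifs <;> simp
    rw [if_neg (h3 _), zero_add]
    by_cases h5 : x = a ∨ x = rev a
    · rw [if_pos h5, if_pos ((mi_eq_iff a x).mpr h5), mul_one]
    · rw [if_neg h5, if_neg (fun h => h5 ((mi_eq_iff a x).mp h)), mul_zero]
  rw [Finset.sum_congr rfl (fun x _ => h4 x), ← Finset.sum_filter] at h1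
  have h5 : Finset.univ.filter (fun x : {a // a ∈ ARC S} => x = a ∨ x = rev a) = {a, rev a} := by
    ext x; simp
  rw [h5, Finset.sum_pair (Ne.symm (rev_ne a))] at h1
  have h6 : ∀ p q : ZMod 2, (p + 1) + (q + 1) = 0 → q = p := by decide
  exact h6 _ _ h1

lemma Jar_symm (hS : TFree S) (v : Pt) (t : ZMod 6) (h : IsArc S v t) :
    Jar hS M v t ↔ Jar hS M (v + e t) (t + 3) := by
  have ha : (v, t) ∈ ARC S := mem_ARC.mpr h
  have h1 := JJ_rev (M := M) hS ⟨(v, t), ha⟩
  unfold Jar
  constructor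
  · rintro ⟨_, h2⟩
    exact ⟨(rev ⟨(v, t), ha⟩).2, by
      show JJ hS M (Sum.inl (rev ⟨(v, t), ha⟩)) ≠ 0
      rw [h1]; exact h2⟩
  · rintro ⟨h3, h2⟩
    refine ⟨ha, ?_⟩
    rw [← h1]; exact h2

open Classical in
lemma Jar_ortho (hS : TFree S) (hSB : S ⊆ Box M) (π : Pt → ZMod 2)
    (hπ : ∀ x t, x ∉ S → x + e t ∉ S → π x = π (x + e t)) :
    ∑ v ∈ S, ∑ t : ZMod 6, (if IsArc S v t ∧ ¬ Jar hS M v t then π (v + e (t + 1)) else 0) = 0 := by
  let g : VV S M → ZMod 2 := fun y => match y with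
    | Sum.inl none => π (0, M + 1)
    | Sum.inl (some x) => π x.1
    | Sum.inr _ => 0
  have hg : ∀ x, x ∉ S → g (ph S M x) = π x := by
    intro x hx
    unfold ph
    split_ifs with h
    · rfl
    · have : x ∉ Box M := fun h2 => h (mem_NB.mpr ⟨h2, hx⟩)
      exact (outside_const hSB π hπ x this).symm
  have h1 := ortho (M := M) hS g
  rw [sum_EE] at h1
  have h2 : ∑ x : {a // a ∈ ZED S M}, KK hS M (Sum.inr x) *
      (g (sr (Sum.inr x : EE S M)) + g (tg (Sum.inr x : EE S M))) = 0 := by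
    apply Finset.sum_eq_zero
    intro x _
    have h3 := mem_ZED.mp x.2
    have h4 := (mem_NB.mp h3.1).2
    rw [sr_inr, tg_inr, hg _ h4, hg _ h3.2, hπ _ _ h4 h3.2, zadd, mul_zero]
  rw [h2, add_zero] at h1
  have h5 : ∑ v ∈ S, ∑ t : ZMod 6, (if IsArc S v t ∧ ¬ Jar hS M v t then π (v + e (t + 1)) else 0)
      = ∑ a ∈ ARC S, (if ¬ Jar hS M a.1 a.2 then π (a.1 + e (a.2 + 1)) else 0) := by
    rw [← Finset.sum_product' (s := S) (t := Finset.univ)
      (f := fun v t => if IsArc S v t ∧ ¬ Jar hS M v t then π (v + e (t + 1)) else 0)]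
    symm
    unfold ARC
    rw [Finset.sum_filter]
    refine Finset.sum_congr rfl (fun a ha => ?_)
    have hv : a.1 ∈ S := (Finset.mem_product.mp ha).1
    unfold IsArc
    by_cases p : a.1 + e a.2 ∈ S <;> simp [hv, p]
  rw [h5, ← Finset.sum_coe_sort (ARC S)
    (fun a => if ¬ Jar hS M a.1 a.2 then π (a.1 + e (a.2 + 1)) else 0)]
  refine Eq.trans ?_ h1
  refine Finset.sum_congr rfl (fun a _ => ?_)
  rw [sr_inl, tg_inl, hg _ (left_not_mem hS a)]
  have h6 : g (mi M a) = 0 := rfl
  rw [h6, add_zero]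
  have h7 : KK hS M (Sum.inl a) = JJ hS M (Sum.inl a) + 1 := rfl
  rw [h7]
  have h8 : Jar hS M a.1.1 a.1.2 ↔ JJ hS M (Sum.inl a) ≠ 0 :=
    ⟨fun ⟨_, h⟩ => h, fun h => ⟨a.2, h⟩⟩
  have hz : ∀ z : ZMod 2, z ≠ 0 → z + 1 = 0 := by decide
  by_cases p : JJ hS M (Sum.inl a) = 0
  · rw [if_pos (fun h => h8.mp h p), p]; ring
  · rw [if_neg (fun h => h (h8.mpr p)), hz _ p, zero_mul]

/-- the box -/
lemma exists_box (S : Finset Pt) : ∃ M : ℤ, S ⊆ Box M := by
  refine ⟨∑ v ∈ S, (|v.1| + |v.2|), ?_⟩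
  intro x hx
  have h1 : |x.1| + |x.2| ≤ ∑ v ∈ S, (|v.1| + |v.2|) :=
    Finset.single_le_sum (f := fun v : Pt => |v.1| + |v.2|)
      (fun v _ => add_nonneg (abs_nonneg _) (abs_nonneg _)) hx
  have h2 := abs_nonneg x.1
  have h3 := abs_nonneg x.2
  unfold Box
  rw [Finset.mem_product, Finset.mem_Icc, Finset.mem_Icc]
  refine ⟨⟨?_, ?_⟩, ⟨?_, ?_⟩⟩
  · have := neg_abs_le x.1; linarith
  · have := le_abs_self x.1; linarith
  · have := neg_abs_le x.2; linarith
  · have := le_abs_self x.2; linarith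

/-- Final assembly, with the bipartiteness statement as an input. -/
theorem final (hS : TFree S) (M : ℤ)
    (hbip : ∃ c : Pt → Bool, ∀ v t, IsArc S v t → ¬ Jar hS M v t → c v ≠ c (v + e t)) :
    ∃ I : Finset Pt, I ⊆ S ∧ (∀ p ∈ I, ∀ q ∈ I, ∀ t, q ≠ p + e t) ∧ 4 * S.card ≤ 9 * I.card := by
  classical
  obtain ⟨c, hc⟩ := hbip
  let A : Finset {a // a ∈ ARC S} :=
    (JA hS M).filter (fun a => a.1.2 = 0 ∨ a.1.2 = 1 ∨ a.1.2 = 2)
  let X : Finset Pt := A.image (fun a => a.1.1)
  have hXA : X.card ≤ A.card := Finset.card_image_le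
  -- 2 |A| ≤ |JA|
  have h2A : 2 * A.card ≤ (JA hS M).card := by
    have hinj : Function.Injective (rev (S := S)) := fun a b h => by
      rw [← rev_rev a, ← rev_rev b, h]
    have h1 : (A.image rev).card = A.card := Finset.card_image_of_injective _ hinj
    have hdisj : Disjoint A (A.image rev) := by
      rw [Finset.disjoint_left]
      intro a ha ha'
      obtain ⟨b, hb, rfl⟩ := Finset.mem_image.mp ha'
      have h2 := (Finset.mem_filter.mp ha).2
      have h3 := (Finset.mem_filter.mp hb).2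
      have h4 : (rev b).1.2 = b.1.2 + 3 := rfl
      rw [h4] at h2
      have h5 : ∀ t : ZMod 6, (t + 3 = 0 ∨ t + 3 = 1 ∨ t + 3 = 2) → (t = 0 ∨ t = 1 ∨ t = 2) →
        False := by decide
      exact h5 _ h2 h3
    have hsub : A ∪ A.image rev ⊆ JA hS M := by
      intro a ha
      rcases Finset.mem_union.mp ha with h | h
      · exact (Finset.mem_filter.mp h).1
      · obtain ⟨b, hb, rfl⟩ := Finset.mem_image.mp h
        have h3 := (Finset.mem_filter.mp (Finset.mem_filter.mp hb).1).2
        refine Finset.mem_filter.mpr ⟨Finset.mem_univ _, ?_⟩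
        rw [JJ_rev]; exact h3
    have h2 := Finset.card_le_card hsub
    rw [Finset.card_union_of_disjoint hdisj, h1] at h2
    omega
  have hJ := card_JA' hS M
  -- the two classes
  let S1 : Finset Pt := (S \ X).filter (fun v => c v = true)
  let S2 : Finset Pt := (S \ X).filter (fun v => ¬ c v = true)
  have hsum : S1.card + S2.card = (S \ X).card :=
    Finset.card_filter_add_card_filter_not (s := S \ X) (fun v => c v = true)
  have hSX : S.card ≤ (S \ X).card + X.card := by
    have := Finset.card_le_card_sdiff_add_card (s := S) (t := X)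
    exact this
  have hindep : ∀ p ∈ S \ X, ∀ q ∈ S \ X, c p = c q → ∀ t, q ≠ p + e t := by
    intro p hp q hq hcpq t hqt
    obtain ⟨hpS, hpX⟩ := Finset.mem_sdiff.mp hp
    obtain ⟨hqS, hqX⟩ := Finset.mem_sdiff.mp hq
    subst hqt
    have harc : IsArc S p t := ⟨hpS, hqS⟩
    have hJar : Jar hS M p t := by
      by_contra h
      exact hc p t harc h hcpq
    have hcases : ∀ t : ZMod 6, (t = 0 ∨ t = 1 ∨ t = 2) ∨ (t + 3 = 0 ∨ t + 3 = 1 ∨ t + 3 = 2) := by
      decide
    rcases hcases t with h | h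
    · apply hpX
      obtain ⟨ha, hne⟩ := hJar
      exact Finset.mem_image.mpr ⟨⟨(p, t), ha⟩, Finset.mem_filter.mpr
        ⟨Finset.mem_filter.mpr ⟨Finset.mem_univ _, hne⟩, h⟩, rfl⟩
    · apply hqX
      obtain ⟨ha, hne⟩ := (Jar_symm hS p t harc).mp hJar
      exact Finset.mem_image.mpr ⟨⟨(p + e t, t + 3), ha⟩, Finset.mem_filter.mpr
        ⟨Finset.mem_filter.mpr ⟨Finset.mem_univ _, hne⟩, h⟩, rfl⟩
  by_cases hle : S2.card ≤ S1.card
  · refine ⟨S1, ?_, ?_, ?_⟩
    · exact (Finset.filter_subset _ _).trans Finset.sdiff_subset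
    · intro p hp q hq t
      have h1 := Finset.mem_filter.mp hp
      have h2 := Finset.mem_filter.mp hq
      exact hindep p h1.1 q h2.1 (h1.2.trans h2.2.symm) t
    · omega
  · refine ⟨S2, ?_, ?_, ?_⟩
    · exact (Finset.filter_subset _ _).trans Finset.sdiff_subset
    · intro p hp q hq t
      have h1 := Finset.mem_filter.mp hp
      have h2 := Finset.mem_filter.mp hq
      refine hindep p h1.1 q h2.1 ?_ t
      have h3 : c p = false := by simpa using h1.2
      have h4 : c q = false := by simpa using h2.2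
      rw [h3, h4]
    · omega

end TriLat

end
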