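import Pool.Agent.Helper83.Tri.Dual

set_option autoImplicit false

noncomputable section

namespace TriLat

open Finset TPack

variable {S : Finset Pt} {M : ℤ}

/-- the distance function of the dual graph -/
def rr (S : Finset Pt) (M : ℤ) : VV S M → ℕ := rho sr tg (TT0 S M) (WW S M)

lemma sr_inl (a : {a // a ∈ ARC S}) :
    sr (Sum.inl a : EE S M) = ph S M (a.1.1 + e (a.1.2 + 1)) := rfl
lemma tg_inl (a : {a // a ∈ ARC S}) : tg (Sum.inl a : EE S M) = mi M a := rfl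
lemma sr_inr (a : {a // a ∈ ZED S M}) : sr (Sum.inr a : EE S M) = ph S M a.1.1 := rfl
lemma tg_inr (a : {a // a ∈ ZED S M}) :
    tg (Sum.inr a : EE S M) = ph S M (a.1.1 + e a.1.2) := rfl

abbrev IC (S : Finset Pt) (M : ℤ) (i : ℕ) (D : Finset (VV S M)) : Prop :=
  IsComp sr tg (rr S M) i D

def kap (S : Finset Pt) (M : ℤ) : ZMod 2 := ∑ v, cc v * TT0 S M v

lemma rr_parity (hS : TFree S) (y : VV S M) : ((rr S M y : ℕ) : ZMod 2) = kap S M + cc y := by
  have h := rho_parity (src := sr) (tgt := tg) (T0 := TT0 S M) (W := WW S M)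
    (join_exists hS) (c := cc) cc_edge y
  unfold rr kap
  exact h

lemma cc_ph (x : Pt) : cc (ph S M x) = 0 := by
  unfold ph; split_ifs <;> rfl

lemma cc_mi (a : {a // a ∈ ARC S}) : cc (mi M a) = 1 := rfl

lemma mem_WW (a : {a // a ∈ ARC S}) : (Sum.inl a : EE S M) ∈ WW S M := by unfold WW; simp

lemma not_mem_WW (a : {a // a ∈ ZED S M}) : (Sum.inr a : EE S M) ∉ WW S M := by unfold WW; simp

/-- heights of the two ends of a half edge differ by one -/
lemma rr_half (hS : TFree S) (a : {a // a ∈ ARC S}) :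
    rr S M (ph S M (a.1.1 + e (a.1.2 + 1))) = rr S M (mi M a) + 1 ∨
    rr S M (mi M a) = rr S M (ph S M (a.1.1 + e (a.1.2 + 1))) + 1 := by
  have h := rho_ne_of_mem (src := sr) (tgt := tg) (T0 := TT0 S M) (W := WW S M)
    (join_exists hS) (c := cc) cc_edge (mem_WW (M := M) a)
  rw [sr_inl, tg_inl] at h
  unfold rr
  exact h

/-- adjacent points outside `S` are in the same components -/
lemma IC.adj (hS : TFree S) {i : ℕ} {D : Finset (VV S M)} (hD : IC S M i D) {x : Pt} {t : ZMod 6}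
    (hx : x ∉ S) (hx' : x + e t ∉ S) : ph S M x ∈ D ↔ ph S M (x + e t) ∈ D := by
  have gen : ∀ (y : Pt) (s : ZMod 6), y ∈ NB S M → y + e s ∉ S →
      (ph S M y ∈ D ↔ ph S M (y + e s) ∈ D) := by
    intro y s hy hs
    have hz : ((y, s) : Pt × ZMod 6) ∈ ZED S M := mem_ZED.mpr ⟨hy, hs⟩
    have heq : rr S M (ph S M y) = rr S M (ph S M (y + e s)) := by
      have h := rho_eq_of_not_mem (src := sr) (tgt := tg) (T0 := TT0 S M) (W := WW S M)
        (join_exists hS) (not_mem_WW ⟨(y, s), hz⟩)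
      rw [sr_inr, tg_inr] at h
      unfold rr
      exact h
    have h1 := hD.clo.st (Sum.inr ⟨(y, s), hz⟩)
    have h2 := hD.clo.ts (Sum.inr ⟨(y, s), hz⟩)
    rw [sr_inr, tg_inr] at h1 h2
    constructor
    · intro h
      exact h1 h (by rw [← heq]; exact hD.clo.le _ h)
    · intro h
      exact h2 h (by rw [heq]; exact hD.clo.le _ h)
  by_cases h1 : x ∈ NB S M
  · exact gen x t h1 hx'
  · by_cases h2 : x + e t ∈ NB S M
    · have := gen (x + e t) (t + 3) h2 (by rw [add_e_add_e3]; exact hx)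
      rw [add_e_add_e3] at this
      exact this.symm
    · have h4 : ph S M x = ph S M (x + e t) := by
        unfold ph; rw [dif_neg h1, dif_neg h2]
      rw [h4]

/-- The region of a component. -/
def Reg (S : Finset Pt) (M : ℤ) (i : ℕ) (D : Finset (VV S M)) : Set Pt :=
  {x | x ∉ S ∧ (ph S M x ∈ D ↔ ((i : ℕ) : ZMod 2) = kap S M)}

lemma mem_Reg {i : ℕ} {D : Finset (VV S M)} {x : Pt} :
    x ∈ Reg S M i D ↔ x ∉ S ∧ (ph S M x ∈ D ↔ ((i : ℕ) : ZMod 2) = kap S M) := Iff.rfl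

lemma Reg.isRegion (hS : TFree S) {i : ℕ} {D : Finset (VV S M)} (hD : IC S M i D) :
    IsRegion S (Reg S M i D) where
  out x hx := hx.1
  closed x hx t ht := by
    rw [mem_Reg] at hx ⊢
    refine ⟨ht, ?_⟩
    rw [← IC.adj hS hD hx.1 ht]
    exact hx.2

lemma Bd.arc {R : Set Pt} {v : Pt} {t : ZMod 6} (h : Bd S R v t) : (v, t) ∈ ARC S :=
  mem_ARC.mpr h.1

/-- inner type: structure of a boundary arc -/
lemma bd_inner (hS : TFree S) {i : ℕ} {D : Finset (VV S M)} (hD : IC S M i D)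
    (hi : ((i : ℕ) : ZMod 2) = kap S M) (a : {a // a ∈ ARC S})
    (h : Bd S (Reg S M i D) a.1.1 a.1.2) :
    ph S M (a.1.1 + e (a.1.2 + 1)) ∈ D ∧ ph S M (a.1.1 + e (a.1.2 - 1)) ∉ D ∧ mi M a ∉ D ∧
    rr S M (ph S M (a.1.1 + e (a.1.2 + 1))) = i ∧ rr S M (mi M a) = i + 1 := by
  obtain ⟨_, h1, h2⟩ := h
  rw [mem_Reg] at h1 h2
  have hl : ph S M (a.1.1 + e (a.1.2 + 1)) ∈ D := h1.2.mpr hi
  have hr : ph S M (a.1.1 + e (a.1.2 - 1)) ∉ D := fun h3 =>
    h2 ⟨right_not_mem hS a, ⟨fun _ => hi, fun _ => h3⟩⟩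
  have hm : mi M a ∉ D := by
    intro hm
    have e1 := rr_half (M := M) hS (rev a)
    rw [left_rev, mi_rev] at e1
    have e2 : ¬ rr S M (ph S M (a.1.1 + e (a.1.2 - 1))) ≤ i := by
      intro h3
      apply hr
      have h4 := hD.clo.ts (Sum.inl (rev a))
      rw [sr_inl, tg_inl, left_rev, mi_rev] at h4
      exact h4 hm h3
    have e3 := hD.clo.le _ hm
    have e4 : rr S M (mi M a) = i := by omega
    have e5 := rr_parity hS (mi M a)
    rw [e4, cc_mi, hi] at e5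
    have hz : ∀ z : ZMod 2, z = z + 1 → False := by decide
    exact hz _ e5
  have e1 := rr_half (M := M) hS a
  have e2 := hD.clo.le _ hl
  have e3 : ¬ rr S M (mi M a) ≤ i := fun h3 => hm (by
    have h4 := hD.clo.st (Sum.inl a)
    rw [sr_inl, tg_inl] at h4
    exact h4 hl h3)
  refine ⟨hl, hr, hm, ?_, ?_⟩ <;> omega

/-- outer type: structure of a boundary arc -/
lemma bd_outer (hS : TFree S) {i : ℕ} {D : Finset (VV S M)} (hD : IC S M i D)
    (hi : ((i : ℕ) : ZMod 2) ≠ kap S M) (a : {a // a ∈ ARC S})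
    (h : Bd S (Reg S M i D) a.1.1 a.1.2) :
    ph S M (a.1.1 + e (a.1.2 + 1)) ∉ D ∧ ph S M (a.1.1 + e (a.1.2 - 1)) ∈ D ∧ mi M a ∈ D ∧
    rr S M (ph S M (a.1.1 + e (a.1.2 + 1))) = i + 1 ∧ rr S M (mi M a) = i := by
  obtain ⟨_, h1, h2⟩ := h
  rw [mem_Reg] at h1 h2
  have hl : ph S M (a.1.1 + e (a.1.2 + 1)) ∉ D := fun h3 => hi (h1.2.mp h3)
  have hr : ph S M (a.1.1 + e (a.1.2 - 1)) ∈ D := by
    by_contra h3
    exact h2 ⟨right_not_mem hS a, ⟨fun h4 => absurd h4 h3, fun h4 => absurd h4 hi⟩⟩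
  have hm : mi M a ∈ D := by
    by_contra hm
    have e1 := rr_half (M := M) hS (rev a)
    rw [left_rev, mi_rev] at e1
    have e2 : ¬ rr S M (mi M a) ≤ i := by
      intro h3
      apply hm
      have h4 := hD.clo.st (Sum.inl (rev a))
      rw [sr_inl, tg_inl, left_rev, mi_rev] at h4
      exact h4 hr h3
    have e3 := hD.clo.le _ hr
    have e4 : rr S M (ph S M (a.1.1 + e (a.1.2 - 1))) = i := by omega
    have e5 := rr_parity hS (ph S M (a.1.1 + e (a.1.2 - 1)))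
    rw [e4, cc_ph, add_zero] at e5
    exact hi e5
  have e1 := rr_half (M := M) hS a
  have e2 := hD.clo.le _ hm
  have e3 : ¬ rr S M (ph S M (a.1.1 + e (a.1.2 + 1))) ≤ i := fun h3 => hl (by
    have h4 := hD.clo.ts (Sum.inl a)
    rw [sr_inl, tg_inl] at h4
    exact h4 hm h3)
  refine ⟨hl, hr, hm, ?_, ?_⟩ <;> omega

/-- uniqueness of the component cut by an edge of weight one -/
lemma comp_unique (hS : TFree S) {i j : ℕ} {D D' : Finset (VV S M)} (hD : IC S M i D)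
    (hD' : IC S M j D') (x : EE S M) (h : Cut sr tg D x) (h' : Cut sr tg D' x) :
    D = D' ∧ i = j := by
  have hW := rho_edge (W := WW S M) (join_exists (M := M) hS) x
  have h1 : (if x ∈ WW S M then 1 else 0) ≤ 1 := by split_ifs <;> omega
  have c1 : rr S M (sr x) = i ∧ rr S M (tg x) = i + 1 ∧ sr x ∈ D ∨
      rr S M (tg x) = i ∧ rr S M (sr x) = i + 1 ∧ tg x ∈ D := by
    rcases h with ⟨a, b⟩ | ⟨a, b⟩
    · left
      have e1 := hD.clo.le _ a
      have e2 : ¬ rr S M (tg x) ≤ i := fun h => b (hD.clo.st x a h)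
      unfold rr at *
      refine ⟨?_, ?_, a⟩ <;> omega
    · right
      have e1 := hD.clo.le _ b
      have e2 : ¬ rr S M (sr x) ≤ i := fun h => a (hD.clo.ts x b h)
      unfold rr at *
      refine ⟨?_, ?_, b⟩ <;> omega
  have c2 : rr S M (sr x) = j ∧ rr S M (tg x) = j + 1 ∧ sr x ∈ D' ∨
      rr S M (tg x) = j ∧ rr S M (sr x) = j + 1 ∧ tg x ∈ D' := by
    rcases h' with ⟨a, b⟩ | ⟨a, b⟩
    · left
      have e1 := hD'.clo.le _ a
      have e2 : ¬ rr S M (tg x) ≤ j := fun h => b (hD'.clo.st x a h)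
      unfold rr at *
      refine ⟨?_, ?_, a⟩ <;> omega
    · right
      have e1 := hD'.clo.le _ b
      have e2 : ¬ rr S M (sr x) ≤ j := fun h => a (hD'.clo.ts x b h)
      unfold rr at *
      refine ⟨?_, ?_, b⟩ <;> omega
  rcases c1 with ⟨a1, a2, a3⟩ | ⟨a1, a2, a3⟩ <;> rcases c2 with ⟨b1, b2, b3⟩ | ⟨b1, b2, b3⟩
  · have hij : i = j := by omega
    subst hij
    exact ⟨hD.eq hD' ⟨sr x, Finset.mem_inter.mpr ⟨a3, b3⟩⟩, rfl⟩
  · omega
  · omega
  · have hij : i = j := by omega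
    subst hij
    exact ⟨hD.eq hD' ⟨tg x, Finset.mem_inter.mpr ⟨a3, b3⟩⟩, rfl⟩

lemma bd_cut (hS : TFree S) {i : ℕ} {D : Finset (VV S M)} (hD : IC S M i D)
    (a : {a // a ∈ ARC S}) (h : Bd S (Reg S M i D) a.1.1 a.1.2) :
    Cut sr tg D (Sum.inl a : EE S M) := by
  by_cases hi : ((i : ℕ) : ZMod 2) = kap S M
  · obtain ⟨h1, _, h3, _⟩ := bd_inner hS hD hi a h
    exact Or.inl ⟨h1, h3⟩
  · obtain ⟨h1, _, h3, _⟩ := bd_outer hS hD hi a h
    exact Or.inr ⟨h1, h3⟩

/-- P2 for component regions. -/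
lemma reg_disjoint (hS : TFree S) {i j : ℕ} {D D' : Finset (VV S M)} (hD : IC S M i D)
    (hD' : IC S M j D') (a : {a // a ∈ ARC S}) (h : Bd S (Reg S M i D) a.1.1 a.1.2)
    (h' : Bd S (Reg S M j D') (rev a).1.1 (rev a).1.2) :
    ∀ x, x ∈ Reg S M i D → x ∉ Reg S M j D' := by
  have rr' : (rev a).1.1 + e ((rev a).1.2 - 1) = a.1.1 + e (a.1.2 + 1) := by
    have := left_rev (rev a)
    rw [rev_rev] at this
    exact this.symm
  by_cases hi : ((i : ℕ) : ZMod 2) = kap S M <;> by_cases hj : ((j : ℕ) : ZMod 2) = kap S M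
  · -- both inner
    obtain ⟨h1, h2, h3, h4, h5⟩ := bd_inner hS hD hi a h
    obtain ⟨k1, k2, k3, k4, k5⟩ := bd_inner hS hD' hj (rev a) h'
    rw [mi_rev] at k5
    rw [rr'] at k2
    have hij : i = j := by omega
    subst hij
    intro x hx hx'
    rw [mem_Reg] at hx hx'
    have := hD.eq hD' ⟨_, Finset.mem_inter.mpr ⟨hx.2.mpr hi, hx'.2.mpr hi⟩⟩
    subst this
    exact k2 h1
  · -- D inner, D' outer
    obtain ⟨h1, h2, h3, h4, h5⟩ := bd_inner hS hD hi a h
    obtain ⟨k1, k2, k3, k4, k5⟩ := bd_outer hS hD' hj (rev a) h'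
    rw [mi_rev] at k5
    rw [rr'] at k2
    have hij : i ≤ j := by omega
    have hsub : D ⊆ D' := hD'.subset hD hij ⟨_, Finset.mem_inter.mpr ⟨k2, h1⟩⟩
    intro x hx hx'
    rw [mem_Reg] at hx hx'
    exact hj (hx'.2.mp (hsub (hx.2.mpr hi)))
  · -- D outer, D' inner
    obtain ⟨h1, h2, h3, h4, h5⟩ := bd_outer hS hD hi a h
    obtain ⟨k1, k2, k3, k4, k5⟩ := bd_inner hS hD' hj (rev a) h'
    rw [left_rev] at k1
    rw [mi_rev] at k5
    have hij : j ≤ i := by omega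
    have hsub : D' ⊆ D := hD.subset hD' hij ⟨_, Finset.mem_inter.mpr ⟨h2, k1⟩⟩
    intro x hx hx'
    rw [mem_Reg] at hx hx'
    exact hi (hx.2.mp (hsub (hx'.2.mpr hj)))
  · -- both outer
    obtain ⟨h1, h2, h3, h4, h5⟩ := bd_outer hS hD hi a h
    obtain ⟨k1, k2, k3, k4, k5⟩ := bd_outer hS hD' hj (rev a) h'
    rw [left_rev] at k1
    rw [mi_rev] at k3 k5
    have hij : i = j := by omega
    subst hij
    have := hD.eq hD' ⟨_, Finset.mem_inter.mpr ⟨h3, k3⟩⟩
    subst this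
    exact absurd h2 k1

/-! ### sums over arcs -/

/-- a sum of a reversal invariant function over arcs vanishes mod 2 -/
lemma sum_arc_symm (f : {a // a ∈ ARC S} → ZMod 2) (hf : ∀ a, f (rev a) = f a) :
    ∑ a, f a = 0 := by
  apply Finset.sum_involution (fun a _ => rev a)
  · intro a _; rw [hf]; exact zadd _
  · intro a _ _; exact rev_ne a
  · intro a _; exact Finset.mem_univ _
  · intro a _; exact rev_rev a

lemma sum_arc_rev (f : {a // a ∈ ARC S} → ZMod 2) : ∑ a, f (rev a) = ∑ a, f a :=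
  Finset.sum_bij' (fun a _ => rev a) (fun a _ => rev a) (fun _ _ => Finset.mem_univ _)
    (fun _ _ => Finset.mem_univ _) (fun a _ => rev_rev a) (fun a _ => rev_rev a)
    (fun _ _ => rfl)

open Classical in
/-- parity of the number of boundary arcs -/
lemma sum_bd_parity (hS : TFree S) {i : ℕ} {D : Finset (VV S M)} :
    ∑ a : {a // a ∈ ARC S}, (if Bd S (Reg S M i D) a.1.1 a.1.2 then (1 : ZMod 2) else 0) =
    ∑ a : {a // a ∈ ARC S}, (if ph S M (a.1.1 + e (a.1.2 + 1)) ∈ D then (1 : ZMod 2) else 0) := by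
  have hsym : ∑ a : {a // a ∈ ARC S}, (if ph S M (a.1.1 + e (a.1.2 + 1)) ∈ D ∧
      ph S M (a.1.1 + e (a.1.2 - 1)) ∈ D then (1 : ZMod 2) else 0) = 0 := by
    apply sum_arc_symm
    intro a
    have h1 := left_rev a
    have h2 := left_rev (rev a)
    rw [rev_rev] at h2
    rw [h1, ← h2]
    congr 1
    exact propext and_comm
  rw [← add_zero (∑ a : {a // a ∈ ARC S}, (if Bd S (Reg S M i D) a.1.1 a.1.2
      then (1 : ZMod 2) else 0))]
  refine (congrArg _ hsym.symm).trans ?_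
  rw [← Finset.sum_add_distrib]
  by_cases hi : ((i : ℕ) : ZMod 2) = kap S M
  · refine Finset.sum_congr rfl (fun a _ => ?_)
    have hbd : Bd S (Reg S M i D) a.1.1 a.1.2 ↔ ph S M (a.1.1 + e (a.1.2 + 1)) ∈ D ∧
        ph S M (a.1.1 + e (a.1.2 - 1)) ∉ D := by
      unfold Bd
      rw [mem_Reg, mem_Reg]
      have h1 := left_not_mem hS a
      have h2 := right_not_mem hS a
      have h3 : IsArc S a.1.1 a.1.2 := mem_ARC.mp a.2
      simp only [h1, h2, h3, hi, true_and, not_false_eq_true, iff_true]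
    by_cases p : ph S M (a.1.1 + e (a.1.2 + 1)) ∈ D <;>
    by_cases q : ph S M (a.1.1 + e (a.1.2 - 1)) ∈ D <;>
    simp [hbd, p, q]
  · rw [← sum_arc_rev (fun a => if ph S M (a.1.1 + e (a.1.2 + 1)) ∈ D then (1 : ZMod 2) else 0)]
    refine Finset.sum_congr rfl (fun a _ => ?_)
    rw [left_rev]
    have hbd : Bd S (Reg S M i D) a.1.1 a.1.2 ↔ ph S M (a.1.1 + e (a.1.2 + 1)) ∉ D ∧
        ph S M (a.1.1 + e (a.1.2 - 1)) ∈ D := by
      unfold Bd
      rw [mem_Reg, mem_Reg]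
      have h1 := left_not_mem hS a
      have h2 := right_not_mem hS a
      have h3 : IsArc S a.1.1 a.1.2 := mem_ARC.mp a.2
      simp only [h1, h2, h3, hi, true_and, not_false_eq_true, iff_false, not_not]
    by_cases p : ph S M (a.1.1 + e (a.1.2 + 1)) ∈ D <;>
    by_cases q : ph S M (a.1.1 + e (a.1.2 - 1)) ∈ D <;>
    simp [hbd, p, q]

open Classical in
lemma sum_ell_eq (R : Set Pt) :
    ((∑ t : ZMod 6, ell S R t : ℤ) : ZMod 2) =
    ∑ a : {a // a ∈ ARC S}, (if Bd S R a.1.1 a.1.2 then (1 : ZMod 2) else 0) := by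
  have h1 : ∑ a : {a // a ∈ ARC S}, (if Bd S R a.1.1 a.1.2 then (1 : ZMod 2) else 0) =
      ∑ a ∈ ARC S, (if Bd S R a.1 a.2 then (1 : ZMod 2) else 0) :=
    Finset.sum_coe_sort (ARC S) (fun a => if Bd S R a.1 a.2 then (1 : ZMod 2) else 0)
  have h2 : ∑ a ∈ ARC S, (if Bd S R a.1 a.2 then (1 : ZMod 2) else 0) =
      ∑ a ∈ S ×ˢ (Finset.univ : Finset (ZMod 6)), (if Bd S R a.1 a.2 then (1 : ZMod 2) else 0) := by
    apply Finset.sum_subset (Finset.filter_subset _ _)
    intro a _ ha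
    rw [if_neg]
    intro h
    exact ha (mem_ARC.mpr h.1)
  rw [h1, h2, Finset.sum_product, Finset.sum_comm]
  unfold ell
  push_cast
  refine Finset.sum_congr rfl (fun t _ => Finset.sum_congr rfl (fun v _ => ?_))
  unfold ind
  split_ifs <;> simp

/-- sum over all edges of the dual -/
lemma sum_EE (f : EE S M → ZMod 2) : ∑ x, f x = ∑ a : {a // a ∈ ARC S}, f (Sum.inl a) +
    ∑ a : {a // a ∈ ZED S M}, f (Sum.inr a) := Fintype.sum_sum_type f

/-- a minimum `T`-join at the root -/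
def JJ (hS : TFree S) (M : ℤ) : EE S M → ZMod 2 :=
  Classical.choose (rho_exists (W := WW S M) (join_exists (M := M) hS) (root S M))

lemma JJ_join (hS : TFree S) : IsJoin sr tg (TT0 S M) (JJ hS M) (root S M) :=
  (Classical.choose_spec (rho_exists (W := WW S M) (join_exists (M := M) hS) (root S M))).1

lemma JJ_wt (hS : TFree S) : wt (WW S M) (JJ hS M) = rr S M (root S M) :=
  (Classical.choose_spec (rho_exists (W := WW S M) (join_exists (M := M) hS) (root S M))).2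

lemma JJ_bdry (hS : TFree S) : bdry sr tg (JJ hS M) = bdry sr tg (Fall : EE S M → ZMod 2) := by
  have := JJ_join (M := M) hS
  unfold IsJoin TT0 at this
  rw [this, add_assoc, fadd, add_zero]

lemma cut_JJ (hS : TFree S) {i : ℕ} {D : Finset (VV S M)} (hD : IC S M i D) :
    cut sr tg D (JJ hS M) = if root S M ∈ D then 0 else 1 :=
  sebo (join_exists hS) _ (WW S M) rfl cc cc_edge i D hD _ _ (JJ_join hS) (JJ_wt hS)

/-- P3 -/
lemma reg_odd (hS : TFree S) {i : ℕ} {D : Finset (VV S M)} (hD : IC S M i D)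
    (hr : root S M ∉ D) : Odd (∑ t : ZMod 6, ell S (Reg S M i D) t) := by
  classical
  have h1 : ((∑ t : ZMod 6, ell S (Reg S M i D) t : ℤ) : ZMod 2) = 1 := by
    rw [sum_ell_eq, sum_bd_parity hS]
    have h2 := cut_parity (src := sr) (tgt := tg) D (JJ hS M)
    rw [cut_JJ hS hD, if_neg hr, JJ_bdry] at h2
    have h3 : ∑ v ∈ D, bdry sr tg (Fall : EE S M → ZMod 2) v =
        ∑ v, (if v ∈ D then (1 : ZMod 2) else 0) * bdry sr tg (Fall : EE S M → ZMod 2) v := by
      simp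
    rw [h3, sum_bdry, sum_EE] at h2
    have h4 : ∑ a : {a // a ∈ ZED S M}, (Fall (Sum.inr a : EE S M) *
      ((if sr (Sum.inr a : EE S M) ∈ D then (1 : ZMod 2) else 0) +
      (if tg (Sum.inr a : EE S M) ∈ D then (1 : ZMod 2) else 0))) = 0 := by
      apply Finset.sum_eq_zero
      intro a _
      show (0 : ZMod 2) * _ = 0
      rw [zero_mul]
    rw [h4, add_zero] at h2
    have h5 : ∑ a : {a // a ∈ ARC S}, (if mi M a ∈ D then (1 : ZMod 2) else 0) = 0 := by
      apply sum_arc_symm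
      intro a; rw [mi_rev]
    rw [← add_zero (∑ a : {a // a ∈ ARC S}, (if ph S M (a.1.1 + e (a.1.2 + 1)) ∈ D
      then (1 : ZMod 2) else 0))]
    refine (congrArg _ h5.symm).trans ?_
    rw [← Finset.sum_add_distrib]
    rw [Nat.cast_one] at h2
    refine Eq.trans ?_ h2.symm
    refine Finset.sum_congr rfl (fun a _ => ?_)
    rw [sr_inl, tg_inl]
    show _ = (1 : ZMod 2) * _
    rw [one_mul]
  have h6 : (((∑ t : ZMod 6, ell S (Reg S M i D) t) - 1 : ℤ) : ZMod 2) = 0 := by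
    rw [Int.cast_sub, h1]; simp
  rw [ZMod.intCast_zmod_eq_zero_iff_dvd] at h6
  obtain ⟨k, hk⟩ := h6
  exact ⟨k, by push_cast at hk; linarith⟩

/-! ### the family -/

/-- index type of the packing -/
abbrev II (S : Finset Pt) (M : ℤ) : Type :=
  {D : Finset (VV S M) // ∃ i, IC S M i D ∧ root S M ∉ D}

instance : Fintype (II S M) := Fintype.ofFinite _

def lvl (D : II S M) : ℕ := Classical.choose D.2
lemma lvl_ic (D : II S M) : IC S M (lvl D) D.1 := (Classical.choose_spec D.2).1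
lemma lvl_root (D : II S M) : root S M ∉ D.1 := (Classical.choose_spec D.2).2

lemma fam (hS : TFree S) : Fam S (fun D : II S M => Reg S M (lvl D) D.1) where
  tf := hS
  reg D := Reg.isRegion hS (lvl_ic D)
  P1 D D' v t h h' := by
    have c1 := bd_cut hS (lvl_ic D) ⟨(v, t), h.arc⟩ h
    have c2 := bd_cut hS (lvl_ic D') ⟨(v, t), h.arc⟩ h'
    exact Subtype.ext (comp_unique hS (lvl_ic D) (lvl_ic D') _ c1 c2).1
  P2 D D' v t h h' := reg_disjoint hS (lvl_ic D) (lvl_ic D') ⟨(v, t), h.arc⟩ h h'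

theorem card_II (hS : TFree S) : 9 * Fintype.card (II S M) ≤ 2 * S.card :=
  thmA (fam hS) (fun D => reg_odd hS (lvl_ic D) (lvl_root D))

/-- every half edge is in the cut of some component -/
lemma exists_cut (hS : TFree S) (a : {a // a ∈ ARC S}) :
    ∃ i D, IC S M i D ∧ Cut sr tg D (Sum.inl a : EE S M) := by
  rcases rr_half (M := M) hS a with h | h
  · obtain ⟨D, hD, hm⟩ := exists_comp sr tg (rr S M) _ (mi M a) le_rfl
    refine ⟨_, D, hD, Or.inr ⟨fun h1 => ?_, hm⟩⟩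
    have h2 := hD.clo.le _ h1
    have h3 : rr S M (ph S M (a.1.1 + e (a.1.2 + 1))) ≤ rr S M (mi M a) := h2
    omega
  · obtain ⟨D, hD, hm⟩ := exists_comp sr tg (rr S M) _ (ph S M (a.1.1 + e (a.1.2 + 1))) le_rfl
    refine ⟨_, D, hD, Or.inl ⟨hm, fun h1 => ?_⟩⟩
    have h2 := hD.clo.le _ h1
    have h3 : rr S M (mi M a) ≤ rr S M (ph S M (a.1.1 + e (a.1.2 + 1))) := h2
    omega

/-- the arcs in the join -/
def JA (hS : TFree S) (M : ℤ) : Finset {a // a ∈ ARC S} :=
  Finset.univ.filter (fun a => JJ hS M (Sum.inl a) ≠ 0)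

theorem card_JA (hS : TFree S) : (JA hS M).card ≤ Fintype.card (II S M) := by
  classical
  have hch : ∀ a : {a // a ∈ ARC S}, ∃ D : Finset (VV S M),
      (∃ i, IC S M i D) ∧ Cut sr tg D (Sum.inl a : EE S M) := by
    intro a
    obtain ⟨i, D, h1, h2⟩ := exists_cut (M := M) hS a
    exact ⟨D, ⟨i, h1⟩, h2⟩
  choose f hf1 hf2 using hch
  have hroot : ∀ a ∈ JA hS M, root S M ∉ f a := by
    intro a ha hr
    obtain ⟨i, hi⟩ := hf1 a
    have h1 := cut_JJ hS hi
    rw [if_pos hr] at h1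
    unfold cut at h1
    rw [Finset.card_eq_zero] at h1
    have h2 : (Sum.inl a : EE S M) ∈ Finset.univ.filter
        (fun x => JJ hS M x ≠ 0 ∧ Cut sr tg (f a) x) :=
      Finset.mem_filter.mpr ⟨Finset.mem_univ _, (Finset.mem_filter.mp ha).2, hf2 a⟩
    rw [h1] at h2
    simp at h2
  have hinj : ∀ a ∈ JA hS M, ∀ b ∈ JA hS M, f a = f b → a = b := by
    intro a ha b hb hab
    by_contra hne
    obtain ⟨i, hi⟩ := hf1 a
    have h1 := cut_JJ hS hi
    rw [if_neg (hroot a ha)] at h1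
    unfold cut at h1
    have h2 : (Sum.inl a : EE S M) ∈ Finset.univ.filter
        (fun x => JJ hS M x ≠ 0 ∧ Cut sr tg (f a) x) :=
      Finset.mem_filter.mpr ⟨Finset.mem_univ _, (Finset.mem_filter.mp ha).2, hf2 a⟩
    have h3 : (Sum.inl b : EE S M) ∈ Finset.univ.filter
        (fun x => JJ hS M x ≠ 0 ∧ Cut sr tg (f a) x) :=
      Finset.mem_filter.mpr ⟨Finset.mem_univ _, (Finset.mem_filter.mp hb).2, by
        rw [hab]; exact hf2 b⟩
    obtain ⟨x, hx⟩ := Finset.card_eq_one.mp h1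
    rw [hx, Finset.mem_singleton] at h2 h3
    exact hne (Sum.inl.inj (h2.trans h3.symm))
  -- injection into `II`
  have h1 : (JA hS M).card = Fintype.card {a // a ∈ JA hS M} := by simp
  rw [h1]
  apply Fintype.card_le_of_injective (fun a : {a // a ∈ JA hS M} => (⟨f a.1, by
    obtain ⟨i, hi⟩ := hf1 a.1
    exact ⟨i, hi, hroot a.1 a.2⟩⟩ : II S M))
  intro a b hab
  exact Subtype.ext (hinj a.1 a.2 b.1 b.2 (congrArg Subtype.val hab))

theorem card_JA' (hS : TFree S) (M : ℤ) : 9 * (JA hS M).card ≤ 2 * S.card := by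
  have h1 := card_JA (M := M) hS
  have h2 := card_II (M := M) hS
  omega

end TriLat

end
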