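import Pool.Agent.Helper83.Tri.Defs

set_option autoImplicit false

namespace TriLat

/-! ### Identities between directions -/

lemma e_succ_add_pred : ∀ t : ZMod 6, e (t + 1) + e (t - 1) = e t := by decide
lemma e_add_e3 : ∀ t : ZMod 6, e t + e (t + 3) = 0 := by decide
lemma e_add_e2 : ∀ t : ZMod 6, e t + e (t + 2) = e (t + 1) := by decide
lemma e_add_e4 : ∀ t : ZMod 6, e t + e (t + 4) = e (t - 1) := by decide

variable {S : Finset Pt} {R : Set Pt}

lemma add_e_add_e3 (v : Pt) (t : ZMod 6) : v + e t + e (t + 3) = v := by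
  rw [add_assoc, e_add_e3, add_zero]

lemma sub_e (v : Pt) (t : ZMod 6) : v - e t = v + e (t + 3) := by
  rw [sub_eq_iff_eq_add, add_assoc, add_comm (e (t+3)), e_add_e3, add_zero]

/-- Local description of a region at a point `v`: `Out t` -/
lemma bd_out_iff {v : Pt} {t : ZMod 6} :
    Bd S R v t ↔ v ∈ S ∧ v + e t ∈ S ∧ v + e (t + 1) ∈ R ∧ v + e (t - 1) ∉ R := by
  unfold Bd IsArc; tauto

/-- The arc entering `v` along direction `s` (from `v + e s` to `v`). -/
lemma bd_in_iff {v : Pt} {s : ZMod 6} :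
    Bd S R (v + e s) (s + 3) ↔ v ∈ S ∧ v + e s ∈ S ∧ v + e (s - 1) ∈ R ∧ v + e (s + 1) ∉ R := by
  unfold Bd IsArc
  have h1 : v + e s + e (s + 3) = v := add_e_add_e3 v s
  have h2 : v + e s + e (s + 3 + 1) = v + e (s - 1) := by
    rw [add_assoc, show s + 3 + 1 = s + 4 by ring, e_add_e4]
  have h3 : v + e s + e (s + 3 - 1) = v + e (s + 1) := by
    rw [add_assoc, show s + 3 - 1 = s + 2 by ring, e_add_e2]
  rw [h1, h2, h3]; tauto

/-- closedness around a vertex -/
lemma IsRegion.next (hR : IsRegion S R) {v : Pt} {s : ZMod 6} (h : v + e s ∈ R)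
    (h' : v + e (s + 1) ∉ S) : v + e (s + 1) ∈ R := by
  have := hR.closed (v + e s) h (s + 2)
  rw [add_assoc, e_add_e2] at this
  exact this h'

lemma IsRegion.prev (hR : IsRegion S R) {v : Pt} {s : ZMod 6} (h : v + e s ∈ R)
    (h' : v + e (s - 1) ∉ S) : v + e (s - 1) ∈ R := by
  have := hR.closed (v + e s) h (s + 4)
  rw [add_assoc, e_add_e4] at this
  exact this h'

end TriLat
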