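import Mathlib

set_option autoImplicit false
set_option linter.unusedSectionVars false

/-!
# Conservative weightings: level-set components of the join distance (Sebő's theorem)
Abstract version with 0/1 weights (the finset `W` is the set of edges of weight one).
-/

namespace TPack

open Finset

variable {V E : Type} [Fintype V] [DecidableEq V] [Fintype E] [DecidableEq E]

section defs
variable (src tgt : E → V)

/-- boundary mod 2 -/
def bdry (F : E → ZMod 2) (v : V) : ZMod 2 :=
  ∑ e, F e * ((if src e = v then 1 else 0) + (if tgt e = v then 1 else 0))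

/-- indicator of a point -/
def dl (x : V) : V → ZMod 2 := fun v => if v = x then 1 else 0

/-- indicator of an edge -/
def sg (a : E) : E → ZMod 2 := fun e => if e = a then 1 else 0

/-- weight -/
def wt (W : Finset E) (F : E → ZMod 2) : ℕ := (W.filter (fun e => F e ≠ 0)).card

/-- edge leaves `K` -/
def Cut (K : Finset V) (e : E) : Prop := (src e ∈ K ∧ tgt e ∉ K) ∨ (src e ∉ K ∧ tgt e ∈ K)

instance (K : Finset V) : DecidablePred (Cut src tgt K) := fun _ => by unfold Cut; infer_instance

/-- number of edges of `F` leaving `K` -/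
def cut (K : Finset V) (F : E → ZMod 2) : ℕ :=
  (Finset.univ.filter (fun e => F e ≠ 0 ∧ Cut src tgt K e)).card

/-- closed set at level `i` -/
structure Clo (ρ : V → ℕ) (i : ℕ) (D : Finset V) : Prop where
  le : ∀ x ∈ D, ρ x ≤ i
  st : ∀ e, src e ∈ D → ρ (tgt e) ≤ i → tgt e ∈ D
  ts : ∀ e, tgt e ∈ D → ρ (src e) ≤ i → src e ∈ D

/-- component of the level set `{ρ ≤ i}` -/
structure IsComp (ρ : V → ℕ) (i : ℕ) (D : Finset V) : Prop where
  ne : D.Nonempty
  clo : Clo src tgt ρ i D
  min : ∀ D' : Finset V, D' ⊆ D → D'.Nonempty → Clo src tgt ρ i D' → D' = D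

end defs

variable {src tgt : E → V}

lemma bdry_add (F F' : E → ZMod 2) : bdry src tgt (F + F') = bdry src tgt F + bdry src tgt F' := by
  funext v
  simp only [bdry, Pi.add_apply, add_mul, Finset.sum_add_distrib]

lemma bdry_sg (a : E) : bdry src tgt (sg a) = dl (src a) + dl (tgt a) := by
  funext v
  unfold bdry sg
  rw [Finset.sum_eq_single a]
  · simp only [if_true, one_mul, Pi.add_apply, dl]
    congr 1
    · by_cases h : src a = v
      · simp [h]
      · have h' : ¬ v = src a := fun h2 => h h2.symm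
        simp [h, h']
    · by_cases h : tgt a = v
      · simp [h]
      · have h' : ¬ v = tgt a := fun h2 => h h2.symm
        simp [h, h']
  · intro b _ hb
    simp [hb]
  · intro h; exact absurd (Finset.mem_univ a) h

lemma zadd (a : ZMod 2) : a + a = 0 := by revert a; decide

lemma fadd {α : Type} (f : α → ZMod 2) : f + f = 0 := by
  funext x; exact zadd (f x)

/-- total boundary over a set -/
lemma sum_bdry (g : V → ZMod 2) (F : E → ZMod 2) :
    ∑ v, g v * bdry src tgt F v = ∑ e, F e * (g (src e) + g (tgt e)) := by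
  unfold bdry
  simp only [Finset.mul_sum]
  rw [Finset.sum_comm]
  refine Finset.sum_congr rfl (fun e _ => ?_)
  have h1 : ∀ v, g v * (F e * ((if src e = v then 1 else 0) + (if tgt e = v then 1 else 0))) =
      F e * ((if src e = v then g v else 0) + (if tgt e = v then g v else 0)) := by
    intro v
    split_ifs <;> ring
  simp only [h1]
  rw [← Finset.mul_sum, Finset.sum_add_distrib]
  simp

lemma cut_parity (K : Finset V) (F : E → ZMod 2) :
    ((cut src tgt K F : ℕ) : ZMod 2) = ∑ v ∈ K, bdry src tgt F v := by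
  have h1 : ∑ v ∈ K, bdry src tgt F v = ∑ v, (if v ∈ K then (1 : ZMod 2) else 0) * bdry src tgt F v := by
    simp
  rw [h1, sum_bdry]
  unfold cut
  rw [Finset.card_filter, Nat.cast_sum]
  refine Finset.sum_congr rfl (fun e _ => ?_)
  have hz : ∀ z : ZMod 2, z = 0 ∨ z = 1 := by decide
  unfold Cut
  rcases hz (F e) with h | h <;> by_cases h1 : src e ∈ K <;> by_cases h2 : tgt e ∈ K <;>
    simp [h, h1, h2]
  exact (zadd 1).symm

/-- in the setting of a fixed terminal set `T0` -/
def IsJoin (src tgt : E → V) (T0 : V → ZMod 2) (F : E → ZMod 2) (x : V) : Prop :=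
  bdry src tgt F = T0 + dl x

open Classical in
/-- distance function -/
noncomputable def rho (src tgt : E → V) (T0 : V → ZMod 2) (W : Finset E) (x : V) : ℕ :=
  sInf {n | ∃ F, IsJoin src tgt T0 F x ∧ wt W F = n}

variable {T0 : V → ZMod 2} {W : Finset E}

lemma rho_exists (hc : ∀ x, ∃ F, IsJoin src tgt T0 F x) (x : V) :
    ∃ F, IsJoin src tgt T0 F x ∧ wt W F = rho src tgt T0 W x := by
  have : (sInf {n | ∃ F, IsJoin src tgt T0 F x ∧ wt W F = n}) ∈
      {n | ∃ F, IsJoin src tgt T0 F x ∧ wt W F = n} := by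
    apply Nat.sInf_mem
    obtain ⟨F, hF⟩ := hc x
    exact ⟨_, F, hF, rfl⟩
  exact this

lemma rho_le {x : V} {F : E → ZMod 2} (hF : IsJoin src tgt T0 F x) :
    rho src tgt T0 W x ≤ wt W F := Nat.sInf_le ⟨F, hF, rfl⟩

lemma join_move {x y : V} {F P : E → ZMod 2} (hF : IsJoin src tgt T0 F x)
    (hP : bdry src tgt P = dl x + dl y) : IsJoin src tgt T0 (F + P) y := by
  unfold IsJoin at *
  rw [bdry_add, hF, hP]
  have : T0 + dl x + (dl x + dl y) = T0 + (dl x + dl x) + dl y := by ring
  rw [this, fadd, add_zero]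

/-- weights of `F + P` when `P` is disjoint from `W` -/
lemma wt_add_of_disjoint (F P : E → ZMod 2) (h : ∀ e ∈ W, P e = 0) : wt W (F + P) = wt W F := by
  unfold wt
  congr 1
  apply Finset.filter_congr
  intro e he
  simp [h e he]

lemma wt_sg_of_mem {F : E → ZMod 2} {a : E} (ha : a ∈ W) (hF : F a ≠ 0) :
    wt W (F + sg a) + 1 = wt W F := by
  have hz : ∀ z : ZMod 2, z ≠ 0 → z + 1 = 0 := by decide
  unfold wt
  have h1 : ∀ e, e ≠ a → (F + sg a) e = F e := by
    intro e he; rw [Pi.add_apply, sg, if_neg he, add_zero]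
  have h2 : (F + sg a) a = 0 := by
    rw [Pi.add_apply, sg, if_pos rfl]; exact hz _ hF
  have : W.filter (fun e => F e ≠ 0) = insert a (W.filter (fun e => (F + sg a) e ≠ 0)) := by
    ext e
    rw [Finset.mem_insert, Finset.mem_filter, Finset.mem_filter]
    by_cases h : e = a
    · subst h; simp [ha, hF]
    · rw [h1 e h]; simp [h]
  rw [this, Finset.card_insert_of_notMem]
  rw [Finset.mem_filter]
  exact fun h => h.2 h2

lemma wt_sg_le (F : E → ZMod 2) (a : E) : wt W (F + sg a) ≤ wt W F + (if a ∈ W then 1 else 0) := by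
  by_cases ha : a ∈ W
  · simp only [ha, if_true]
    unfold wt
    have : W.filter (fun e => (F + sg a) e ≠ 0) ⊆ insert a (W.filter (fun e => F e ≠ 0)) := by
      intro e he
      rw [Finset.mem_insert, Finset.mem_filter]
      rw [Finset.mem_filter] at he
      by_cases h : e = a
      · left; exact h
      · right
        have h1 : (F + sg a) e = F e := by rw [Pi.add_apply, sg, if_neg h, add_zero]
        rwa [h1] at he
    exact (Finset.card_le_card this).trans (Finset.card_insert_le _ _)
  · simp only [ha, if_false, add_zero]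
    apply le_of_eq
    apply wt_add_of_disjoint
    intro e he
    unfold sg
    rw [if_neg]
    rintro rfl
    exact ha he

lemma rho_edge (hc : ∀ x, ∃ F, IsJoin src tgt T0 F x) (a : E) :
    rho src tgt T0 W (tgt a) ≤ rho src tgt T0 W (src a) + (if a ∈ W then 1 else 0) ∧
    rho src tgt T0 W (src a) ≤ rho src tgt T0 W (tgt a) + (if a ∈ W then 1 else 0) := by
  constructor
  · obtain ⟨F, hF, hw⟩ := rho_exists (W := W) hc (src a)
    rw [← hw]
    exact (rho_le (join_move hF (bdry_sg a))).trans (wt_sg_le F a)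
  · obtain ⟨F, hF, hw⟩ := rho_exists (W := W) hc (tgt a)
    rw [← hw]
    refine (rho_le (join_move hF ?_)).trans (wt_sg_le F a)
    rw [bdry_sg, add_comm]

lemma wt_cast (F : E → ZMod 2) : ((wt W F : ℕ) : ZMod 2) = ∑ e, F e * (if e ∈ W then 1 else 0) := by
  unfold wt
  rw [Finset.card_filter, Nat.cast_sum]
  have : ∑ e, F e * (if e ∈ W then (1 : ZMod 2) else 0) = ∑ e ∈ W, F e := by simp
  rw [this]
  refine Finset.sum_congr rfl (fun e _ => ?_)
  have hz : ∀ z : ZMod 2, z = 0 ∨ z = 1 := by decide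
  rcases hz (F e) with h | h <;> simp [h]

/-- parity of the weight of a join -/
lemma wt_parity {c : V → ZMod 2}
    (hb : ∀ e, c (src e) + c (tgt e) = if e ∈ W then 1 else 0) {F : E → ZMod 2} {x : V}
    (hF : IsJoin src tgt T0 F x) : ((wt W F : ℕ) : ZMod 2) = (∑ v, c v * T0 v) + c x := by
  rw [wt_cast]
  have h1 : ∑ e, F e * (if e ∈ W then (1 : ZMod 2) else 0) = ∑ e, F e * (c (src e) + c (tgt e)) := by
    refine Finset.sum_congr rfl (fun e _ => ?_)
    rw [hb]
  rw [h1, ← sum_bdry, hF]
  simp only [Pi.add_apply, mul_add, Finset.sum_add_distrib]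
  congr 1
  simp [dl]

lemma rho_parity (hc : ∀ x, ∃ F, IsJoin src tgt T0 F x) {c : V → ZMod 2}
    (hb : ∀ e, c (src e) + c (tgt e) = if e ∈ W then 1 else 0) (x : V) :
    ((rho src tgt T0 W x : ℕ) : ZMod 2) = (∑ v, c v * T0 v) + c x := by
  obtain ⟨F, hF, hw⟩ := rho_exists (W := W) hc x
  rw [← hw]
  exact wt_parity hb hF

lemma rho_eq_of_not_mem (hc : ∀ x, ∃ F, IsJoin src tgt T0 F x) {a : E} (ha : a ∉ W) :
    rho src tgt T0 W (src a) = rho src tgt T0 W (tgt a) := by
  have := rho_edge (W := W) hc a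
  simp only [ha, if_false, add_zero] at this
  omega

lemma rho_ne_of_mem (hc : ∀ x, ∃ F, IsJoin src tgt T0 F x) {c : V → ZMod 2}
    (hb : ∀ e, c (src e) + c (tgt e) = if e ∈ W then 1 else 0) {a : E} (ha : a ∈ W) :
    rho src tgt T0 W (src a) = rho src tgt T0 W (tgt a) + 1 ∨
    rho src tgt T0 W (tgt a) = rho src tgt T0 W (src a) + 1 := by
  have h1 := rho_edge (W := W) hc a
  simp only [ha, if_true] at h1
  have h2 : rho src tgt T0 W (src a) ≠ rho src tgt T0 W (tgt a) := by
    intro h
    have p1 := rho_parity (W := W) hc hb (src a)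
    have p2 := rho_parity (W := W) hc hb (tgt a)
    rw [h, p2] at p1
    have h3 := hb a
    simp only [ha, if_true] at h3
    have h4 : c (tgt a) = c (src a) := add_left_cancel p1
    rw [h4, zadd] at h3
    exact zero_ne_one h3
  omega

/-! ### Components -/

lemma Clo.inter {ρ : V → ℕ} {i j : ℕ} {D K : Finset V} (hD : Clo src tgt ρ i D)
    (hK : Clo src tgt ρ j K) (hji : j ≤ i) : Clo src tgt ρ j (D ∩ K) where
  le x hx := hK.le x (Finset.mem_inter.mp hx).2
  st e he h := Finset.mem_inter.mpr ⟨hD.st e (Finset.mem_inter.mp he).1 (h.trans hji),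
    hK.st e (Finset.mem_inter.mp he).2 h⟩
  ts e he h := Finset.mem_inter.mpr ⟨hD.ts e (Finset.mem_inter.mp he).1 (h.trans hji),
    hK.ts e (Finset.mem_inter.mp he).2 h⟩

/-- components at lower level are contained in or disjoint from those at higher level -/
lemma IsComp.subset {ρ : V → ℕ} {i j : ℕ} {D K : Finset V} (hD : IsComp src tgt ρ i D)
    (hK : IsComp src tgt ρ j K) (hji : j ≤ i) (h : (D ∩ K).Nonempty) : K ⊆ D := by
  have := hK.min (D ∩ K) Finset.inter_subset_right h (hD.clo.inter hK.clo hji)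
  rw [← this]
  exact Finset.inter_subset_left

lemma IsComp.eq {ρ : V → ℕ} {i : ℕ} {D K : Finset V} (hD : IsComp src tgt ρ i D)
    (hK : IsComp src tgt ρ i K) (h : (D ∩ K).Nonempty) : D = K := by
  apply Finset.Subset.antisymm
  · exact hK.subset hD le_rfl (by rwa [Finset.inter_comm])
  · exact hD.subset hK le_rfl h

/-- every vertex is in a component at each level above its height -/
lemma exists_comp (src tgt : E → V) (ρ : V → ℕ) (i : ℕ) (x : V) (hx : ρ x ≤ i) :
    ∃ D, IsComp src tgt ρ i D ∧ x ∈ D := by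
  classical
  -- the family of closed sets containing x
  let P : Finset V → Prop := fun D => Clo src tgt ρ i D ∧ x ∈ D
  have hne : ∃ D, P D := by
    refine ⟨Finset.univ.filter (fun y => ρ y ≤ i), ⟨?_, ?_, ?_⟩, ?_⟩
    · intro y hy; exact (Finset.mem_filter.mp hy).2
    · intro e _ h; exact Finset.mem_filter.mpr ⟨Finset.mem_univ _, h⟩
    · intro e _ h; exact Finset.mem_filter.mpr ⟨Finset.mem_univ _, h⟩
    · exact Finset.mem_filter.mpr ⟨Finset.mem_univ _, hx⟩
  obtain ⟨D, hD, hmin⟩ := (wellFounded_lt (α := Finset V)).has_min {D | P D} hne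
  have hD' : P D := hD
  refine ⟨D, ⟨⟨x, hD'.2⟩, hD'.1, ?_⟩, hD'.2⟩
  intro D' hsub hne' hclo
  by_cases hxD : x ∈ D'
  · by_contra hneq
    exact hmin D' ⟨hclo, hxD⟩ (Finset.ssubset_iff_subset_ne.mpr ⟨hsub, hneq⟩)
  · -- then D \ D' is closed and contains x, smaller
    exfalso
    have hclo2 : Clo src tgt ρ i (D \ D') := by
      refine ⟨fun y hy => hD'.1.le y (Finset.mem_sdiff.mp hy).1, ?_, ?_⟩
      · intro e he h
        rw [Finset.mem_sdiff] at he ⊢
        refine ⟨hD'.1.st e he.1 h, fun h2 => he.2 (hclo.ts e h2 (hD'.1.le _ he.1))⟩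
      · intro e he h
        rw [Finset.mem_sdiff] at he ⊢
        refine ⟨hD'.1.ts e he.1 h, fun h2 => he.2 (hclo.st e h2 (hD'.1.le _ he.1))⟩
    apply hmin (D \ D') ⟨hclo2, Finset.mem_sdiff.mpr ⟨hD'.2, hxD⟩⟩
    obtain ⟨z, hz⟩ := hne'
    apply Finset.ssubset_iff_subset_ne.mpr
    refine ⟨Finset.sdiff_subset, fun heq => ?_⟩
    have := hsub hz
    rw [← heq] at this
    exact (Finset.mem_sdiff.mp this).2 hz

end TPack
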