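import Pool.Agent.Helper83.Tri.Cfg

set_option autoImplicit false

namespace TriLat

open Finset

open Classical in
/-- integer indicator -/
noncomputable def ind (p : Prop) : ℤ := if p then 1 else 0

lemma ind_nonneg (p : Prop) : 0 ≤ ind p := by unfold ind; split_ifs <;> simp
lemma ind_le_one (p : Prop) : ind p ≤ 1 := by unfold ind; split_ifs <;> simp
lemma ind_true {p : Prop} (h : p) : ind p = 1 := by unfold ind; simp [h]
lemma ind_false {p : Prop} (h : ¬ p) : ind p = 0 := by unfold ind; simp [h]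
lemma ind_mono {p q : Prop} (h : p → q) : ind p ≤ ind q := by
  by_cases hp : p
  · rw [ind_true hp, ind_true (h hp)]
  · rw [ind_false hp]; exact ind_nonneg q
lemma ind_congr {p q : Prop} (h : p ↔ q) : ind p = ind q := by rw [propext h]

lemma sum_shift (S : Finset Pt) (g : Pt → ℤ) (d : Pt) (h : ∀ v, g v ≠ 0 → v ∈ S ∧ v + d ∈ S) :
    ∑ v ∈ S, g v = ∑ w ∈ S, g (w - d) := by
  have h1 : ∑ v ∈ S, g v = ∑ᶠ v, g v :=
    (finsum_eq_sum_of_support_subset g (fun v hv => (h v hv).1)).symm
  have h2 : ∑ w ∈ S, g (w - d) = ∑ᶠ w, g (w - d) :=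
    (finsum_eq_sum_of_support_subset (fun w => g (w - d)) (fun w hw => by
      have := (h (w - d) hw).2
      simpa using this)).symm
  rw [h1, h2]
  exact (finsum_comp_equiv (Equiv.subRight d) (f := g)).symm

lemma no_inv (A : Finset Pt) (d : Pt) (hd : d ≠ 0) (h : ∀ v ∈ A, v + d ∈ A) : A = ∅ := by
  by_contra hA
  obtain ⟨v, hv⟩ := Finset.nonempty_of_ne_empty hA
  have h1 : ∀ n : ℕ, v + n • d ∈ A := by
    intro n
    induction n with
    | zero => simpa using hv
    | succ n ih =>
      have := h _ ih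
      rwa [add_assoc, ← succ_nsmul] at this
  have h2 : Function.Injective (fun n : ℕ => v + n • d) := by
    intro n m hnm
    have h3 : n • d = m • d := add_left_cancel hnm
    by_contra hne
    apply hd
    have h1 : ((n : ℤ) - m) • d = 0 := by
      rw [sub_smul, natCast_zsmul, natCast_zsmul, h3, sub_self]
    rcases smul_eq_zero.mp h1 with h | h
    · exact absurd (by exact_mod_cast sub_eq_zero.mp h) hne
    · exact h
  exact (Set.infinite_of_injective_forall_mem h2 h1) A.finite_toSet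

lemma e_ne_zero : ∀ t : ZMod 6, e t ≠ 0 := by decide

section

variable (S : Finset Pt) (R : Set Pt)

/-- arc entering `v` along direction `s` -/
def BIn (v : Pt) (s : ZMod 6) : Prop := Bd S R (v + e s) (s + 3)

noncomputable def ell (t : ZMod 6) : ℤ := ∑ v ∈ S, ind (Bd S R v t)
noncomputable def evL (t : ZMod 6) : ℤ := ∑ v ∈ S, ind (Bd S R v t ∧ BIn S R v (t + 2))
noncomputable def ev0 (t : ZMod 6) : ℤ := ∑ v ∈ S, ind (Bd S R v t ∧ BIn S R v (t + 3))
noncomputable def evR (t : ZMod 6) : ℤ := ∑ v ∈ S, ind (Bd S R v t ∧ BIn S R v (t + 4))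
noncomputable def evB (t : ZMod 6) : ℤ :=
  ∑ v ∈ S, ind (Bd S R v t ∧ BIn S R v (t + 2) ∧ Bd S R (v + e t) (t + 1))

end

variable {S : Finset Pt} {R : Set Pt}

lemma Bd.mem {v : Pt} {t : ZMod 6} (h : Bd S R v t) : v ∈ S ∧ v + e t ∈ S := h.1

lemma BIn.mem {v : Pt} {s : ZMod 6} (h : BIn S R v s) : v ∈ S ∧ v + e s ∈ S := by
  obtain ⟨h1, h2⟩ := Bd.mem h
  rw [add_e_add_e3] at h2
  exact ⟨h2, h1⟩

lemma BIn.iff_bd {v : Pt} {t : ZMod 6} : BIn S R v (t + 3) ↔ Bd S R (v - e t) t := by
  unfold BIn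
  rw [sub_e, show t + 3 + 3 = t + 6 by ring, show (6 : ZMod 6) = 0 by decide, add_zero]

section basic
variable (hS : TFree S) (hR : IsRegion S R)
include hS hR

lemma Bd.cases {v : Pt} {t : ZMod 6} (h : Bd S R v t) :
    BIn S R v (t + 2) ∨ BIn S R v (t + 3) ∨ BIn S R v (t + 4) := by
  have hv := h.mem.1
  have c := hR.cfg hS hv
  rw [bd_out_iff' hv] at h
  unfold BIn
  rw [bd_in_iff' hv, bd_in_iff' hv, bd_in_iff' hv]
  exact c.out_cases h

lemma BIn.cases {v : Pt} {s : ZMod 6} (h : BIn S R v s) :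
    Bd S R v (s + 4) ∨ Bd S R v (s + 3) ∨ Bd S R v (s + 2) := by
  have hv := h.mem.1
  have c := hR.cfg hS hv
  unfold BIn at h
  rw [bd_in_iff' hv] at h
  rw [bd_out_iff' hv, bd_out_iff' hv, bd_out_iff' hv]
  exact c.in_cases h

lemma Bd.unique {v : Pt} {t t' : ZMod 6} (h : Bd S R v t) (h' : Bd S R v t') : t = t' := by
  have hv := h.mem.1
  have c := hR.cfg hS hv
  rw [bd_out_iff' hv] at h h'
  exact c.out_unique h h'

lemma BIn.unique {v : Pt} {t t' : ZMod 6} (h : BIn S R v t) (h' : BIn S R v t') : t = t' := by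
  have hv := h.mem.1
  have c := hR.cfg hS hv
  unfold BIn at h h'
  rw [bd_in_iff' hv] at h h'
  exact c.in_unique h h'

lemma ind_bd_eq (v : Pt) (t : ZMod 6) :
    ind (Bd S R v t) = ind (Bd S R v t ∧ BIn S R v (t + 2)) + ind (Bd S R v t ∧ BIn S R v (t + 3))
      + ind (Bd S R v t ∧ BIn S R v (t + 4)) := by
  by_cases h : Bd S R v t
  · have d23 : t + 2 ≠ t + 3 := by intro h; exact absurd (add_left_cancel h) (by decide)
    have d24 : t + 2 ≠ t + 4 := by intro h; exact absurd (add_left_cancel h) (by decide)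
    have d34 : t + 3 ≠ t + 4 := by intro h; exact absurd (add_left_cancel h) (by decide)
    rw [ind_true h]
    rcases Bd.cases hS hR h with h1 | h1 | h1
    · rw [ind_true ⟨h, h1⟩, ind_false (fun h2 => d23 (BIn.unique hS hR h1 h2.2)),
        ind_false (fun h2 => d24 (BIn.unique hS hR h1 h2.2))]; norm_num
    · rw [ind_true (p := Bd S R v t ∧ BIn S R v (t + 3)) ⟨h, h1⟩,
        ind_false (fun h2 => d23 (BIn.unique hS hR h2.2 h1)),
        ind_false (fun h2 => d34 (BIn.unique hS hR h1 h2.2))]; norm_num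
    · rw [ind_true (p := Bd S R v t ∧ BIn S R v (t + 4)) ⟨h, h1⟩,
        ind_false (fun h2 => d24 (BIn.unique hS hR h2.2 h1)),
        ind_false (fun h2 => d34 (BIn.unique hS hR h2.2 h1))]; norm_num
  · rw [ind_false h, ind_false (fun h2 => h h2.1), ind_false (fun h2 => h h2.1),
      ind_false (fun h2 => h h2.1)]; norm_num

lemma ind_bin_eq (v : Pt) (s : ZMod 6) :
    ind (BIn S R v s) = ind (Bd S R v (s + 4) ∧ BIn S R v s) + ind (Bd S R v (s + 3) ∧ BIn S R v s)
      + ind (Bd S R v (s + 2) ∧ BIn S R v s) := by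
  by_cases h : BIn S R v s
  · have d23 : s + 2 ≠ s + 3 := by intro h; exact absurd (add_left_cancel h) (by decide)
    have d24 : s + 2 ≠ s + 4 := by intro h; exact absurd (add_left_cancel h) (by decide)
    have d34 : s + 3 ≠ s + 4 := by intro h; exact absurd (add_left_cancel h) (by decide)
    rw [ind_true h]
    rcases BIn.cases hS hR h with h1 | h1 | h1
    · rw [ind_true ⟨h1, h⟩, ind_false (fun h2 => d34 (Bd.unique hS hR h2.1 h1)),
        ind_false (fun h2 => d24 (Bd.unique hS hR h2.1 h1))]; norm_num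
    · rw [ind_true (p := Bd S R v (s + 3) ∧ BIn S R v s) ⟨h1, h⟩,
        ind_false (fun h2 => d34 (Bd.unique hS hR h1 h2.1)),
        ind_false (fun h2 => d23 (Bd.unique hS hR h2.1 h1))]; norm_num
    · rw [ind_true (p := Bd S R v (s + 2) ∧ BIn S R v s) ⟨h1, h⟩,
        ind_false (fun h2 => d24 (Bd.unique hS hR h1 h2.1)),
        ind_false (fun h2 => d23 (Bd.unique hS hR h1 h2.1))]; norm_num
  · rw [ind_false h, ind_false (fun h2 => h h2.2), ind_false (fun h2 => h h2.2),
      ind_false (fun h2 => h h2.2)]; norm_num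

lemma ell_eq_tail (t : ZMod 6) : ell S R t = evL S R t + ev0 S R t + evR S R t := by
  unfold ell evL ev0 evR
  rw [← Finset.sum_add_distrib, ← Finset.sum_add_distrib]
  exact Finset.sum_congr rfl (fun v _ => ind_bd_eq hS hR v t)

omit hS hR in
lemma ell_eq_in (t : ZMod 6) : ell S R t = ∑ v ∈ S, ind (BIn S R v (t + 3)) := by
  unfold ell
  rw [sum_shift S (fun v => ind (Bd S R v t)) (e t)]
  · exact Finset.sum_congr rfl (fun v _ => ind_congr BIn.iff_bd.symm)
  · intro v hv
    by_contra h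
    exact hv (ind_false (fun h' => h h'.mem))

lemma ell_eq_head (t : ZMod 6) :
    ell S R t = evL S R (t + 1) + ev0 S R t + evR S R (t + 5) := by
  have six : (6 : ZMod 6) = 0 := by decide
  rw [ell_eq_in]
  unfold evL ev0 evR
  rw [← Finset.sum_add_distrib, ← Finset.sum_add_distrib]
  refine Finset.sum_congr rfl (fun _ _ => ?_)
  rw [ind_bin_eq hS hR _ (t + 3)]
  rw [show t + 3 + 4 = t + 1 by linear_combination six, show t + 1 + 2 = t + 3 by ring,
    show t + 3 + 3 = t by linear_combination six,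
    show t + 3 + 2 = t + 5 by ring, show t + 5 + 4 = t + 3 by linear_combination six]

omit hS hR in
lemma evL_nonneg (t : ZMod 6) : 0 ≤ evL S R t := Finset.sum_nonneg (fun _ _ => ind_nonneg _)
omit hS hR in
lemma evR_nonneg (t : ZMod 6) : 0 ≤ evR S R t := Finset.sum_nonneg (fun _ _ => ind_nonneg _)
omit hS hR in
lemma ev0_nonneg (t : ZMod 6) : 0 ≤ ev0 S R t := Finset.sum_nonneg (fun _ _ => ind_nonneg _)
omit hS hR in
lemma evB_nonneg (t : ZMod 6) : 0 ≤ evB S R t := Finset.sum_nonneg (fun _ _ => ind_nonneg _)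

omit hS hR in
lemma evB_le_tail (t : ZMod 6) : evB S R t ≤ evL S R t :=
  Finset.sum_le_sum (fun v _ => ind_mono (fun h => ⟨h.1, h.2.1⟩))

omit hS hR in
lemma evB_le_head (t : ZMod 6) : evB S R t ≤ evL S R (t + 1) := by
  unfold evB evL
  rw [sum_shift S (fun v => ind (Bd S R v t ∧ BIn S R v (t + 2) ∧ Bd S R (v + e t) (t + 1))) (e t)]
  · refine Finset.sum_le_sum (fun v _ => ind_mono (fun h => ?_))
    refine ⟨by simpa using h.2.2, ?_⟩
    rw [show t + 1 + 2 = t + 3 by ring, BIn.iff_bd]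
    exact h.1
  · intro v hv
    by_contra h
    exact hv (ind_false (fun h' => h h'.1.mem))

/-- If no arc of direction `t` starts at a right turn, and there is a straight passage in
direction `t`, then `evB t < evL t`. -/
lemma evB_lt (t : ZMod 6) (h0 : 0 < ev0 S R t) (hR0 : evR S R t = 0) :
    evB S R t + 1 ≤ evL S R t := by
  classical
  have noR : ∀ v, ¬ (Bd S R v t ∧ BIn S R v (t + 4)) := by
    intro v hv
    have h1 : ∀ w ∈ S, 0 ≤ ind (Bd S R w t ∧ BIn S R w (t + 4)) := fun _ _ => ind_nonneg _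
    have := (Finset.sum_eq_zero_iff_of_nonneg h1).mp hR0 v hv.1.mem.1
    rw [ind_true hv] at this
    exact one_ne_zero this
  obtain ⟨v, hv, hv2, hv3⟩ : ∃ v, Bd S R v t ∧ BIn S R v (t + 2) ∧ Bd S R (v + e t) t := by
    by_contra hcon
    push Not at hcon
    let A : Finset Pt := S.filter (fun v => Bd S R v t ∧ Bd S R (v + e t) t)
    have hA : A = ∅ := by
      apply no_inv A (- e t) (by simpa using e_ne_zero t)
      intro v hv
      rw [Finset.mem_filter] at hv
      have h1 := hcon v hv.2.1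
      have h2 : BIn S R v (t + 3) := by
        rcases Bd.cases hS hR hv.2.1 with h | h | h
        · exact absurd hv.2.2 (h1 h)
        · exact h
        · exact absurd ⟨hv.2.1, h⟩ (noR v)
      rw [BIn.iff_bd] at h2
      rw [← sub_eq_add_neg, Finset.mem_filter]
      refine ⟨h2.mem.1, h2, by simpa using hv.2.1⟩
    obtain ⟨w, hw, hw0⟩ : ∃ w ∈ S, ind (Bd S R w t ∧ BIn S R w (t + 3)) ≠ 0 := by
      by_contra h
      push Not at h
      have : ev0 S R t = 0 := Finset.sum_eq_zero h
      omega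
    have hw1 : Bd S R w t ∧ BIn S R w (t + 3) := by
      by_contra h
      exact hw0 (ind_false h)
    rw [BIn.iff_bd] at hw1
    have : w - e t ∈ A := by
      rw [Finset.mem_filter]
      exact ⟨hw1.2.mem.1, hw1.2, by simpa using hw1.1⟩
    rw [hA] at this
    simp at this
  unfold evB evL
  have hlt : ∑ v ∈ S, ind (Bd S R v t ∧ BIn S R v (t + 2) ∧ Bd S R (v + e t) (t + 1)) <
      ∑ v ∈ S, ind (Bd S R v t ∧ BIn S R v (t + 2)) := by
    apply Finset.sum_lt_sum
    · intro w _
      exact ind_mono (fun h => ⟨h.1, h.2.1⟩)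
    · refine ⟨v, hv.mem.1, ?_⟩
      have hn : ¬ (Bd S R v t ∧ BIn S R v (t + 2) ∧ Bd S R (v + e t) (t + 1)) := by
        intro h
        have h5 := Bd.unique hS hR h.2.2 hv3
        have : (1 : ZMod 6) = 0 := by linear_combination h5
        exact absurd this (by decide)
      rw [ind_true (p := Bd S R v t ∧ BIn S R v (t + 2)) ⟨hv, hv2⟩, ind_false hn]
      norm_num
  omega

/-! ### Closure -/

lemma sum_bd_eq_sum_bin (v : Pt) :
    ∑ t : ZMod 6, ind (Bd S R v t) = ∑ s : ZMod 6, ind (BIn S R v s) := by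
  have h1 : ∑ t : ZMod 6, ind (Bd S R v t) =
      ∑ t : ZMod 6, (ind (Bd S R v t ∧ BIn S R v (t + 2)) + ind (Bd S R v t ∧ BIn S R v (t + 3))
      + ind (Bd S R v t ∧ BIn S R v (t + 4))) :=
    Finset.sum_congr rfl (fun t _ => ind_bd_eq hS hR v t)
  have h2 : ∑ s : ZMod 6, ind (BIn S R v s) =
      ∑ s : ZMod 6, (ind (Bd S R v (s + 4) ∧ BIn S R v s) + ind (Bd S R v (s + 3) ∧ BIn S R v s)
      + ind (Bd S R v (s + 2) ∧ BIn S R v s)) :=
    Finset.sum_congr rfl (fun s _ => ind_bin_eq hS hR v s)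
  have six : (6 : ZMod 6) = 0 := by decide
  rw [h1, h2]
  simp only [Finset.sum_add_distrib]
  have k : ∀ d : ZMod 6, ∑ t : ZMod 6, ind (Bd S R v t ∧ BIn S R v (t + d)) =
      ∑ s : ZMod 6, ind (Bd S R v (s - d) ∧ BIn S R v s) := by
    intro d
    refine Fintype.sum_equiv (Equiv.addRight d) _ _ (fun t => ?_)
    simp
  rw [k 2, k 3, k 4]
  have c2 : ∀ s : ZMod 6, s - 2 = s + 4 := fun s => by linear_combination - six
  have c3 : ∀ s : ZMod 6, s - 3 = s + 3 := fun s => by linear_combination - six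
  have c4 : ∀ s : ZMod 6, s - 4 = s + 2 := fun s => by linear_combination - six
  simp only [c2, c3, c4]

lemma closure (φ : Pt → ℤ) (hφ : ∀ v w, φ (v + w) = φ v + φ w) :
    ∑ t : ZMod 6, ell S R t * φ (e t) = 0 := by
  have h1 : ∀ t : ZMod 6, ell S R t * φ (e t) =
      ∑ v ∈ S, ind (BIn S R v (t + 3)) * φ v - ∑ v ∈ S, ind (Bd S R v t) * φ v := by
    intro t
    have h2 : ∑ v ∈ S, ind (Bd S R v t) * φ (v + e t) =
        ∑ v ∈ S, ind (BIn S R v (t + 3)) * φ v := by
      rw [sum_shift S (fun v => ind (Bd S R v t) * φ (v + e t)) (e t)]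
      · refine Finset.sum_congr rfl (fun v _ => ?_)
        rw [BIn.iff_bd]; simp
      · intro v hv
        by_contra h
        apply hv
        rw [ind_false (fun h' => h h'.mem), zero_mul]
    rw [← h2, ← Finset.sum_sub_distrib]
    unfold ell
    rw [Finset.sum_mul]
    refine Finset.sum_congr rfl (fun v _ => ?_)
    rw [hφ]; ring
  rw [Finset.sum_congr rfl (fun t _ => h1 t), Finset.sum_sub_distrib]
  rw [Finset.sum_comm, Finset.sum_comm (s := (Finset.univ : Finset (ZMod 6)))
    (f := fun t v => ind (Bd S R v t) * φ v), ← Finset.sum_sub_distrib]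
  refine Finset.sum_eq_zero (fun v _ => ?_)
  have h3 : ∑ t : ZMod 6, ind (BIn S R v (t + 3)) = ∑ s : ZMod 6, ind (BIn S R v s) :=
    Fintype.sum_equiv (Equiv.addRight 3) _ _ (fun t => by simp)
  rw [← Finset.sum_mul, ← Finset.sum_mul, h3, sum_bd_eq_sum_bin hS hR v, sub_self]

omit hS hR in
lemma sum_zmod6 (f : ZMod 6 → ℤ) : ∑ t : ZMod 6, f t = f 0 + f 1 + f 2 + f 3 + f 4 + f 5 := by
  have := Fin.sum_univ_six (fun i : Fin 6 => f i)
  exact this

lemma closure_rel :
    ell S R 1 - ell S R 4 = ell S R 3 - ell S R 0 ∧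
    ell S R 1 - ell S R 4 = ell S R 5 - ell S R 2 := by
  have h1 := closure hS hR Prod.fst (fun _ _ => rfl)
  have h2 := closure hS hR Prod.snd (fun _ _ => rfl)
  rw [sum_zmod6] at h1 h2
  have e0 : e 0 = (1, 0) := rfl
  have e1 : e 1 = (0, 1) := rfl
  have e2 : e 2 = (-1, 1) := rfl
  have e3 : e 3 = (-1, 0) := rfl
  have e4 : e 4 = (0, -1) := rfl
  have e5 : e 5 = (1, -1) := rfl
  rw [e0, e1, e2, e3, e4, e5] at h1 h2
  simp only at h1 h2
  constructor <;> linarith

/-- difference between the number of arcs in direction `t` and in the opposite direction. -/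
noncomputable def Dk (S : Finset Pt) (R : Set Pt) (t : ZMod 6) : ℤ := ell S R t - ell S R (t + 3)

lemma Dk_add_two (t : ZMod 6) : Dk S R (t + 2) = Dk S R t := by
  have h := closure_rel hS hR
  unfold Dk
  rcases zmod6_cases t with rfl | rfl | rfl | rfl | rfl | rfl
  · show ell S R 2 - ell S R 5 = ell S R 0 - ell S R 3
    linarith [h.1, h.2]
  · show ell S R 3 - ell S R 0 = ell S R 1 - ell S R 4
    linarith [h.1, h.2]
  · show ell S R 4 - ell S R 1 = ell S R 2 - ell S R 5
    linarith [h.1, h.2]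
  · show ell S R 5 - ell S R 2 = ell S R 3 - ell S R 0
    linarith [h.1, h.2]
  · show ell S R 0 - ell S R 3 = ell S R 4 - ell S R 1
    linarith [h.1, h.2]
  · show ell S R 1 - ell S R 4 = ell S R 5 - ell S R 2
    linarith [h.1, h.2]

/-- the turning number -/
noncomputable def TT (S : Finset Pt) (R : Set Pt) (t : ZMod 6) : ℤ := evL S R t - evR S R (t + 5)

lemma TT_succ (t : ZMod 6) : TT S R (t + 1) = TT S R t := by
  have h1 := ell_eq_tail hS hR t
  have h2 := ell_eq_head hS hR t
  unfold TT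
  have six : (6 : ZMod 6) = 0 := by decide
  rw [show t + 1 + 5 = t by linear_combination six]
  linarith

/-- The key local bound. -/
lemma evB_bound (t : ZMod 6) (hk : 1 ≤ Dk S R t) :
    evB S R t ≤ TT S R t - 1 + evR S R (t + 5) + evR S R t := by
  have h1 : evL S R t = TT S R t + evR S R (t + 5) := by unfold TT; ring
  have h2 : evL S R (t + 1) = TT S R t + evR S R t := by
    rw [← TT_succ hS hR t]; unfold TT
    have six : (6 : ZMod 6) = 0 := by decide
    rw [show t + 1 + 5 = t by linear_combination six]; ring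
  have b1 := evB_le_tail (S := S) (R := R) t
  have b2 := evB_le_head (S := S) (R := R) t
  have n1 := evR_nonneg (S := S) (R := R) t
  have n2 := evR_nonneg (S := S) (R := R) (t + 5)
  by_cases c1 : 1 ≤ evR S R t
  · linarith
  by_cases c2 : 1 ≤ evR S R (t + 5)
  · linarith
  have c1' : evR S R t = 0 := by omega
  have c2' : evR S R (t + 5) = 0 := by omega
  by_cases c3 : 0 < ev0 S R t
  · have := evB_lt hS hR t c3 c1'
    linarith
  · exfalso
    have c3' : ev0 S R t = 0 := by
      have := ev0_nonneg (S := S) (R := R) t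
      omega
    have l1 := ell_eq_tail hS hR t
    have l2 := ell_eq_head hS hR (t + 3)
    have l3 := ell_eq_tail hS hR (t + 3)
    have t3 : TT S R (t + 3) = TT S R t := by
      have := TT_succ hS hR t
      have h' := TT_succ hS hR (t + 1)
      have h'' := TT_succ hS hR (t + 1 + 1)
      rw [show t + 3 = t + 1 + 1 + 1 by ring]
      rw [h'', h', this]
    have t3' : TT S R (t + 3) = evL S R (t + 3) - evR S R (t + 3 + 5) := rfl
    have n3 := evR_nonneg (S := S) (R := R) (t + 3 + 5)
    have n4 := evR_nonneg (S := S) (R := R) (t + 3)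
    have n5 := ev0_nonneg (S := S) (R := R) (t + 3)
    unfold Dk at hk
    linarith

/-- **Slack lemma.** -/
theorem slack (p : ZMod 6) (hk : 1 ≤ Dk S R p) :
    9 + 2 * (evB S R p + evB S R (p + 2) + evB S R (p + 4)) +
      2 * (ev0 S R (p + 1) + ev0 S R (p + 3) + ev0 S R (p + 5)) ≤ ∑ t : ZMod 6, ell S R t := by
  have six : (6 : ZMod 6) = 0 := by decide
  have hsum : ∑ t : ZMod 6, ell S R t = ell S R p + ell S R (p + 1) + ell S R (p + 2) +
      ell S R (p + 3) + ell S R (p + 4) + ell S R (p + 5) := by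
    have : ∑ t : ZMod 6, ell S R t = ∑ t : ZMod 6, ell S R (p + t) :=
      (Fintype.sum_equiv (Equiv.addLeft p) _ _ (fun t => by simp)).symm
    rw [this, sum_zmod6, add_zero]
  have k2 := Dk_add_two hS hR p
  have k4 := Dk_add_two hS hR (p + 2)
  rw [show p + 2 + 2 = p + 4 by ring] at k4
  have hk2 : 1 ≤ Dk S R (p + 2) := by rw [k2]; exact hk
  have hk4 : 1 ≤ Dk S R (p + 4) := by rw [k4, k2]; exact hk
  have b0 := evB_bound hS hR p hk
  have b2 := evB_bound hS hR (p + 2) hk2
  have b4 := evB_bound hS hR (p + 4) hk4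
  rw [show p + 2 + 5 = p + 1 by linear_combination six] at b2
  rw [show p + 4 + 5 = p + 3 by linear_combination six] at b4
  have T1 := TT_succ hS hR p
  have T2 := TT_succ hS hR (p + 1)
  have T3 := TT_succ hS hR (p + 2)
  have T4 := TT_succ hS hR (p + 3)
  have T5 := TT_succ hS hR (p + 4)
  rw [show p + 1 + 1 = p + 2 by ring] at T2
  rw [show p + 2 + 1 = p + 3 by ring] at T3
  rw [show p + 3 + 1 = p + 4 by ring] at T4
  rw [show p + 4 + 1 = p + 5 by ring] at T5
  have d0 : Dk S R p = ell S R p - ell S R (p + 3) := rfl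
  have d2 : Dk S R (p + 2) = ell S R (p + 2) - ell S R (p + 5) := by
    unfold Dk; rw [show p + 2 + 3 = p + 5 by ring]
  have d4 : Dk S R (p + 4) = ell S R (p + 4) - ell S R (p + 1) := by
    unfold Dk; rw [show p + 4 + 3 = p + 1 by linear_combination six]
  have l1 := ell_eq_tail hS hR (p + 1)
  have l3 := ell_eq_tail hS hR (p + 3)
  have l5 := ell_eq_tail hS hR (p + 5)
  have u1 : TT S R (p + 1) = evL S R (p + 1) - evR S R p := by
    unfold TT; rw [show p + 1 + 5 = p by linear_combination six]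
  have u3 : TT S R (p + 3) = evL S R (p + 3) - evR S R (p + 2) := by
    unfold TT; rw [show p + 3 + 5 = p + 2 by linear_combination six]
  have u5 : TT S R (p + 5) = evL S R (p + 5) - evR S R (p + 4) := by
    unfold TT; rw [show p + 5 + 5 = p + 4 by linear_combination six]
  rw [hsum]
  linarith

/-- If the number of boundary arcs is odd then one of the two spin classes has positive excess. -/
theorem exists_spin (hodd : Odd (∑ t : ZMod 6, ell S R t)) :
    1 ≤ Dk S R 0 ∨ 1 ≤ Dk S R 1 := by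
  have h := closure_rel hS hR
  rw [sum_zmod6] at hodd
  have e0 : Dk S R 0 = ell S R 0 - ell S R 3 := rfl
  have e1 : Dk S R 1 = ell S R 1 - ell S R 4 := rfl
  obtain ⟨m, hm⟩ := hodd
  rcases lt_trichotomy (Dk S R 1) 0 with h1 | h1 | h1
  · left; rw [e0]; omega
  · omega
  · right; omega

end basic

end TriLat
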