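import Pool.Agent.Helper83.Tri.Vertex

set_option autoImplicit false

namespace TriLat

open Finset

/-- A family of regions with the packing properties. -/
structure Fam (S : Finset Pt) {I : Type} (R : I → Set Pt) : Prop where
  tf : TFree S
  reg : ∀ i, IsRegion S (R i)
  P1 : ∀ i j v t, Bd S (R i) v t → Bd S (R j) v t → i = j
  P2 : ∀ i j v t, Bd S (R i) v t → Bd S (R j) (v + e t) (t + 3) → ∀ x, x ∈ R i → x ∉ R j

variable {S : Finset Pt} {I : Type} {R : I → Set Pt}

lemma Fam.lfam (F : Fam S R) {v : Pt} (hv : v ∈ S) :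
    LFam (fun i t => Bd S (R i) v t) (fun i s => BIn S (R i) v s) (fun t => v + e t ∈ S) where
  sO i t h := h.mem.2
  sI i t h := h.mem.2
  L1 t h := F.tf v hv t h
  cO i t h := Bd.cases F.tf (F.reg i) h
  cI i s h := BIn.cases F.tf (F.reg i) h
  uO i t t' h h' := Bd.unique F.tf (F.reg i) h h'
  uI i t t' h h' := BIn.unique F.tf (F.reg i) h h'
  pO i j t h h' := F.P1 i j v t h h'
  pI i j t h h' := F.P1 i j _ _ h h'
  pR i j s h h' h3 := by
    have ci := (F.reg i).cfg F.tf hv
    have cj := (F.reg j).cfg F.tf hv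
    have hd : ∀ x, x ∈ R i → x ∉ R j := by
      rcases h3 with h3 | h3
      · intro x hx hx'
        exact F.P2 j i v s h3 h x hx' hx
      · exact F.P2 i j v (s + 2) h' h3
    unfold BIn at *
    rw [bd_in_iff' hv] at h
    rw [bd_out_iff' hv] at h'
    rw [bd_out_iff' hv, bd_in_iff' hv] at h3 ⊢
    exact ci.pairR cj (fun s hs => hd _ hs) h h' h3
  pS i j t h h' h3 := by
    have ci := (F.reg i).cfg F.tf hv
    have cj := (F.reg j).cfg F.tf hv
    unfold BIn at *
    rw [bd_in_iff' hv] at h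
    rw [bd_out_iff' hv] at h'
    rw [bd_out_iff' hv, bd_in_iff' hv] at h3 ⊢
    exact ci.pairS cj h h' h3

/-- the Q predicates at a vertex -/
abbrev QO (S : Finset Pt) (R : I → Set Pt) (q : I → Bool) (i : I) (v : Pt) (t : ZMod 6) : Prop :=
  Qo (fun i t => Bd S (R i) v t) (fun i s => BIn S (R i) v s) q i t
abbrev QI (S : Finset Pt) (R : I → Set Pt) (q : I → Bool) (i : I) (v : Pt) (t : ZMod 6) : Prop :=
  Qi (fun i t => Bd S (R i) v t) (fun i s => BIn S (R i) v s) q i t

lemma QI_iff (q : I → Bool) (i : I) (v : Pt) (t : ZMod 6) :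
    QI S R q i v (t + 3) ↔ QO S R q i (v - e t) t := by
  have six : (6 : ZMod 6) = 0 := by decide
  unfold QI QO Qi Qo
  simp only
  rw [BIn.iff_bd, show t + 3 + 3 = t by linear_combination six]
  have : ∀ j, Bd S (R j) v (t + 3) ↔ BIn S (R j) (v - e t) t := by
    intro j
    unfold BIn
    rw [sub_add_cancel]
  simp only [this]

lemma sum_QI (q : I → Bool) (i : I) (t : ZMod 6) :
    ∑ v ∈ S, ind (QI S R q i v (t + 3)) = ∑ v ∈ S, ind (QO S R q i v t) := by
  rw [sum_shift S (fun v => ind (QO S R q i v t)) (e t)]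
  · exact Finset.sum_congr rfl (fun v _ => ind_congr (QI_iff q i v t))
  · intro v hv
    by_contra h
    exact hv (ind_false (fun h' => h h'.1.mem))

lemma sum_QI' (q : I → Bool) (i : I) (t : ZMod 6) :
    ∑ v ∈ S, ind (QI S R q i v (t + 3) ∧ Bd S (R i) v (t + 3 + 4)) =
    ∑ v ∈ S, ind (QO S R q i v t ∧ Bd S (R i) (v + e t) (t + 1)) := by
  have six : (6 : ZMod 6) = 0 := by decide
  rw [sum_shift S (fun v => ind (QO S R q i v t ∧ Bd S (R i) (v + e t) (t + 1))) (e t)]
  · refine Finset.sum_congr rfl (fun v _ => ind_congr ?_)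
    rw [QI_iff q i v t, sub_add_cancel, show t + 3 + 4 = t + 1 by linear_combination six]
  · intro v hv
    by_contra h
    exact hv (ind_false (fun h' => h h'.1.1.mem))

lemma sum_rot (f : ZMod 6 → ℤ) : ∑ s : ZMod 6, f s = ∑ t : ZMod 6, f (t + 3) :=
  (Fintype.sum_equiv (Equiv.addRight 3) _ _ (fun t => by simp)).symm

lemma Fam.region_sum (F : Fam S R) (q : I → Bool) (i : I)
    (hq : 1 ≤ Dk S (R i) (if q i then 1 else 0)) :
    ∑ v ∈ S, locF (fun i t => Bd S (R i) v t) (fun i s => BIn S (R i) v s) q i ≤ -9 := by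
  have hsl := slack F.tf (F.reg i) _ hq
  -- rewrite slack
  have hsl2 : 9 + 2 * (∑ t : ZMod 6, ∑ v ∈ S, ind (par t = q i ∧ Bd S (R i) v t ∧
        BIn S (R i) v (t + 2) ∧ Bd S (R i) (v + e t) (t + 1))) +
      2 * (∑ t : ZMod 6, ∑ v ∈ S, ind (Bd S (R i) v t ∧ BIn S (R i) v (t + 3) ∧ par t ≠ q i)) ≤
      ∑ t : ZMod 6, ell S (R i) t := by
    have hB : ∀ t : ZMod 6, ∑ v ∈ S, ind (par t = q i ∧ Bd S (R i) v t ∧
        BIn S (R i) v (t + 2) ∧ Bd S (R i) (v + e t) (t + 1)) =
        if par t = q i then evB S (R i) t else 0 := by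
      intro t
      split_ifs with h
      · unfold evB
        exact Finset.sum_congr rfl (fun v _ => ind_congr ⟨fun h' => h'.2, fun h' => ⟨h, h'⟩⟩)
      · exact Finset.sum_eq_zero (fun v _ => ind_false (fun h' => h h'.1))
    have h0 : ∀ t : ZMod 6, ∑ v ∈ S, ind (Bd S (R i) v t ∧ BIn S (R i) v (t + 3) ∧ par t ≠ q i) =
        if par t = q i then 0 else ev0 S (R i) t := by
      intro t
      split_ifs with h
      · exact Finset.sum_eq_zero (fun v _ => ind_false (fun h' => h'.2.2 h))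
      · unfold ev0
        exact Finset.sum_congr rfl (fun v _ => ind_congr
          ⟨fun h' => ⟨h'.1, h'.2.1⟩, fun h' => ⟨h'.1, h'.2, h⟩⟩)
    simp only [hB, h0]
    rw [sum_zmod6 (fun t => if par t = q i then evB S (R i) t else 0),
      sum_zmod6 (fun t => if par t = q i then 0 else ev0 S (R i) t)]
    have p0 : par 0 = false := by decide
    have p1 : par 1 = true := by decide
    have p2 : par 2 = false := by decide
    have p3 : par 3 = true := by decide
    have p4 : par 4 = false := by decide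
    have p5 : par 5 = true := by decide
    rw [p0, p1, p2, p3, p4, p5]
    cases hqi : q i
    · rw [hqi] at hsl
      simp only [Bool.false_eq_true, if_false] at hsl
      have z2 : (0 : ZMod 6) + 2 = 2 := by decide
      have z4 : (0 : ZMod 6) + 4 = 4 := by decide
      have z1 : (0 : ZMod 6) + 1 = 1 := by decide
      have z3 : (0 : ZMod 6) + 3 = 3 := by decide
      have z5 : (0 : ZMod 6) + 5 = 5 := by decide
      rw [z1, z2, z3, z4, z5] at hsl
      simp
      linarith
    · rw [hqi] at hsl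
      simp only [if_true] at hsl
      have z2 : (1 : ZMod 6) + 2 = 3 := by decide
      have z4 : (1 : ZMod 6) + 4 = 5 := by decide
      have z1 : (1 : ZMod 6) + 1 = 2 := by decide
      have z3 : (1 : ZMod 6) + 3 = 4 := by decide
      have z5 : (1 : ZMod 6) + 5 = 0 := by decide
      rw [z1, z2, z3, z4, z5] at hsl
      simp
      linarith
  -- expand the sum of locF
  have hexp : ∑ v ∈ S, locF (fun i t => Bd S (R i) v t) (fun i s => BIn S (R i) v s) q i =
      2 * (∑ t : ZMod 6, ∑ v ∈ S, ind (QO S R q i v t ∧ BIn S (R i) v (t + 2)) +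
        ∑ t : ZMod 6, ∑ v ∈ S, ind (QI S R q i v (t + 3) ∧ Bd S (R i) v (t + 3 + 4))) +
      2 * (∑ t : ZMod 6, ∑ v ∈ S, ind (Bd S (R i) v t ∧ BIn S (R i) v (t + 3) ∧ par t ≠ q i))
      - ∑ t : ZMod 6, ∑ v ∈ S, ind (QO S R q i v t)
      - ∑ t : ZMod 6, ∑ v ∈ S, ind (QI S R q i v (t + 3))
      - ∑ t : ZMod 6, ell S (R i) t := by
    unfold locF ell
    rw [Finset.sum_comm (s := (Finset.univ : Finset (ZMod 6))) (t := S),
      Finset.sum_comm (s := (Finset.univ : Finset (ZMod 6))) (t := S),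
      Finset.sum_comm (s := (Finset.univ : Finset (ZMod 6))) (t := S),
      Finset.sum_comm (s := (Finset.univ : Finset (ZMod 6))) (t := S),
      Finset.sum_comm (s := (Finset.univ : Finset (ZMod 6))) (t := S),
      Finset.sum_comm (s := (Finset.univ : Finset (ZMod 6))) (t := S)]
    rw [Finset.sum_sub_distrib, Finset.sum_sub_distrib, Finset.sum_sub_distrib,
      Finset.sum_add_distrib, ← Finset.mul_sum, ← Finset.mul_sum, Finset.sum_add_distrib]
    have r1 : ∀ v, ∑ s : ZMod 6, ind (QI S R q i v s ∧ Bd S (R i) v (s + 4)) =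
        ∑ t : ZMod 6, ind (QI S R q i v (t + 3) ∧ Bd S (R i) v (t + 3 + 4)) :=
      fun v => sum_rot (fun s => ind (QI S R q i v s ∧ Bd S (R i) v (s + 4)))
    have r2 : ∀ v, ∑ s : ZMod 6, ind (QI S R q i v s) =
        ∑ t : ZMod 6, ind (QI S R q i v (t + 3)) :=
      fun v => sum_rot (fun s => ind (QI S R q i v s))
    simp only [← r1, ← r2]
  rw [hexp]
  have e1 : ∑ t : ZMod 6, ∑ v ∈ S, ind (QI S R q i v (t + 3)) =
      ∑ t : ZMod 6, ∑ v ∈ S, ind (QO S R q i v t) :=
    Finset.sum_congr rfl (fun t _ => sum_QI q i t)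
  have e2 : ∑ t : ZMod 6, ∑ v ∈ S, ind (QI S R q i v (t + 3) ∧ Bd S (R i) v (t + 3 + 4)) =
      ∑ t : ZMod 6, ∑ v ∈ S, ind (QO S R q i v t ∧ Bd S (R i) (v + e t) (t + 1)) :=
    Finset.sum_congr rfl (fun t _ => sum_QI' q i t)
  rw [e1, e2]
  have key : ∑ t : ZMod 6, ∑ v ∈ S, ind (QO S R q i v t ∧ BIn S (R i) v (t + 2)) +
      ∑ t : ZMod 6, ∑ v ∈ S, ind (QO S R q i v t ∧ Bd S (R i) (v + e t) (t + 1)) ≤
      ∑ t : ZMod 6, ∑ v ∈ S, ind (QO S R q i v t) +
      ∑ t : ZMod 6, ∑ v ∈ S, ind (par t = q i ∧ Bd S (R i) v t ∧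
        BIn S (R i) v (t + 2) ∧ Bd S (R i) (v + e t) (t + 1)) := by
    rw [← Finset.sum_add_distrib, ← Finset.sum_add_distrib]
    refine Finset.sum_le_sum (fun t _ => ?_)
    rw [← Finset.sum_add_distrib, ← Finset.sum_add_distrib]
    refine Finset.sum_le_sum (fun v _ => ?_)
    by_cases hQ : QO S R q i v t
    · by_cases hA : BIn S (R i) v (t + 2)
      · by_cases hB : Bd S (R i) (v + e t) (t + 1)
        · rw [ind_true ⟨hQ, hA⟩, ind_true (p := QO S R q i v t ∧ Bd S (R i) (v + e t) (t + 1))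
            ⟨hQ, hB⟩, ind_true hQ, ind_true ⟨hQ.2.1, hQ.1, hA, hB⟩]
        · rw [ind_true ⟨hQ, hA⟩, ind_false (p := QO S R q i v t ∧ Bd S (R i) (v + e t) (t + 1))
            (fun h => hB h.2), ind_true hQ]
          have := ind_nonneg (par t = q i ∧ Bd S (R i) v t ∧
            BIn S (R i) v (t + 2) ∧ Bd S (R i) (v + e t) (t + 1))
          linarith
      · rw [ind_false (p := QO S R q i v t ∧ BIn S (R i) v (t + 2)) (fun h => hA h.2), ind_true hQ]
        have := ind_nonneg (par t = q i ∧ Bd S (R i) v t ∧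
            BIn S (R i) v (t + 2) ∧ Bd S (R i) (v + e t) (t + 1))
        have := ind_le_one (QO S R q i v t ∧ Bd S (R i) (v + e t) (t + 1))
        linarith
    · rw [ind_false (p := QO S R q i v t ∧ BIn S (R i) v (t + 2)) (fun h => hQ h.1),
        ind_false (p := QO S R q i v t ∧ Bd S (R i) (v + e t) (t + 1)) (fun h => hQ h.1),
        ind_false hQ]
      have := ind_nonneg (par t = q i ∧ Bd S (R i) v t ∧
            BIn S (R i) v (t + 2) ∧ Bd S (R i) (v + e t) (t + 1))
      linarith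
  linarith

/-- **Theorem A.** -/
theorem thmA [Fintype I] (F : Fam S R)
    (P3 : ∀ i, Odd (∑ t : ZMod 6, ell S (R i) t)) : 9 * Fintype.card I ≤ 2 * S.card := by
  classical
  have hq : ∀ i, ∃ b : Bool, 1 ≤ Dk S (R i) (if b then 1 else 0) := by
    intro i
    rcases exists_spin F.tf (F.reg i) (P3 i) with h | h
    · exact ⟨false, by simpa using h⟩
    · exact ⟨true, by simpa using h⟩
  choose q hq using hq
  have h1 : ∀ v ∈ S, -2 ≤ ∑ i, locF (fun i t => Bd S (R i) v t)
      (fun i s => BIn S (R i) v s) q i := fun v hv => (F.lfam hv).local_ineq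
  have h2 : ∑ v ∈ S, (-2 : ℤ) ≤ ∑ v ∈ S, ∑ i, locF (fun i t => Bd S (R i) v t)
      (fun i s => BIn S (R i) v s) q i := Finset.sum_le_sum h1
  rw [Finset.sum_comm] at h2
  have h3 : ∑ i, ∑ v ∈ S, locF (fun i t => Bd S (R i) v t)
      (fun i s => BIn S (R i) v s) q i ≤ ∑ i : I, (-9 : ℤ) :=
    Finset.sum_le_sum (fun i _ => F.region_sum q i (hq i))
  have h4 := h2.trans h3
  rw [Finset.sum_const, Finset.sum_const, nsmul_eq_mul, nsmul_eq_mul, Finset.card_univ] at h4
  have : ((9 * Fintype.card I : ℕ) : ℤ) ≤ ((2 * S.card : ℕ) : ℤ) := by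
    push_cast; linarith
  exact_mod_cast this

end TriLat
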