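import Pool.Agent.Helper83.Tri.Slack

set_option autoImplicit false

namespace TriLat

open Finset

/-- parity of a direction -/
def par (t : ZMod 6) : Bool := decide (t = 1 ∨ t = 3 ∨ t = 5)

lemma par_add_one : ∀ t : ZMod 6, par (t + 1) = !par t := by decide
lemma par_add_two : ∀ t : ZMod 6, par (t + 2) = par t := by decide
lemma par_add_three : ∀ t : ZMod 6, par (t + 3) = !par t := by decide
lemma par_add_four : ∀ t : ZMod 6, par (t + 4) = par t := by decide

lemma indep_card : ∀ D : Finset (ZMod 6), (∀ t ∈ D, t + 1 ∉ D) →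
    D.card ≤ 3 ∧ (D.card = 3 → ∀ t ∈ D, t + 2 ∈ D ∧ t + 4 ∈ D) := by
  decide

/-- The axioms at a vertex for a family of regions. -/
structure LFam {I : Type} (Out In : I → ZMod 6 → Prop) (σ : ZMod 6 → Prop) : Prop where
  sO : ∀ i t, Out i t → σ t
  sI : ∀ i t, In i t → σ t
  L1 : ∀ t, σ t → ¬ σ (t + 1)
  cO : ∀ i t, Out i t → In i (t + 2) ∨ In i (t + 3) ∨ In i (t + 4)
  cI : ∀ i s, In i s → Out i (s + 4) ∨ Out i (s + 3) ∨ Out i (s + 2)
  uO : ∀ i t t', Out i t → Out i t' → t = t'
  uI : ∀ i t t', In i t → In i t' → t = t'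
  pO : ∀ i j t, Out i t → Out j t → i = j
  pI : ∀ i j t, In i t → In j t → i = j
  pR : ∀ i j s, In i s → Out i (s + 2) → (Out j s ∨ In j (s + 2)) → Out j s ∧ In j (s + 2)
  pS : ∀ i j t, In i (t + 3) → Out i t → (Out j (t + 3) ∨ In j t) → Out j (t + 3) ∧ In j t

section
variable {I : Type} (Out In : I → ZMod 6 → Prop) (q : I → Bool)

def Qo (i : I) (t : ZMod 6) : Prop := Out i t ∧ par t = q i ∧ ∃ j, In j t ∧ q j = q i
def Qi (i : I) (s : ZMod 6) : Prop := In i s ∧ par (s + 3) = q i ∧ ∃ j, Out j s ∧ q j = q i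

noncomputable def locF (i : I) : ℤ :=
  2 * (∑ t : ZMod 6, ind (Qo Out In q i t ∧ In i (t + 2)) +
       ∑ s : ZMod 6, ind (Qi Out In q i s ∧ Out i (s + 4))) +
  2 * ∑ t : ZMod 6, ind (Out i t ∧ In i (t + 3) ∧ par t ≠ q i)
  - ∑ t : ZMod 6, ind (Qo Out In q i t) - ∑ s : ZMod 6, ind (Qi Out In q i s)
  - ∑ t : ZMod 6, ind (Out i t)
end

lemma sum_ind_unique (P : ZMod 6 → Prop) (t : ZMod 6) (h : ∀ t', P t' → t' = t) :
    ∑ t' : ZMod 6, ind (P t') = ind (P t) := by
  apply Finset.sum_eq_single t
  · intro b _ hb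
    exact ind_false (fun h' => hb (h b h'))
  · intro h'; exact absurd (Finset.mem_univ t) h'

section
variable {I : Type} {Out In : I → ZMod 6 → Prop} {σ : ZMod 6 → Prop} {q : I → Bool}
  (H : LFam Out In σ)
include H

lemma LFam.locF_eq {i : I} {t s : ZMod 6} (ht : Out i t) (hs : In i s) :
    locF Out In q i = 2 * (ind (Qo Out In q i t ∧ In i (t + 2)) +
       ind (Qi Out In q i s ∧ Out i (s + 4))) + 2 * ind (Out i t ∧ In i (t + 3) ∧ par t ≠ q i)
      - ind (Qo Out In q i t) - ind (Qi Out In q i s) - 1 := by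
  unfold locF
  rw [sum_ind_unique (fun t => Qo Out In q i t ∧ In i (t + 2)) t
      (fun t' h => H.uO i _ _ h.1.1 ht),
    sum_ind_unique (fun s => Qi Out In q i s ∧ Out i (s + 4)) s
      (fun t' h => H.uI i _ _ h.1.1 hs),
    sum_ind_unique (fun t => Out i t ∧ In i (t + 3) ∧ par t ≠ q i) t
      (fun t' h => H.uO i _ _ h.1 ht),
    sum_ind_unique (fun t => Qo Out In q i t) t (fun t' h => H.uO i _ _ h.1 ht),
    sum_ind_unique (fun s => Qi Out In q i s) s (fun t' h => H.uI i _ _ h.1 hs),
    sum_ind_unique (fun t => Out i t) t (fun t' h => H.uO i _ _ h ht), ind_true ht]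

lemma LFam.locF_zero {i : I} (h : ¬ ∃ t, Out i t) : locF Out In q i = 0 := by
  have h1 : ∀ t, ¬ Out i t := fun t ht => h ⟨t, ht⟩
  have h2 : ∀ s, ¬ In i s := fun s hs => by
    rcases H.cI i s hs with h | h | h <;> exact h1 _ h
  unfold locF
  have z1 : ∀ t : ZMod 6, ind (Qo Out In q i t ∧ In i (t + 2)) = 0 :=
    fun t => ind_false (fun h => h1 _ h.1.1)
  have z2 : ∀ s : ZMod 6, ind (Qi Out In q i s ∧ Out i (s + 4)) = 0 :=
    fun t => ind_false (fun h => h2 _ h.1.1)
  have z3 : ∀ t : ZMod 6, ind (Out i t ∧ In i (t + 3) ∧ par t ≠ q i) = 0 :=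
    fun t => ind_false (fun h => h1 _ h.1)
  have z4 : ∀ t : ZMod 6, ind (Qo Out In q i t) = 0 := fun t => ind_false (fun h => h1 _ h.1)
  have z5 : ∀ t : ZMod 6, ind (Qi Out In q i t) = 0 := fun t => ind_false (fun h => h2 _ h.1)
  have z6 : ∀ t : ZMod 6, ind (Out i t) = 0 := fun t => ind_false (h1 t)
  simp only [z1, z2, z3, z4, z5, z6]
  simp

/-- L type -/
lemma LFam.locF_L {i : I} {t : ZMod 6} (ht : Out i t) (hs : In i (t + 2)) :
    locF Out In q i = ind (Qo Out In q i t) + ind (Qi Out In q i (t + 2)) - 1 := by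
  have six : (6 : ZMod 6) = 0 := by decide
  rw [H.locF_eq ht hs]
  have a1 : ind (Qo Out In q i t ∧ In i (t + 2)) = ind (Qo Out In q i t) :=
    ind_congr ⟨fun h => h.1, fun h => ⟨h, hs⟩⟩
  have a2 : ind (Qi Out In q i (t + 2) ∧ Out i (t + 2 + 4)) = ind (Qi Out In q i (t + 2)) :=
    ind_congr ⟨fun h => h.1, fun h => ⟨h, by
      rw [show t + 2 + 4 = t by linear_combination six]; exact ht⟩⟩
  have a3 : ind (Out i t ∧ In i (t + 3) ∧ par t ≠ q i) = 0 := by
    apply ind_false
    rintro ⟨_, h2, _⟩
    exact absurd (add_left_cancel (H.uI i _ _ hs h2)) (by decide)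
  rw [a1, a2, a3]; ring

/-- R type -/
lemma LFam.locF_R {i : I} {t : ZMod 6} (ht : Out i t) (hs : In i (t + 4)) :
    locF Out In q i = - ind (Qo Out In q i t) - ind (Qi Out In q i (t + 4)) - 1 := by
  have six : (6 : ZMod 6) = 0 := by decide
  rw [H.locF_eq ht hs]
  have a1 : ind (Qo Out In q i t ∧ In i (t + 2)) = 0 := by
    apply ind_false
    rintro ⟨_, h2⟩
    exact absurd (add_left_cancel (H.uI i _ _ hs h2)) (by decide)
  have a2 : ind (Qi Out In q i (t + 4) ∧ Out i (t + 4 + 4)) = 0 := by
    apply ind_false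
    rintro ⟨_, h2⟩
    have h3 := H.uO i _ _ ht h2
    have : (0 : ZMod 6) = 2 := by linear_combination h3 + six
    exact absurd this (by decide)
  have a3 : ind (Out i t ∧ In i (t + 3) ∧ par t ≠ q i) = 0 := by
    apply ind_false
    rintro ⟨_, h2, _⟩
    exact absurd (add_left_cancel (H.uI i _ _ hs h2)) (by decide)
  rw [a1, a2, a3]; ring

/-- S type -/
lemma LFam.locF_S {i : I} {t : ZMod 6} (ht : Out i t) (hs : In i (t + 3)) :
    locF Out In q i = 2 * ind (par t ≠ q i) - ind (Qo Out In q i t)
      - ind (Qi Out In q i (t + 3)) - 1 := by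
  have six : (6 : ZMod 6) = 0 := by decide
  rw [H.locF_eq ht hs]
  have a1 : ind (Qo Out In q i t ∧ In i (t + 2)) = 0 := by
    apply ind_false
    rintro ⟨_, h2⟩
    exact absurd (add_left_cancel (H.uI i _ _ hs h2)) (by decide)
  have a2 : ind (Qi Out In q i (t + 3) ∧ Out i (t + 3 + 4)) = 0 := by
    apply ind_false
    rintro ⟨_, h2⟩
    have h3 := H.uO i _ _ ht h2
    have : (0 : ZMod 6) = 1 := by linear_combination h3 + six
    exact absurd this (by decide)
  have a3 : ind (Out i t ∧ In i (t + 3) ∧ par t ≠ q i) = ind (par t ≠ q i) :=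
    ind_congr ⟨fun h => h.2.2, fun h => ⟨ht, hs, h⟩⟩
  rw [a1, a2, a3]; ring

lemma LFam.L_ge {i : I} {t : ZMod 6} (ht : Out i t) (hs : In i (t + 2)) :
    -1 ≤ locF Out In q i := by
  rw [H.locF_L ht hs]
  have := ind_nonneg (Qo Out In q i t)
  have := ind_nonneg (Qi Out In q i (t + 2))
  linarith

lemma LFam.R_ge {i : I} {t : ZMod 6} (ht : Out i t) (hs : In i (t + 4)) :
    -2 ≤ locF Out In q i := by
  rw [H.locF_R ht hs]
  by_cases h : par t = q i
  · have h2 : ¬ Qi Out In q i (t + 4) := by
      rintro ⟨_, h3, _⟩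
      rw [par_add_three, par_add_four, h] at h3
      cases h4 : q i <;> simp [h4] at h3
    rw [ind_false h2]
    have := ind_le_one (Qo Out In q i t)
    linarith
  · have h2 : ¬ Qo Out In q i t := fun h3 => h h3.2.1
    rw [ind_false h2]
    have := ind_le_one (Qi Out In q i (t + 4))
    linarith

/-- partner lemma: a vertex contribution `≤ -2` is compensated. -/
lemma LFam.partner {i : I} (hP : ∃ t, Out i t) (hF : locF Out In q i ≤ -2) :
    ∃ j, j ≠ i ∧ (∃ t, Out j t) ∧ -2 ≤ locF Out In q i + locF Out In q j := by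
  have six : (6 : ZMod 6) = 0 := by decide
  obtain ⟨t, ht⟩ := hP
  rcases H.cO i t ht with hs | hs | hs
  · have := H.L_ge (q := q) ht hs
    exfalso; linarith
  · -- straight
    have hpar : par t = q i := by
      by_contra hne
      have h1 : ¬ Qo Out In q i t := fun h => hne h.2.1
      have h2 : ¬ Qi Out In q i (t + 3) := fun h => hne (by
        have := h.2.1
        rwa [par_add_three, par_add_three, Bool.not_not] at this)
      rw [H.locF_S ht hs, ind_true hne, ind_false h1, ind_false h2] at hF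
      norm_num at hF
    have key : ∃ j, (Out j (t + 3) ∨ In j t) ∧ q j = q i := by
      by_contra hcon
      push Not at hcon
      have h1 : ¬ Qo Out In q i t := fun h => by
        obtain ⟨j, hj, hq⟩ := h.2.2
        exact hcon j (Or.inr hj) hq
      have h2 : ¬ Qi Out In q i (t + 3) := fun h => by
        obtain ⟨j, hj, hq⟩ := h.2.2
        exact hcon j (Or.inl hj) hq
      rw [H.locF_S ht hs, ind_false h1, ind_false h2] at hF
      have := ind_nonneg (par t ≠ q i)
      linarith
    obtain ⟨j, hj, hq⟩ := key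
    have hj2 := H.pS i j t hs ht hj
    have hji : j ≠ i := by
      rintro rfl
      have h3 := H.uO _ _ _ ht hj2.1
      have : (0 : ZMod 6) = 3 := by linear_combination h3
      exact absurd this (by decide)
    refine ⟨j, hji, ⟨_, hj2.1⟩, ?_⟩
    have hin : In j (t + 3 + 3) := by
      rw [show t + 3 + 3 = t by linear_combination six]; exact hj2.2
    have hne : par (t + 3) ≠ q j := by
      rw [par_add_three, hpar, hq]
      cases q i <;> simp
    have h1 : ¬ Qo Out In q j (t + 3) := fun h => hne h.2.1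
    have h2 : ¬ Qi Out In q j (t + 3 + 3) := fun h => hne (by
      have := h.2.1
      rwa [par_add_three, par_add_three (t + 3), Bool.not_not] at this)
    rw [H.locF_S hj2.1 hin, ind_true hne, ind_false h1, ind_false h2, H.locF_S ht hs]
    have := ind_le_one (Qo Out In q i t)
    have := ind_le_one (Qi Out In q i (t + 3))
    have := ind_nonneg (par t ≠ q i)
    linarith
  · -- right turn
    have key : ∃ j, (Out j (t + 4) ∨ In j (t + 4 + 2)) ∧ q j = q i := by
      by_contra hcon
      push Not at hcon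
      have h1 : ¬ Qo Out In q i t := fun h => by
        obtain ⟨j, hj, hq⟩ := h.2.2
        refine hcon j (Or.inr ?_) hq
        rw [show t + 4 + 2 = t by linear_combination six]; exact hj
      have h2 : ¬ Qi Out In q i (t + 4) := fun h => by
        obtain ⟨j, hj, hq⟩ := h.2.2
        exact hcon j (Or.inl hj) hq
      rw [H.locF_R ht hs, ind_false h1, ind_false h2] at hF
      norm_num at hF
    obtain ⟨j, hj, hq⟩ := key
    have ht' : Out i (t + 4 + 2) := by
      rw [show t + 4 + 2 = t by linear_combination six]; exact ht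
    have hj2 := H.pR i j (t + 4) hs ht' hj
    have hji : j ≠ i := by
      rintro rfl
      have h3 := H.uO _ _ _ ht hj2.1
      have : (0 : ZMod 6) = 4 := by linear_combination h3
      exact absurd this (by decide)
    refine ⟨j, hji, ⟨_, hj2.1⟩, ?_⟩
    have hL := H.locF_L (q := q) hj2.1 hj2.2
    have hj0 : 0 ≤ locF Out In q j := by
      rw [hL]
      by_cases hp : par (t + 4) = q j
      · have : Qo Out In q j (t + 4) := ⟨hj2.1, hp, i, hs, hq.symm⟩
        rw [ind_true this]
        have := ind_nonneg (Qi Out In q j (t + 4 + 2))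
        linarith
      · have : Qi Out In q j (t + 4 + 2) := by
          refine ⟨hj2.2, ?_, i, ht', hq.symm⟩
          rw [par_add_three, par_add_two (t + 4)]
          cases h1 : par (t + 4) <;> cases h2 : q j <;> simp_all
        rw [ind_true this]
        have := ind_nonneg (Qo Out In q j (t + 4))
        linarith
    have := H.R_ge (q := q) ht hs
    linarith

/-- If three directions `t, t+2, t+4` are all used by out-arcs then every passage is a left turn. -/
lemma LFam.allL {i : I} {t : ZMod 6} (h0 : Out i t) (h2 : ∃ j, Out j (t + 2))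
    (h4 : ∃ j, Out j (t + 4)) : In i (t + 2) := by
  have six : (6 : ZMod 6) = 0 := by decide
  obtain ⟨l, hl⟩ := h2
  obtain ⟨j, hj⟩ := h4
  rcases H.cO i t h0 with hs | hs | hs
  · exact hs
  · exfalso
    have a := H.sI _ _ hs
    have b := H.L1 _ (H.sO _ _ hl)
    rw [show t + 2 + 1 = t + 3 by ring] at b
    exact b a
  · exfalso
    have ht' : Out i (t + 4 + 2) := by
      rw [show t + 4 + 2 = t by linear_combination six]; exact h0
    have hj2 := H.pR i j (t + 4) hs ht' (Or.inl hj)
    rcases H.cO l (t + 2) hl with h | h | h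
    · rw [show t + 2 + 2 = t + 4 by ring] at h
      have := H.pI _ _ _ h hs
      subst this
      have h3 := H.uO _ _ _ hl h0
      have : (2 : ZMod 6) = 0 := by linear_combination h3
      exact absurd this (by decide)
    · have a := H.sI _ _ h
      have b := H.L1 _ (H.sO _ _ hj)
      rw [show t + 4 + 1 = t + 2 + 3 by ring] at b
      exact b a
    · rw [show t + 2 + 4 = t + 4 + 2 by ring] at h
      have := H.pI _ _ _ h hj2.2
      subst this
      have h3 := H.uO _ _ _ hl hj
      exact absurd (add_left_cancel h3) (by decide)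

lemma LFam.pairL {i j : I} {t : ZMod 6} (hi : Out i t) (hiL : In i (t + 2)) (hj : In j t)
    (hjL : Out j (t + 4)) (hq : q i = q j) : 0 ≤ locF Out In q i ∨ 0 ≤ locF Out In q j := by
  have six : (6 : ZMod 6) = 0 := by decide
  by_cases hp : par t = q i
  · left
    rw [H.locF_L hi hiL, ind_true (p := Qo Out In q i t) ⟨hi, hp, j, hj, hq.symm⟩]
    have := ind_nonneg (Qi Out In q i (t + 2))
    linarith
  · right
    have hj' : In j (t + 4 + 2) := by
      rw [show t + 4 + 2 = t by linear_combination six]; exact hj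
    rw [H.locF_L hjL hj']
    have hQ : Qi Out In q j (t + 4 + 2) := by
      rw [show t + 4 + 2 = t by linear_combination six]
      refine ⟨hj, ?_, i, hi, hq⟩
      rw [par_add_three]
      cases h1 : par t <;> cases h2 : q j <;> simp_all
    rw [ind_true hQ]
    have := ind_nonneg (Qo Out In q j (t + 4))
    linarith

/-- The local inequality at a vertex. -/
theorem LFam.local_ineq [Fintype I] : -2 ≤ ∑ i, locF Out In q i := by
  classical
  have six : (6 : ZMod 6) = 0 := by decide
  let P : Finset I := Finset.univ.filter (fun i => ∃ t, Out i t)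
  have hsum : ∑ i, locF Out In q i = ∑ i ∈ P, locF Out In q i := by
    symm
    apply Finset.sum_subset (Finset.filter_subset _ _)
    intro i _ hi
    exact H.locF_zero (fun h => hi (Finset.mem_filter.mpr ⟨Finset.mem_univ i, h⟩))
  let D : Finset (ZMod 6) := Finset.univ.filter (fun t => ∃ i, Out i t)
  have hD : ∀ t ∈ D, t + 1 ∉ D := by
    intro t ht ht'
    obtain ⟨i, hi⟩ := (Finset.mem_filter.mp ht).2
    obtain ⟨j, hj⟩ := (Finset.mem_filter.mp ht').2
    exact H.L1 t (H.sO _ _ hi) (H.sO _ _ hj)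
  have hDc := indep_card D hD
  have hPm : ∀ i, i ∈ P ↔ ∃ t, Out i t := by
    intro i; simp [P]
  have hcard : P.card ≤ D.card := by
    have hch : ∀ i, ∃ t, i ∈ P → Out i t := by
      intro i
      by_cases h : i ∈ P
      · obtain ⟨t, ht⟩ := (hPm i).mp h
        exact ⟨t, fun _ => ht⟩
      · exact ⟨0, fun h' => absurd h' h⟩
    choose f hf using hch
    apply Finset.card_le_card_of_injOn f
    · intro i hi
      have := hf i hi
      simp only [D, Finset.coe_filter, Finset.mem_univ, true_and, Set.mem_ofPred_eq]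
      exact ⟨i, this⟩
    · intro i hi j hj hij
      have h1 := hf i hi
      have h2 := hf j hj
      rw [hij] at h1
      exact H.pO _ _ _ h1 h2
  rw [hsum]
  by_cases hbad : ∃ i ∈ P, locF Out In q i ≤ -2
  · obtain ⟨i, hiP, hiF⟩ := hbad
    obtain ⟨j, hji, hjP, hij⟩ := H.partner ((hPm i).mp hiP) hiF
    have hjP' : j ∈ P := (hPm j).mpr hjP
    have hP2 : P.card ≤ 2 := by
      by_contra h3
      have h4 : D.card = 3 := by omega
      obtain ⟨t, ht⟩ := (hPm i).mp hiP
      have htD : t ∈ D := Finset.mem_filter.mpr ⟨Finset.mem_univ _, i, ht⟩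
      have h5 := hDc.2 h4 t htD
      have h6 := H.allL ht (Finset.mem_filter.mp h5.1).2 (Finset.mem_filter.mp h5.2).2
      have := H.L_ge (q := q) ht h6
      linarith
    have hsub : ({i, j} : Finset I) ⊆ P := by
      intro x hx
      rw [Finset.mem_insert, Finset.mem_singleton] at hx
      rcases hx with rfl | rfl
      · exact hiP
      · exact hjP'
    have hc2 : ({i, j} : Finset I).card = 2 := Finset.card_pair (Ne.symm hji)
    have heq : ({i, j} : Finset I) = P := Finset.eq_of_subset_of_card_le hsub (by omega)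
    rw [← heq, Finset.sum_pair (Ne.symm hji)]
    exact hij
  · push Not at hbad
    have hge : ∀ i ∈ P, -1 ≤ locF Out In q i := fun i hi => by
      have := hbad i hi
      omega
    by_cases h3 : P.card ≤ 2
    · have h1 : ∑ i ∈ P, (-1 : ℤ) ≤ ∑ i ∈ P, locF Out In q i := Finset.sum_le_sum hge
      rw [Finset.sum_const, nsmul_eq_mul] at h1
      have : (P.card : ℤ) ≤ 2 := by exact_mod_cast h3
      linarith
    · have h4 : D.card = 3 := by omega
      have hP3 : P.card = 3 := by omega
      have hne : D.Nonempty := Finset.card_pos.mp (by omega)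
      obtain ⟨t, htD⟩ := hne
      have h5 := hDc.2 h4 t htD
      obtain ⟨i0, hi0⟩ := (Finset.mem_filter.mp htD).2
      obtain ⟨i1, hi1⟩ := (Finset.mem_filter.mp h5.1).2
      obtain ⟨i2, hi2⟩ := (Finset.mem_filter.mp h5.2).2
      have L0 : In i0 (t + 2) := H.allL hi0 ⟨i1, hi1⟩ ⟨i2, hi2⟩
      have L1 : In i1 (t + 2 + 2) := H.allL hi1 ⟨i2, by
        rw [show t + 2 + 2 = t + 4 by ring]; exact hi2⟩ ⟨i0, by
        rw [show t + 2 + 4 = t by linear_combination six]; exact hi0⟩
      have L2 : In i2 (t + 4 + 2) := H.allL hi2 ⟨i0, by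
        rw [show t + 4 + 2 = t by linear_combination six]; exact hi0⟩ ⟨i1, by
        rw [show t + 4 + 4 = t + 2 by linear_combination six]; exact hi1⟩
      have ex : ∃ i ∈ P, 0 ≤ locF Out In q i := by
        have key : q i1 = q i0 ∨ q i2 = q i1 ∨ q i0 = q i2 := by
          cases q i0 <;> cases q i1 <;> cases q i2 <;> simp
        rcases key with hq | hq | hq
        · rcases H.pairL hi1 L1 L0 (by
            rw [show t + 2 + 4 = t by linear_combination six]; exact hi0) hq with h | h
          · exact ⟨i1, (hPm i1).mpr ⟨_, hi1⟩, h⟩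
          · exact ⟨i0, (hPm i0).mpr ⟨_, hi0⟩, h⟩
        · rcases H.pairL hi2 L2 (by
            rw [show t + 4 = t + 2 + 2 by ring]; exact L1) (by
            rw [show t + 4 + 4 = t + 2 by linear_combination six]; exact hi1) hq with h | h
          · exact ⟨i2, (hPm i2).mpr ⟨_, hi2⟩, h⟩
          · exact ⟨i1, (hPm i1).mpr ⟨_, hi1⟩, h⟩
        · rcases H.pairL hi0 L0 (j := i2) (by
            rw [show t + 4 + 2 = t by linear_combination six] at L2; exact L2) hi2 hq with h | h
          · exact ⟨i0, (hPm i0).mpr ⟨_, hi0⟩, h⟩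
          · exact ⟨i2, (hPm i2).mpr ⟨_, hi2⟩, h⟩
      obtain ⟨i, hiP, hi⟩ := ex
      have h1 : ∑ j ∈ P.erase i, (-1 : ℤ) ≤ ∑ j ∈ P.erase i, locF Out In q j :=
        Finset.sum_le_sum (fun j hj => hge j (Finset.mem_of_mem_erase hj))
      rw [Finset.sum_const, nsmul_eq_mul] at h1
      have h2 := Finset.add_sum_erase P (locF Out In q) hiP
      have h3 : (P.erase i).card = 2 := by rw [Finset.card_erase_of_mem hiP]; omega
      rw [h3] at h1
      push_cast at h1
      linarith

end

end TriLat
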